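import Pool.Agent.W_4d259d_h53.Cok

/-!
# Block TD (V-TD 16): the cokernel lemma in the form used in section 16
-/

noncomputable section

namespace Pool.Agent.W_4d259d_h53

open Set Filter Topology Metric TopologicalSpace Module
open Pool.Agent.W_4d259d_h46.Defs Pool.Agent.W_4d259d_h46 Pool.Agent.W_4d259d_h44

variable {E : Type*} [NormedAddCommGroup E] [NormedSpace ℂ E] [FiniteDimensional ℂ E]
variable {q1 r1 r2 q2 : ℝ} {g : ℂ → E →L[ℂ] E}

/-- (COK) -/
theorem cok (hg : GData q1 r1 r2 q2 g) {Dl : Set ℂ} (hD : IsOpen Dl)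
    (hne : Dl.Nonempty) (hsub : Dl ⊆ ball 0 r1) :
    ∃ (J : Finset ℂ), (J : Set ℂ) ⊆ Dl ∧
      ∃ Rr : HB (annu r1 r2) E →L[ℂ] HB (disc r2) E × (J → E) × HB (disc r1⁻¹) E,
        ∀ y, ∀ z ∈ annu r1 r2,
          (z⁻¹) ^ 2 • (Rr y).2.2.fn z⁻¹
            - g z ((Rr y).1.fn z + ∑ j : J, (z - (j : ℂ))⁻¹ • (Rr y).2.1 j) = y.fn z := by
  have : CompleteSpace E := FiniteDimensional.complete ℂ E
  obtain ⟨N, c, R0, Rb, Ri, hc, hcD, hx, hy⟩ := cok_poles hg hD hne hsub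
  have hr1 : 0 < r1 := hg.h1.trans hg.h2
  obtain ⟨tc, Q, hQ⟩ := taylor_split (F := E) (inv_pos.2 hr1) 2
  -- Q recovers the quotient by η²
  have key : ∀ y, ∀ η ∈ disc r1⁻¹, (Ri y).fn η = η ^ 2 • (Q (Ri y)).fn η := by
    intro y η hη
    obtain ⟨x, hxy⟩ := hx y
    have h0 : (0 : ℂ) ∈ disc r1⁻¹ := mem_ball_self (inv_pos.2 hr1)
    -- coefficient 0
    have hc0 : tc 0 (Ri y) = 0 := by
      have h1 := hQ (Ri y) 0 h0
      have h2 := hxy 0 h0
      simp [Finset.sum_range_succ] at h1 h2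
      rw [h2] at h1
      exact h1.symm
    -- for η ≠ 0: η c1 + η² Q = η² x
    have hne0 : ∀ ζ ∈ disc r1⁻¹, ζ ≠ 0 → tc 1 (Ri y) = ζ • (x.fn ζ - (Q (Ri y)).fn ζ) := by
      intro ζ hζ hζ0
      have h1 := hQ (Ri y) ζ hζ
      have h2 := hxy ζ hζ
      simp only [Finset.sum_range_succ, Finset.sum_range_zero, pow_zero, one_smul, zero_add,
        pow_one, hc0] at h1
      have h3 : ζ • tc 1 (Ri y) = ζ • (ζ • (x.fn ζ - (Q (Ri y)).fn ζ)) := by
        rw [smul_smul, smul_sub, ← pow_two, ← h2, h1]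
        abel
      have := congrArg (fun v => ζ⁻¹ • v) h3
      simpa [smul_smul, inv_mul_cancel₀ hζ0, ← mul_assoc] using this
    have hc1 : tc 1 (Ri y) = 0 := by
      have hlim : Tendsto (fun ζ : ℂ => ζ • (x.fn ζ - (Q (Ri y)).fn ζ)) (𝓝[≠] 0) (𝓝 0) := by
        have hb : ∀ ζ : ℂ, ‖ζ • (x.fn ζ - (Q (Ri y)).fn ζ)‖ ≤ ‖ζ‖ * (‖x‖ + ‖Q (Ri y)‖) := by
          intro ζ
          rw [norm_smul]
          gcongr
          exact (norm_sub_le _ _).trans (add_le_add (HB.fn_le _ _) (HB.fn_le _ _))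
        apply squeeze_zero_norm hb
        have : Tendsto (fun ζ : ℂ => ‖ζ‖ * (‖x‖ + ‖Q (Ri y)‖)) (𝓝 0) (𝓝 (‖(0:ℂ)‖ * (‖x‖ + ‖Q (Ri y)‖))) :=
          (continuous_norm.mul continuous_const).tendsto 0
        simp only [norm_zero, zero_mul] at this
        exact this.mono_left nhdsWithin_le_nhds
      have hcst : Tendsto (fun ζ : ℂ => ζ • (x.fn ζ - (Q (Ri y)).fn ζ)) (𝓝[≠] 0)
          (𝓝 (tc 1 (Ri y))) := by
        apply Tendsto.congr' _ tendsto_const_nhds
        have : (disc r1⁻¹ : Set ℂ) ∈ 𝓝 (0 : ℂ) := (disc r1⁻¹).2.mem_nhds h0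
        filter_upwards [mem_nhdsWithin_of_mem_nhds this, self_mem_nhdsWithin] with ζ h1 h2
        exact hne0 ζ h1 h2
      exact tendsto_nhds_unique hcst hlim
    have h1 := hQ (Ri y) η hη
    simp only [Finset.sum_range_succ, Finset.sum_range_zero, hc0, hc1, smul_zero, add_zero,
      zero_add] at h1
    exact h1
  classical
  refine ⟨Finset.univ.image c, ?_, ?_⟩
  · intro w hw
    simp only [Finset.coe_image, Finset.coe_univ, image_univ, mem_range] at hw
    obtain ⟨j, rfl⟩ := hw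
    exact hcD j
  · have hmem : ∀ j : Fin N, c j ∈ Finset.univ.image c := fun j =>
      Finset.mem_image_of_mem _ (Finset.mem_univ j)
    let e : Fin N ≃ (Finset.univ.image c : Finset ℂ) :=
      Equiv.ofBijective (fun j => ⟨c j, hmem j⟩)
        ⟨fun i j h => hc (congrArg Subtype.val h), fun ⟨w, hw⟩ => by
          obtain ⟨j, -, rfl⟩ := Finset.mem_image.1 hw
          exact ⟨j, rfl⟩⟩
    refine ⟨R0.prod ((ContinuousLinearMap.pi fun j => Rb (e.symm j)).prod (Q.comp Ri)), ?_⟩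
    intro y z hz
    have hz0 : z⁻¹ ∈ disc r1⁻¹ := by
      have hz1 : r1 < ‖z‖ := hz.1
      simp only [disc, Opens.mem_mk, mem_ball_zero_iff, norm_inv]
      exact inv_strictAnti₀ hr1 hz1
    have h1 := key y z⁻¹ hz0
    have h2 := hy y z hz
    have h3 : ∑ j : (Finset.univ.image c : Finset ℂ), (z - (j : ℂ))⁻¹ • Rb (e.symm j) y
        = ∑ j, (z - c j)⁻¹ • Rb j y := by
      rw [← Equiv.sum_comp e]
      refine Finset.sum_congr rfl fun j _ => ?_
      rw [Equiv.symm_apply_apply]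
      rfl
    simp only [ContinuousLinearMap.prod_apply, ContinuousLinearMap.coe_comp,
      Function.comp_apply, ContinuousLinearMap.coe_pi']
    rw [h3, ← h1, h2]

end Pool.Agent.W_4d259d_h53
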