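import Mathlib

/-!
# Block TD (V-TD 4): null sets by slices
-/

noncomputable section

namespace Pool.Agent.W_4d259d_h53

open Set Filter Topology Metric Module MeasureTheory

/-- Additive Haar measures of a finite dimensional space have the same null sets. -/
theorem null_iff {G : Type*} [NormedAddCommGroup G] [NormedSpace ℂ G]
    [FiniteDimensional ℂ G] [MeasurableSpace G] [BorelSpace G] (μ ν : Measure G)
    [μ.IsAddHaarMeasure] [ν.IsAddHaarMeasure] (S : Set G) : μ S = 0 ↔ ν S = 0 := by
  have : ProperSpace G := FiniteDimensional.proper ℂ G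
  constructor
  · intro h
    exact Measure.absolutelyContinuous_isAddHaarMeasure ν μ h
  · intro h
    exact Measure.absolutelyContinuous_isAddHaarMeasure μ ν h

/-- A compact set all of whose slices `{q | L⁻¹ (t, q) ∈ S}` are null is null.
Proof: `volume.prod ν` is an additive Haar measure on `ℂ × G'`, and its image under `L.symm` is an
additive Haar measure on `G` (`ContinuousLinearEquiv.isAddHaarMeasure_map`); two Haar measures have
the same null sets (`Measure.isAddHaarMeasure_eq_smul`).  `S` compact, hence measurable, so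
`Measure.measure_prod_null` applies to `L '' S`. -/
theorem null_of_slices {G : Type*} [NormedAddCommGroup G] [NormedSpace ℂ G]
    [FiniteDimensional ℂ G] [MeasurableSpace G] [BorelSpace G] (μ : Measure G)
    [μ.IsAddHaarMeasure] {G' : Type*} [NormedAddCommGroup G'] [NormedSpace ℂ G']
    [FiniteDimensional ℂ G'] [MeasurableSpace G'] [BorelSpace G'] (ν : Measure G')
    [ν.IsAddHaarMeasure] (L : G ≃L[ℂ] ℂ × G') {S : Set G} (hS : IsCompact S)
    (h : ∀ t : ℂ, ν {q : G' | L.symm (t, q) ∈ S} = 0) : μ S = 0 := by
  have : ProperSpace G := FiniteDimensional.proper ℂ G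
  have : ProperSpace G' := FiniteDimensional.proper ℂ G'
  have hHaar : (Measure.map L.symm ((volume : Measure ℂ).prod ν)).IsAddHaarMeasure :=
    L.symm.isAddHaarMeasure_map _
  rw [null_iff μ (Measure.map L.symm ((volume : Measure ℂ).prod ν)) S,
    Measure.map_apply L.symm.continuous.measurable hS.measurableSet,
    Measure.measure_prod_null (L.symm.continuous.measurable hS.measurableSet)]
  exact Eventually.of_forall fun t => h t

/-- Lindelof: a set which is null near each of its points is null. -/
theorem null_of_locally {V : Type*} [TopologicalSpace V] [SecondCountableTopology V]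
    {G : Type*} [MeasurableSpace G] (μ : Measure G) (g : V → G) (S : Set V)
    (h : ∀ x ∈ S, ∃ N : Set V, IsOpen N ∧ x ∈ N ∧ μ (g '' (S ∩ N)) = 0) : μ (g '' S) = 0 := by
  choose! N hN hx hμ using h
  obtain ⟨T, hT, hTU⟩ := TopologicalSpace.isOpen_iUnion_countable (fun x : S => N x)
    (fun x => hN x x.2)
  have hsub : g '' S ⊆ ⋃ x ∈ T, g '' (S ∩ N (x : V)) := by
    rintro _ ⟨x, hxS, rfl⟩
    have h1 : x ∈ ⋃ y : S, N (y : V) := Set.mem_iUnion.2 ⟨⟨x, hxS⟩, hx x hxS⟩
    rw [← hTU] at h1
    simp only [Set.mem_iUnion] at h1 ⊢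
    obtain ⟨y, hy, hxy⟩ := h1
    exact ⟨y, hy, x, ⟨hxS, hxy⟩, rfl⟩
  refine measure_mono_null hsub ?_
  rw [measure_biUnion_null_iff hT]
  intro y _
  exact hμ y y.2

end Pool.Agent.W_4d259d_h53
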