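import Pool.Agent.W_4d259d_h44.ApiC

/-!
# Block TD (V-TD 7): the zero set of `(1 - P) Θ` is a manifold of dimension `dim ker DΘ(w)`
-/

noncomputable section

namespace Pool.Agent.W_4d259d_h53

open Set Filter Topology Metric Module
open Pool.Agent.W_4d259d_h44

variable {XX YY : Type*} [NormedAddCommGroup XX] [NormedSpace ℂ XX] [CompleteSpace XX]
  [NormedAddCommGroup YY] [NormedSpace ℂ YY] [CompleteSpace YY]

/-- The kernel of the derivative of `Θ` at `w`. -/
abbrev KerD (Θ : XX → YY) (w : XX) : Submodule ℂ XX :=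
  LinearMap.ker (fderiv ℂ Θ w : XX →ₗ[ℂ] YY)

/-- Local parametrization of `{(1 - P) Θ = 0}` near a zero `w` of `Θ`.
Put `T = fderiv ℂ Θ w`, `KP = ker P` (closed, a Banach space), `Π = 1 - P : YY → KP` (as
`P P = 0` on ... : `P (y - P y) = P (T (R y)) = 0`).  The map
`f : XX → KerD Θ w × KP`, `f v = (a(v), Π (Θ v))`, `a(v) = (v - w) - R (T (v - w)) ∈ ker T`
(`T (u - R T u) = T u - T u + P T u = 0`), is complex differentiable on `Ω`; its derivative at `w`
is `u ↦ (u - R T u, T u)` (`T u ∈ KP` by `h2`), which is invertible with inverse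
`(x, y) ↦ x + R y` (`T (x + R y) = y - P y = y`; `x + R y - R (T (x + R y)) = x`; and
`(u - R T u) + R T u = u`).  `ApiC.inverse_function` gives the local inverse `g`; take
`m x = g (x, 0)` on `D = {x | (x, 0) ∈ ball}`.  For `w'` near `w` with `Π (Θ w') = 0`:
`w' = g (f w') = m (a(w'))`.  Derivative: `f ∘ g = id`, so `Π (DΘ(m x) (Dm(x) ξ)) = 0` and
`Dm(x)` is injective; conversely if `Π (DΘ(m x) v) = 0` then `Df(m x) v = (ξ, 0)` and
`v = Dg (Df v) = Dm(x) ξ` (shrink the neighbourhood so that `g ∘ f = id` near `m x`). -/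
theorem zero_manifold {Ω : Set XX} (hΩ : IsOpen Ω) {Θ : XX → YY}
    (hΘ : DifferentiableOn ℂ Θ Ω) {w : XX} (hw : w ∈ Ω) (h0 : Θ w = 0)
    {R : YY →L[ℂ] XX} {P : YY →L[ℂ] YY} (h1 : ∀ y, fderiv ℂ Θ w (R y) + P y = y)
    (h2 : ∀ x, P (fderiv ℂ Θ w x) = 0) :
    ∃ (O : Set XX) (D : Set (KerD Θ w)) (m : KerD Θ w → XX), IsOpen O ∧ w ∈ O ∧ O ⊆ Ω ∧
      IsOpen D ∧ DifferentiableOn ℂ m D ∧ MapsTo m D O ∧
      (∀ w' ∈ O, Θ w' = 0 → ∃ x ∈ D, m x = w') ∧
      ∀ x ∈ D, Function.Injective (fderiv ℂ m x) ∧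
        ∀ v : XX, fderiv ℂ Θ (m x) v - P (fderiv ℂ Θ (m x) v) = 0 → ∃ ξ, fderiv ℂ m x ξ = v := by
  set T : XX →L[ℂ] YY := fderiv ℂ Θ w with hT
  let KP : Submodule ℂ YY := LinearMap.ker (P : YY →ₗ[ℂ] YY)
  have hKPc : IsClosed (KP : Set YY) := P.isClosed_ker
  have hKDc : IsClosed (KerD Θ w : Set XX) := (fderiv ℂ Θ w).isClosed_ker
  have : CompleteSpace KP := hKPc.completeSpace_coe
  have : CompleteSpace (KerD Θ w) := hKDc.completeSpace_coe
  have hPi : ∀ y, P (y - P y) = 0 := by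
    intro y
    have h3 : y - P y = T (R y) := by rw [sub_eq_iff_eq_add]; exact (h1 y).symm
    rw [h3, h2]
  have ha : ∀ u, T (u - R (T u)) = 0 := by
    intro u
    have h3 := h1 (T u)
    rw [h2, add_zero] at h3
    rw [map_sub, h3, sub_self]
  let Q : YY →L[ℂ] KP := (ContinuousLinearMap.id ℂ YY - P).codRestrict KP (fun y => hPi y)
  have hQ : ∀ y, ((Q y : KP) : YY) = y - P y := fun y => rfl
  let a0 : XX →L[ℂ] KerD Θ w :=
    (ContinuousLinearMap.id ℂ XX - R.comp T).codRestrict (KerD Θ w) (fun u => ha u)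
  have ha0 : ∀ u, ((a0 u : KerD Θ w) : XX) = u - R (T u) := fun u => rfl
  -- the linear equivalence
  have hinvl : Function.LeftInverse
      (fun p : KerD Θ w × KP => (p.1 : XX) + R (p.2 : YY)) (a0.prod (Q.comp T)) := by
    intro u
    show ((a0 u : KerD Θ w) : XX) + R ((Q (T u) : KP) : YY) = u
    rw [ha0, hQ, h2, sub_zero]
    abel
  have hinvr : Function.RightInverse
      (fun p : KerD Θ w × KP => (p.1 : XX) + R (p.2 : YY)) (a0.prod (Q.comp T)) := by
    rintro ⟨x, y⟩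
    have hx : T (x : XX) = 0 := x.2
    have hy : P (y : YY) = 0 := y.2
    have h3 : T ((x : XX) + R (y : YY)) = y := by
      have h4 := h1 (y : YY)
      rw [hy, add_zero] at h4
      rw [map_add, hx, h4, zero_add]
    refine Prod.ext (Subtype.ext ?_) (Subtype.ext ?_)
    · show ((a0 ((x : XX) + R (y : YY)) : KerD Θ w) : XX) = x
      rw [ha0, h3]
      abel
    · show ((Q (T ((x : XX) + R (y : YY))) : KP) : YY) = y
      rw [h3, hQ, hy, sub_zero]
  let L : XX ≃L[ℂ] KerD Θ w × KP := ContinuousLinearEquiv.equivOfInverse (a0.prod (Q.comp T))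
    (((KerD Θ w).subtypeL.comp (ContinuousLinearMap.fst ℂ _ _)) +
      (R.comp (KP.subtypeL.comp (ContinuousLinearMap.snd ℂ _ _)))) hinvl hinvr
  -- the map
  let f : XX → KerD Θ w × KP := fun v => (a0 (v - w), Q (Θ v))
  have hfd : ∀ v ∈ Ω, HasFDerivAt f (a0.prod (Q.comp (fderiv ℂ Θ v))) v := by
    intro v hv
    have e1 : HasFDerivAt (fun v => a0 (v - w)) a0 v := by
      have := a0.hasFDerivAt.comp v ((hasFDerivAt_id v).sub_const w)
      exact this
    have e2 : HasFDerivAt (fun v => Q (Θ v)) (Q.comp (fderiv ℂ Θ v)) v :=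
      Q.hasFDerivAt.comp v (hΘ.differentiableAt (hΩ.mem_nhds hv)).hasFDerivAt
    exact e1.prodMk e2
  have hfdiff : DifferentiableOn ℂ f Ω := fun v hv => (hfd v hv).differentiableAt.differentiableWithinAt
  have hfL : fderiv ℂ f w = (L : XX →L[ℂ] KerD Θ w × KP) := by
    rw [(hfd w hw).fderiv]
    rfl
  have hfw : f w = 0 := by
    show (a0 (w - w), Q (Θ w)) = 0
    rw [sub_self, h0, map_zero, map_zero]
    rfl
  obtain ⟨r, hr, g, hgd, hgw, hgf, r', hr', hfg⟩ :=
    ApiC.inverse_function hΩ hfdiff hw L hfL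
  rw [hfw] at hgd hgw hgf hfg
  have hin : Continuous fun x : KerD Θ w => ((x, 0) : KerD Θ w × KP) := by fun_prop
  have hopen : IsOpen (ball (0 : KerD Θ w × KP) r ∩ g ⁻¹' (ball w r' ∩ Ω)) :=
    hgd.continuousOn.isOpen_inter_preimage isOpen_ball (isOpen_ball.inter hΩ)
  refine ⟨ball w r' ∩ Ω, (fun x : KerD Θ w => ((x, 0) : KerD Θ w × KP)) ⁻¹'
    (ball (0 : KerD Θ w × KP) r ∩ g ⁻¹' (ball w r' ∩ Ω)), fun x => g (x, 0),
    isOpen_ball.inter hΩ, ⟨mem_ball_self hr', hw⟩, Set.inter_subset_right, hopen.preimage hin,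
    ?_, fun x hx => hx.2, ?_, ?_⟩
  · have e1 : DifferentiableOn ℂ (fun x : KerD Θ w => ((x, 0) : KerD Θ w × KP))
        ((fun x : KerD Θ w => ((x, 0) : KerD Θ w × KP)) ⁻¹'
          (ball (0 : KerD Θ w × KP) r ∩ g ⁻¹' (ball w r' ∩ Ω))) :=
      (differentiable_id.prodMk (differentiable_const _)).differentiableOn
    exact hgd.comp e1 fun x hx => hx.1
  · intro w' hw' hz
    obtain ⟨e1, e2⟩ := hfg w' hw'.1
    have e3 : f w' = (a0 (w' - w), 0) := by
      show (a0 (w' - w), Q (Θ w')) = _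
      rw [hz, map_zero]
    rw [e3] at e1 e2
    refine ⟨a0 (w' - w), ⟨e1, ?_⟩, e2⟩
    show g (a0 (w' - w), 0) ∈ ball w r' ∩ Ω
    rw [e2]
    exact hw'
  · intro x hx
    have hp : ((x, 0) : KerD Θ w × KP) ∈ ball (0 : KerD Θ w × KP) r := hx.1
    obtain ⟨hmΩ, hfm⟩ := hgf _ hp
    have hmb : g (x, 0) ∈ ball w r' := hx.2.1
    have hg' : HasFDerivAt g (fderiv ℂ g (x, 0)) (x, 0) :=
      (hgd.differentiableAt (isOpen_ball.mem_nhds hp)).hasFDerivAt
    have hf' := hfd _ hmΩ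
    -- `Df Dg = 1`
    have e1 : (a0.prod (Q.comp (fderiv ℂ Θ (g (x, 0))))).comp (fderiv ℂ g (x, 0)) =
        ContinuousLinearMap.id ℂ _ := by
      have e2 : HasFDerivAt (fun p => f (g p))
          ((a0.prod (Q.comp (fderiv ℂ Θ (g (x, 0))))).comp (fderiv ℂ g (x, 0))) (x, 0) :=
        hf'.comp _ hg'
      have e3 : (fun p => f (g p)) =ᶠ[𝓝 (x, 0)] id := by
        filter_upwards [isOpen_ball.mem_nhds hp] with p hp
        exact (hgf p hp).2
      exact (e2.congr_of_eventuallyEq e3.symm).unique (hasFDerivAt_id _)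
    -- `Dg Df = 1`
    have e4 : (fderiv ℂ g (x, 0)).comp (a0.prod (Q.comp (fderiv ℂ Θ (g (x, 0))))) =
        ContinuousLinearMap.id ℂ _ := by
      have e2 : HasFDerivAt (fun v => g (f v))
          ((fderiv ℂ g (x, 0)).comp (a0.prod (Q.comp (fderiv ℂ Θ (g (x, 0)))))) (g (x, 0)) := by
        refine HasFDerivAt.comp _ ?_ hf'
        rw [hfm]
        exact hg'
      have e3 : (fun v => g (f v)) =ᶠ[𝓝 (g (x, 0))] id := by
        filter_upwards [isOpen_ball.mem_nhds hmb] with v hv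
        exact (hfg v hv).2
      exact (e2.congr_of_eventuallyEq e3.symm).unique (hasFDerivAt_id _)
    have hm' : HasFDerivAt (fun x : KerD Θ w => g (x, 0))
        ((fderiv ℂ g (x, 0)).comp (ContinuousLinearMap.inl ℂ _ _)) x :=
      hg'.comp x (hasFDerivAt_prodMk_left x 0)
    rw [hm'.fderiv]
    constructor
    · rw [injective_iff_map_eq_zero]
      intro ξ hξ
      have e5 : fderiv ℂ g (x, 0) (ξ, 0) = 0 := hξ
      have e6 := congrArg (fun A : KerD Θ w × KP →L[ℂ] KerD Θ w × KP => A (ξ, 0)) e1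
      simp only [ContinuousLinearMap.comp_apply, e5, map_zero, ContinuousLinearMap.id_apply] at e6
      exact (congrArg Prod.fst e6).symm
    · intro v hv
      refine ⟨a0 v, ?_⟩
      have e5 : Q (fderiv ℂ Θ (g (x, 0)) v) = 0 := Subtype.ext hv
      have e6 := congrArg (fun A : XX →L[ℂ] XX => A v) e4
      simp only [ContinuousLinearMap.comp_apply, ContinuousLinearMap.prod_apply, e5,
        ContinuousLinearMap.id_apply] at e6
      exact e6

end Pool.Agent.W_4d259d_h53
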