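import Mathlib

/-!
# Block TD (V-TD 6): Fredholm data in projection form
-/

noncomputable section

namespace Pool.Agent.W_4d259d_h53

open Set Filter Topology Metric Module

variable {XX YY : Type*} [NormedAddCommGroup XX] [NormedSpace ℂ XX]
  [NormedAddCommGroup YY] [NormedSpace ℂ YY]

/-- From `y = T R y + P y`, `P` of finite rank, to the projection form `T R' = 1 - P'`, `P' T = 0`.
Proof: `A = range P` finite dimensional, `A1 = A ⊓ range T`, `A2` a complement of `A1` in `A`,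
`q : A → A` the projection onto `A2` along `A1`, `S : A1 → XX` linear with `T (S a) = a`
(choose preimages of a basis; continuous, as `A1` is finite dimensional).
`R' y = R y + S (P y - q (P y))`, `P' y = q (P y)`.  Then `T R' y + P' y = T R y + P y = y`, and
`P' (T x) = T x - T (R' (T x)) ∈ range T ⊓ A2 = 0` (an element of `A2 ≤ A` in `range T` lies in
`A1 ⊓ A2 = ⊥`). -/
theorem proj_form {T : XX →L[ℂ] YY} {R : YY →L[ℂ] XX} {P : YY →L[ℂ] YY}
    (h : ∀ y, T (R y) + P y = y)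
    (hP : FiniteDimensional ℂ (LinearMap.range (P : YY →ₗ[ℂ] YY))) :
    ∃ (R' : YY →L[ℂ] XX) (P' : YY →L[ℂ] YY), (∀ y, T (R' y) + P' y = y) ∧
      (∀ x, P' (T x) = 0) ∧ LinearMap.range (P' : YY →ₗ[ℂ] YY) ≤ LinearMap.range (P : YY →ₗ[ℂ] YY) := by
  classical
  set A : Submodule ℂ YY := LinearMap.range (P : YY →ₗ[ℂ] YY) with hA
  set RT : Submodule ℂ YY := LinearMap.range (T : XX →ₗ[ℂ] YY) with hRT
  let A1 : Submodule ℂ A := RT.comap A.subtype
  obtain ⟨A2, hc⟩ := A1.exists_isCompl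
  let q : A →ₗ[ℂ] A := A2.subtype ∘ₗ (A2.projectionOnto A1 hc.symm)
  have hq2 : ∀ a, q a ∈ A2 := fun a => Subtype.coe_prop _
  have hq1 : ∀ a, a - q a ∈ A1 := by
    intro a
    rw [← Submodule.projectionOnto_apply_eq_zero_iff hc.symm, map_sub]
    have : A2.projectionOnto A1 hc.symm (q a) = A2.projectionOnto A1 hc.symm a :=
      Submodule.projectionOnto_apply_left hc.symm _
    rw [this, sub_self]
  obtain ⟨g, hg⟩ := LinearMap.exists_rightInverse_of_surjective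
    ((T : XX →ₗ[ℂ] YY).rangeRestrict) (LinearMap.range_rangeRestrict _)
  have hg' : ∀ y : RT, T (g y) = y := by
    intro y
    have := DFunLike.congr_fun hg y
    exact congrArg Subtype.val this
  let iq : A →ₗ[ℂ] RT := LinearMap.codRestrict RT (A.subtype ∘ₗ (LinearMap.id - q)) (fun a => by
    have h2 := hq1 a
    exact h2)
  let Sq : A →ₗ[ℂ] XX := g ∘ₗ iq
  have hSq : ∀ a : A, T (Sq a) = (a : YY) - (q a : YY) := by
    intro a
    have := hg' (iq a)
    rw [show Sq a = g (iq a) from rfl, this]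
    rfl
  let Pc : YY →L[ℂ] A := P.codRestrict A (fun y => LinearMap.mem_range_self _ y)
  have hPc : ∀ y, ((Pc y : A) : YY) = P y := fun y => rfl
  let qc : A →L[ℂ] A := LinearMap.toContinuousLinearMap q
  let Sc : A →L[ℂ] XX := LinearMap.toContinuousLinearMap Sq
  refine ⟨R + Sc.comp Pc, A.subtypeL.comp (qc.comp Pc), ?_, ?_, ?_⟩
  · have key : ∀ y, T ((R + Sc.comp Pc) y) + (A.subtypeL.comp (qc.comp Pc)) y = y := by
      intro y
      have h1 : (R + Sc.comp Pc) y = R y + Sq (Pc y) := rfl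
      have h2 : (A.subtypeL.comp (qc.comp Pc)) y = ((q (Pc y) : A) : YY) := rfl
      rw [h1, h2, map_add, hSq, hPc, add_assoc, sub_add_cancel, h]
    exact key
  · intro x
    have key : T ((R + Sc.comp Pc) (T x)) + (A.subtypeL.comp (qc.comp Pc)) (T x) = T x := by
      have h1 : (R + Sc.comp Pc) (T x) = R (T x) + Sq (Pc (T x)) := rfl
      have h2 : (A.subtypeL.comp (qc.comp Pc)) (T x) = ((q (Pc (T x)) : A) : YY) := rfl
      rw [h1, h2, map_add, hSq, hPc, add_assoc, sub_add_cancel, h]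
    have h2 : (A.subtypeL.comp (qc.comp Pc)) (T x) = ((q (Pc (T x)) : A) : YY) := rfl
    have h3 : ((q (Pc (T x)) : A) : YY) ∈ RT := by
      refine ⟨x - (R + Sc.comp Pc) (T x), ?_⟩
      change T (x - (R + Sc.comp Pc) (T x)) = _
      rw [map_sub, ← h2]
      exact (sub_eq_iff_eq_add'.mpr key.symm)
    have h4 : q (Pc (T x)) ∈ A1 := h3
    have h5 : q (Pc (T x)) ∈ A1 ⊓ A2 := ⟨h4, hq2 _⟩
    rw [hc.inf_eq_bot, Submodule.mem_bot] at h5
    rw [h2, h5]
    rfl
  · rintro _ ⟨y, rfl⟩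
    exact Subtype.coe_prop (q (Pc y))

/-- The range of an operator with projection data is closed. -/
theorem range_closed {T : XX →L[ℂ] YY} {R : YY →L[ℂ] XX} {P : YY →L[ℂ] YY}
    (h : ∀ y, T (R y) + P y = y) (h' : ∀ x, P (T x) = 0) :
    IsClosed (LinearMap.range (T : XX →ₗ[ℂ] YY) : Set YY) := by
  have h1 : (LinearMap.range (T : XX →ₗ[ℂ] YY) : Set YY) = {y | P y = 0} := by
    ext y
    constructor
    · rintro ⟨x, rfl⟩
      exact h' x
    · intro hy
      refine ⟨R y, ?_⟩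
      have := h y
      rw [show P y = 0 from hy, add_zero] at this
      exact this
  rw [h1]
  exact isClosed_singleton.preimage P.continuous

/-- Neumann series: if `T Q = 1 - K1 - K2`, `‖K1‖ ≤ 1/2`, `K2` of finite rank, then there are
`R`, `P` with `T R + P = 1`, `P` of finite rank (`range P = range K2`), and `R y = Q y'` for some
`y'`: `R = Q (1 - K1)⁻¹`, `P = K2 (1 - K1)⁻¹`. -/
theorem neumann [CompleteSpace YY] {T : XX →L[ℂ] YY} {Q : YY →L[ℂ] XX} {K1 K2 : YY →L[ℂ] YY}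
    (h : ∀ y, T (Q y) = y - K1 y - K2 y) (h1 : ‖K1‖ ≤ 1 / 2) :
    ∃ (R : YY →L[ℂ] XX) (P : YY →L[ℂ] YY), (∀ y, T (R y) + P y = y) ∧
      (∀ y, ∃ y', R y = Q y') ∧ ∀ y, ∃ y', P y = K2 y' := by
  have hunit : IsUnit (1 - K1) := isUnit_one_sub_of_norm_lt_one (h1.trans_lt (by norm_num))
  obtain ⟨u, hu⟩ := hunit
  refine ⟨Q.comp (↑u⁻¹ : YY →L[ℂ] YY), K2.comp (↑u⁻¹ : YY →L[ℂ] YY), ?_, fun y => ⟨_, rfl⟩,
    fun y => ⟨_, rfl⟩⟩
  intro y
  change T (Q ((↑u⁻¹ : YY →L[ℂ] YY) y)) + K2 ((↑u⁻¹ : YY →L[ℂ] YY) y) = y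
  rw [h, sub_add_cancel]
  have h2 : (↑u : YY →L[ℂ] YY) ((↑u⁻¹ : YY →L[ℂ] YY) y) = y := by
    rw [← mul_apply_eq_comp, Units.mul_inv]
    rfl
  rw [hu] at h2
  exact h2

/-- If `v = K1 v + K2 v` on a subspace `S`, `‖K1‖ ≤ 1/2`, `K2` of finite rank, then `S` is finite
dimensional (`K2` is injective on `S`). -/
theorem finite_of_small {S : Submodule ℂ XX} {K1 K2 : XX →L[ℂ] XX} (h1 : ‖K1‖ ≤ 1 / 2)
    (h2 : FiniteDimensional ℂ (LinearMap.range (K2 : XX →ₗ[ℂ] XX)))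
    (h : ∀ v ∈ S, K1 v + K2 v = v) : FiniteDimensional ℂ S := by
  let f : S →ₗ[ℂ] LinearMap.range (K2 : XX →ₗ[ℂ] XX) :=
    (K2 : XX →ₗ[ℂ] XX).rangeRestrict ∘ₗ S.subtype
  refine Module.Finite.of_injective f ?_
  rw [← LinearMap.ker_eq_bot, LinearMap.ker_eq_bot']
  intro v hv
  have h0 : K2 (v : XX) = 0 := congrArg Subtype.val hv
  have h3 := h v v.2
  rw [h0, add_zero] at h3
  have h4 : ‖(v : XX)‖ ≤ 1 / 2 * ‖(v : XX)‖ := by
    conv_lhs => rw [← h3]
    exact (K1.le_opNorm _).trans (mul_le_mul_of_nonneg_right h1 (norm_nonneg _))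
  have h5 : ‖(v : XX)‖ ≤ 0 := by linarith [norm_nonneg (v : XX)]
  exact Subtype.ext (norm_le_zero_iff.mp h5)

end Pool.Agent.W_4d259d_h53
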