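import Pool.Agent.W_4d259d_h53.Sard
import Pool.Agent.W_4d259d_h53.Proj
import Pool.Agent.W_4d259d_h53.Man

/-!
# Block TD (V-TD 8): the abstract Sard lemma (ABS)
-/

noncomputable section

namespace Pool.Agent.W_4d259d_h53

open Set Filter Topology Metric Module MeasureTheory

variable {XX YY : Type*} [NormedAddCommGroup XX] [NormedSpace ℂ XX] [CompleteSpace XX]
  [NormedAddCommGroup YY] [NormedSpace ℂ YY] [CompleteSpace YY]

/-- Fredholm type data of a continuous linear operator. -/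
def Fred (T : XX →L[ℂ] YY) : Prop :=
  FiniteDimensional ℂ (LinearMap.ker (T : XX →ₗ[ℂ] YY)) ∧
    ∃ (R : YY →L[ℂ] XX) (P : YY →L[ℂ] YY), (∀ y, T (R y) + P y = y) ∧
      FiniteDimensional ℂ (LinearMap.range (P : YY →ₗ[ℂ] YY))

variable {G : Type*} [NormedAddCommGroup G] [NormedSpace ℂ G] [FiniteDimensional ℂ G]
  [MeasurableSpace G] [BorelSpace G]

/-- Local version: near `w`, the zeros of `Θ` with kernel of the same dimension as at `w` at which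
`lam` is not onto on the kernel have a null image.
Proof: `proj_form`, `zero_manifold`.  If `w' = m x ∈ O` is a zero with
`finrank (KerD Θ w') = finrank (KerD Θ w)`, then `KerD Θ w' ⊆ range (fderiv m x)` (last item of
`zero_manifold`), and dimensions are equal (`fderiv m x` is injective on `KerD Θ w`), so
`KerD Θ w' = range (fderiv m x)`.  If `lam` is not onto on it then `x ∈ critSet (lam ∘ m) D`
(chain rule).  `sard`. -/
theorem abs_local (μ : Measure G) [μ.IsAddHaarMeasure] {Ω : Set XX} (hΩ : IsOpen Ω)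
    {Θ : XX → YY} (hΘ : DifferentiableOn ℂ Θ Ω) (lam : XX →L[ℂ] G) {w : XX} (hw : w ∈ Ω)
    (h0 : Θ w = 0) (hF : Fred (fderiv ℂ Θ w)) :
    ∃ O : Set XX, IsOpen O ∧ w ∈ O ∧
      μ (lam '' {w' ∈ O | w' ∈ Ω ∧ Θ w' = 0 ∧
        FiniteDimensional ℂ (KerD Θ w') ∧ finrank ℂ (KerD Θ w') = finrank ℂ (KerD Θ w) ∧
        (KerD Θ w').map (lam : XX →ₗ[ℂ] G) ≠ ⊤}) = 0 := by
  obtain ⟨hfin, R, P, hRP, hPfin⟩ := hF
  obtain ⟨R', P', h1, h2, _⟩ := proj_form hRP hPfin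
  obtain ⟨O, D, m, hO, hwO, hOΩ, hD, hm, hmaps, hsurj, hder⟩ := zero_manifold hΩ hΘ hw h0 h1 h2
  have hfd : FiniteDimensional ℂ (KerD Θ w) := hfin
  refine ⟨O, hO, hwO, ?_⟩
  have hlm : DifferentiableOn ℂ (fun x => lam (m x)) D :=
    lam.differentiable.comp_differentiableOn hm
  have hs := sard μ hD hlm
  refine measure_mono_null ?_ hs
  rintro _ ⟨w', ⟨hw'O, _, hw'0, hw'fd, hw'rk, hw'l⟩, rfl⟩
  obtain ⟨x, hx, rfl⟩ := hsurj w' hw'O hw'0
  refine ⟨x, ⟨hx, ?_⟩, rfl⟩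
  obtain ⟨hinj, hker⟩ := hder x hx
  have hle : KerD Θ (m x) ≤ LinearMap.range (fderiv ℂ m x : KerD Θ w →ₗ[ℂ] XX) := by
    intro v hv
    have hv0 : fderiv ℂ Θ (m x) v = 0 := hv
    obtain ⟨ξ, hξ⟩ := hker v (by rw [hv0, map_zero, sub_zero])
    exact ⟨ξ, hξ⟩
  have hrk : finrank ℂ (LinearMap.range (fderiv ℂ m x : KerD Θ w →ₗ[ℂ] XX)) =
      finrank ℂ (KerD Θ w) := LinearMap.finrank_range_of_inj hinj
  have heq : KerD Θ (m x) = LinearMap.range (fderiv ℂ m x : KerD Θ w →ₗ[ℂ] XX) :=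
    Submodule.eq_of_le_of_finrank_eq hle (hw'rk.trans hrk.symm)
  have hchain : fderiv ℂ (fun x => lam (m x)) x = lam.comp (fderiv ℂ m x) :=
    (lam.hasFDerivAt.comp x (hm.differentiableAt (hD.mem_nhds hx)).hasFDerivAt).fderiv
  rw [hchain]
  intro htop
  apply hw'l
  rw [heq, ← LinearMap.range_comp]
  exact htop

/-- (ABS) Abstract Sard lemma.  `Z` = a separable set of zeros with Fredholm derivative.
Proof: `Z = ⋃_k Z_k`, `Z_k` = zeros in `Z` with kernel of dimension `k` and `lam` not onto on the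
kernel; `Z_k` is separable metric, hence Lindelof; `abs_local` at each point of `Z_k`. -/
theorem abs_sard (μ : Measure G) [μ.IsAddHaarMeasure] {Ω : Set XX} (hΩ : IsOpen Ω)
    {Θ : XX → YY} (hΘ : DifferentiableOn ℂ Θ Ω) (lam : XX →L[ℂ] G) {Z : Set XX}
    (hZΩ : Z ⊆ Ω) (hZ0 : ∀ w ∈ Z, Θ w = 0) (hsep : TopologicalSpace.IsSeparable Z)
    (hF : ∀ w ∈ Z, Fred (fderiv ℂ Θ w)) :
    μ (lam '' {w ∈ Z | (KerD Θ w).map (lam : XX →ₗ[ℂ] G) ≠ ⊤}) = 0 := by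
  have hsub : (lam '' {w ∈ Z | (KerD Θ w).map (lam : XX →ₗ[ℂ] G) ≠ ⊤}) ⊆
      ⋃ k : ℕ, (fun z : Z => lam (z : XX)) '' {z : Z | finrank ℂ (KerD Θ (z : XX)) = k ∧
        (KerD Θ (z : XX)).map (lam : XX →ₗ[ℂ] G) ≠ ⊤} := by
    rintro _ ⟨w, ⟨hwZ, hwl⟩, rfl⟩
    exact mem_iUnion.2 ⟨finrank ℂ (KerD Θ w), ⟨w, hwZ⟩, ⟨rfl, hwl⟩, rfl⟩
  refine measure_mono_null hsub (measure_iUnion_null fun k => ?_)
  have hsep' : TopologicalSpace.SeparableSpace Z := hsep.separableSpace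
  have hsc : SecondCountableTopology Z := UniformSpace.secondCountable_of_separable Z
  apply null_of_locally μ (fun z : Z => lam (z : XX))
  rintro ⟨w, hwZ⟩ ⟨hwk, _⟩
  obtain ⟨O, hO, hwO, hnull⟩ := abs_local μ hΩ hΘ lam (hZΩ hwZ) (hZ0 w hwZ) (hF w hwZ)
  refine ⟨Subtype.val ⁻¹' O, hO.preimage continuous_subtype_val, hwO, measure_mono_null ?_ hnull⟩
  rintro _ ⟨⟨w', hw'Z⟩, ⟨⟨hw'k, hw'l⟩, hw'O⟩, rfl⟩
  exact ⟨w', ⟨hw'O, hZΩ hw'Z, hZ0 w' hw'Z, (hF w' hw'Z).1, hw'k.trans hwk.symm, hw'l⟩, rfl⟩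

end Pool.Agent.W_4d259d_h53
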