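import Pool.Agent.W_4d259d_h53.FDef
import Pool.Agent.W_4d259d_h53.Proj

/-!
# Block TD (V-TD 13): the kernel of `T_g` is finite dimensional
-/

noncomputable section

namespace Pool.Agent.W_4d259d_h53

open Set Filter Topology Metric TopologicalSpace Module
open Pool.Agent.W_4d259d_h46.Defs Pool.Agent.W_4d259d_h46 Pool.Agent.W_4d259d_h44

variable {E : Type*} [NormedAddCommGroup E] [NormedSpace ℂ E] [FiniteDimensional ℂ E]
variable {q1 r1 r2 q2 : ℝ} {g : ℂ → E →L[ℂ] E}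

/-- Proof (no compactness): for `v` in the kernel, `vi(1/z) = g v0` and `v0 = g⁻¹ vi(1/z)` on the
annulus.  By uniqueness of the Laurent splitting `v0 = Pp (g⁻¹ vi(1/·))` and
`vi = Pm (g v0) + const ((Pp (g v0))(0))` (the splitting of `vi(1/z)` is `f = vi(0)`,
`m = vi - vi(0)`).  Approximate `g` and `g⁻¹` by Laurent polynomials `r`, `r'` up to `τ`
(`laurent_approx`): `v = K1 v + K2 v` with
`K1 v = (Pp ((g⁻¹ - r') vi(1/·)), Pm ((g - r) v0) + const (Pp ((g - r) v0)(0)))`, of norm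
`≤ 1/2`, and `K2` the same with `r'`, `r`: finite rank by `plus_part`, `minus_part`,
`finite_rank_poly`.  Conclude with `finite_of_small`. -/
theorem ker_fin (hg : GData q1 r1 r2 q2 g)
    {T : HB (disc r2) E × HB (disc r1⁻¹) E →L[ℂ] HB (annu r1 r2) E} (hT : IsTg g T) :
    FiniteDimensional ℂ (LinearMap.ker
      (T : HB (disc r2) E × HB (disc r1⁻¹) E →ₗ[ℂ] HB (annu r1 r2) E)) := by
  have : CompleteSpace E := FiniteDimensional.complete ℂ E
  have hr1 : 0 < r1 := hg.h1.trans hg.h2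
  obtain ⟨C, hC, hgb, hgi⟩ := hg.bounds
  have hsub : ∀ z ∈ annu r1 r2, z ∈ annu q1 q2 := fun z hz =>
    ⟨hg.h2.trans hz.1, hz.2.trans hg.h4⟩
  have hz0 : ∀ z ∈ annu q1 q2, z ≠ 0 := by
    rintro z hz rfl
    have := hz.1
    rw [norm_zero] at this
    exact absurd this (not_lt.2 hg.h1.le)
  have hinv : ∀ z ∈ annu r1 r2, z⁻¹ ∈ disc r1⁻¹ := by
    intro z hz
    show z⁻¹ ∈ ball (0 : ℂ) r1⁻¹
    rw [mem_ball_zero_iff, norm_inv]
    exact inv_strictAnti₀ hr1 hz.1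
  have hd2 : ∀ z ∈ annu r1 r2, z ∈ disc r2 := by
    intro z hz
    show z ∈ ball (0 : ℂ) r2
    rw [mem_ball_zero_iff]
    exact hz.2
  have h00 : (0 : ℂ) ∈ disc r1⁻¹ := mem_ball_self (inv_pos.2 hr1)
  have h02 : (0 : ℂ) ∈ disc r2 := mem_ball_self (hr1.trans hg.h3)
  obtain ⟨Pp, Pm, hP⟩ := laurent_HB (F := E) hr1 hg.h3
  obtain ⟨Kc, hKc, hKcv⟩ := exists_const (R := ℂ) (F := E) (U := disc r1⁻¹)
  obtain ⟨Kd, hKd, hKdv⟩ := exists_const (R := ℂ) (F := E) (U := disc r2)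
  -- uniqueness of the splitting, for bounded functions
  have huniq : ∀ (y : HB (annu r1 r2) E) (f : HB (disc r2) E) (m : HB (disc r1⁻¹) E),
      m.fn 0 = 0 → (∀ z ∈ annu r1 r2, y.fn z = f.fn z + m.fn z⁻¹) → Pp y = f ∧ Pm y = m := by
    intro y f m hm0 hfm
    obtain ⟨e1, e2⟩ := laurent_unique (F := E) hr1 hg.h3
      (f := fun z => (Pp y).fn z - f.fn z) (m := fun z => (Pm y).fn z - m.fn z)
      ((holOn_iff.1 (Pp y).fn_hol).sub (holOn_iff.1 f.fn_hol))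
      ((holOn_iff.1 (Pm y).fn_hol).sub (holOn_iff.1 m.fn_hol))
      (by rw [(hP y).2, hm0, sub_zero])
      (fun z hz => by
        have e3 := (hP y).1 z hz
        rw [hfm z hz] at e3
        have e4 : (Pp y).fn z - f.fn z + ((Pm y).fn z⁻¹ - m.fn z⁻¹) =
            ((Pp y).fn z + (Pm y).fn z⁻¹) - (f.fn z + m.fn z⁻¹) := by abel
        rw [e4, ← e3, sub_self])
    exact ⟨HB.ext' fun z hz => sub_eq_zero.1 (e1 z hz),
      HB.ext' fun z hz => sub_eq_zero.1 (e2 z hz)⟩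
  -- the Laurent polynomials
  set τ : ℝ := 1 / (2 * (‖Pp‖ + ‖Pm‖ + 1)) with hτ
  have hden : 0 < 2 * (‖Pp‖ + ‖Pm‖ + 1) := by positivity
  have hτ0 : 0 < τ := by positivity
  have hrd : ∀ (n : ℕ) (A A' : ℕ → E →L[ℂ] E), DifferentiableOn ℂ (fun z =>
      ∑ i ∈ Finset.range n, z ^ i • A i + ∑ i ∈ Finset.range n, z⁻¹ ^ i • A' i)
      (annu q1 q2 : Set ℂ) := by
    intro n A A'
    refine DifferentiableOn.add ?_ ?_
    · refine DifferentiableOn.fun_sum fun i _ => ?_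
      exact ((differentiable_id.pow i).smul_const (A i)).differentiableOn
    · refine DifferentiableOn.fun_sum fun i _ => ?_
      intro z hz
      exact (((differentiableAt_inv (hz0 z hz)).pow i).smul_const (A' i)).differentiableWithinAt
  obtain ⟨n, A, A', hA⟩ := laurent_approx hg.h1 hg.h2 hg.h3 hg.h4 hg.hol hτ0
  obtain ⟨n', B, B', hB⟩ := laurent_approx hg.h1 hg.h2 hg.h3 hg.h4 hgi hτ0
  set r : ℂ → E →L[ℂ] E := fun z =>
    ∑ i ∈ Finset.range n, z ^ i • A i + ∑ i ∈ Finset.range n, z⁻¹ ^ i • A' i with hr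
  set r' : ℂ → E →L[ℂ] E := fun z =>
    ∑ i ∈ Finset.range n', z ^ i • B i + ∑ i ∈ Finset.range n', z⁻¹ ^ i • B' i with hr'
  have hbound : ∀ (G G' : ℂ → E →L[ℂ] E), (∀ z, r1 ≤ ‖z‖ → ‖z‖ ≤ r2 → ‖G z‖ ≤ C) →
      (∀ z, r1 ≤ ‖z‖ → ‖z‖ ≤ r2 → ‖G z - G' z‖ ≤ τ) →
      ∀ z, r1 ≤ ‖z‖ → ‖z‖ ≤ r2 → ‖G' z‖ ≤ C + τ := by
    intro G G' h1 h2 z h3 h4
    calc ‖G' z‖ = ‖G z - (G z - G' z)‖ := by rw [sub_sub_cancel]
      _ ≤ ‖G z‖ + ‖G z - G' z‖ := norm_sub_le _ _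
      _ ≤ C + τ := add_le_add (h1 z h3 h4) (h2 z h3 h4)
  -- operators: first component `Pp (g⁻¹ vi(1/·))`
  obtain ⟨MD', hMD', hMDv'⟩ := exists_mulInv hg.h1 hg.h2 hg.h3 hg.h4
    (A := fun z => Ring.inverse (g z) - r' z) (hgi.sub (hrd n' B B')) hτ0.le
    (fun z h1 h2 => hB z h1 h2)
  obtain ⟨MR', hMR', hMRv'⟩ := exists_mulInv hg.h1 hg.h2 hg.h3 hg.h4 (hrd n' B B') (C := C + τ)
    (by positivity) (hbound (fun z => Ring.inverse (g z)) r' (fun z h1 h2 => (hgb z h1 h2).2)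
      (fun z h1 h2 => hB z h1 h2))
  -- second component `Pm (g v0)` and the constant
  obtain ⟨MD, hMD, hMDv⟩ := exists_mulZ hg.h1 hg.h2 hg.h3 hg.h4
    (A := fun z => g z - r z) (hg.hol.sub (hrd n A A')) hτ0.le (fun z h1 h2 => hA z h1 h2)
  obtain ⟨MR, hMR, hMRv⟩ := exists_mulZ hg.h1 hg.h2 hg.h3 hg.h4 (hrd n A A') (C := C + τ)
    (by positivity) (hbound g r (fun z h1 h2 => (hgb z h1 h2).1) (fun z h1 h2 => hA z h1 h2))
  obtain ⟨cc', hcc'⟩ := plus_part hr1 hg.h3 hP n' B B' hMRv'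
  obtain ⟨cc, hcc⟩ := minus_part hr1 hg.h3 hP n A A' hMRv
  let ev0 : HB (annu r1 r2) E →L[ℂ] E := (evL (0 : ℂ)).comp Pp
  let W : HB (annu r1 r2) E →L[ℂ] HB (disc r1⁻¹) E := Pm + Kc.comp ev0
  let p1 : HB (disc r2) E × HB (disc r1⁻¹) E →L[ℂ] HB (disc r2) E :=
    ContinuousLinearMap.fst ℂ _ _
  let p2 : HB (disc r2) E × HB (disc r1⁻¹) E →L[ℂ] HB (disc r1⁻¹) E :=
    ContinuousLinearMap.snd ℂ _ _
  let K1 : HB (disc r2) E × HB (disc r1⁻¹) E →L[ℂ] HB (disc r2) E × HB (disc r1⁻¹) E :=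
    (Pp.comp (MD'.comp p2)).prod (W.comp (MD.comp p1))
  let K2a : HB (disc r2) E × HB (disc r1⁻¹) E →L[ℂ] HB (disc r2) E := Pp.comp (MR'.comp p2)
  let K2b : HB (disc r2) E × HB (disc r1⁻¹) E →L[ℂ] HB (disc r1⁻¹) E := W.comp (MR.comp p1)
  have hWn : ‖W‖ ≤ ‖Pm‖ + ‖Pp‖ := by
    refine (norm_add_le Pm (Kc.comp ev0)).trans (add_le_add le_rfl ?_)
    refine (ContinuousLinearMap.opNorm_comp_le _ _).trans ?_
    have h1 : ‖ev0‖ ≤ 1 * ‖Pp‖ := (ContinuousLinearMap.opNorm_comp_le _ _).trans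
      (mul_le_mul_of_nonneg_right (norm_evL_le _) (norm_nonneg _))
    calc ‖Kc‖ * ‖ev0‖ ≤ 1 * (1 * ‖Pp‖) := mul_le_mul hKc h1 (ContinuousLinearMap.opNorm_nonneg ev0) zero_le_one
      _ = ‖Pp‖ := by ring
  refine finite_of_small (K1 := K1) (K2 := K2a.prod K2b) ?_ ?_ ?_
  · -- the norm
    refine ContinuousLinearMap.opNorm_le_bound _ (by norm_num) fun v => ?_
    have hv1 : ‖v.1‖ ≤ ‖v‖ := norm_fst_le v
    have hv2 : ‖v.2‖ ≤ ‖v‖ := norm_snd_le v
    have e1 : ‖Pp (MD' v.2)‖ ≤ ‖Pp‖ * (τ * ‖v‖) := by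
      refine (Pp.le_opNorm _).trans (mul_le_mul_of_nonneg_left ?_ (norm_nonneg _))
      exact (MD'.le_opNorm _).trans (mul_le_mul hMD' hv2 (norm_nonneg _) hτ0.le)
    have e2 : ‖W (MD v.1)‖ ≤ (‖Pm‖ + ‖Pp‖) * (τ * ‖v‖) := by
      refine (W.le_opNorm _).trans (mul_le_mul hWn ?_ (norm_nonneg _) (by positivity))
      exact (MD.le_opNorm _).trans (mul_le_mul hMD hv1 (norm_nonneg _) hτ0.le)
    have e3 : (‖Pm‖ + ‖Pp‖) * (τ * ‖v‖) ≤ 1 / 2 * ‖v‖ := by
      rw [← mul_assoc]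
      refine mul_le_mul_of_nonneg_right ?_ (norm_nonneg _)
      rw [hτ, mul_one_div, div_le_iff₀ hden]
      linarith [norm_nonneg Pp, norm_nonneg Pm]
    have e4 : ‖Pp‖ * (τ * ‖v‖) ≤ (‖Pm‖ + ‖Pp‖) * (τ * ‖v‖) :=
      mul_le_mul_of_nonneg_right (by linarith [norm_nonneg Pm]) (by positivity)
    show ‖(Pp (MD' v.2), W (MD v.1))‖ ≤ 1 / 2 * ‖v‖
    rw [Prod.norm_mk]
    exact max_le (e1.trans (e4.trans e3)) (e2.trans e3)
  · -- finite rank
    have ha : FiniteDimensional ℂ (LinearMap.range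
        (K2a : HB (disc r2) E × HB (disc r1⁻¹) E →ₗ[ℂ] HB (disc r2) E)) := by
      refine finite_rank_poly (n' + 1) (fun i z => z ^ i) (fun i => (cc' i).comp p2) ?_
      intro v z hz
      exact hcc' v.2 z hz
    have hb : FiniteDimensional ℂ (LinearMap.range
        (K2b : HB (disc r2) E × HB (disc r1⁻¹) E →ₗ[ℂ] HB (disc r1⁻¹) E)) := by
      refine finite_rank_poly (n + 2) (fun i z => if i < n + 1 then z ^ i else 1)
        (fun i => if i < n + 1 then (cc i).comp p1 else ev0.comp (MR.comp p1)) ?_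
      intro v z hz
      have e1 : (K2b v).fn z = (Pm (MR v.1)).fn z + (Kc (ev0 (MR v.1))).fn z := by
        show (Pm (MR v.1) + Kc (ev0 (MR v.1))).fn z = _
        rw [HB.fn_add]
      rw [e1, hcc _ z hz, hKcv _ z hz, Finset.sum_range_succ _ (n + 1)]
      have e2 : ∑ i ∈ Finset.range (n + 1), (if i < n + 1 then z ^ i else 1) •
          (if i < n + 1 then (cc i).comp p1 else ev0.comp (MR.comp p1)) v =
          ∑ i ∈ Finset.range (n + 1), z ^ i • cc i v.1 := by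
        refine Finset.sum_congr rfl fun i hi => ?_
        have hi' : i < n + 1 := Finset.mem_range.1 hi
        rw [if_pos hi', if_pos hi']
        rfl
      rw [e2]
      congr 1
      rw [if_neg (lt_irrefl _), if_neg (lt_irrefl _), one_smul]
      rfl
    have hle : LinearMap.range ((K2a.prod K2b : HB (disc r2) E × HB (disc r1⁻¹) E →L[ℂ]
        HB (disc r2) E × HB (disc r1⁻¹) E) : HB (disc r2) E × HB (disc r1⁻¹) E →ₗ[ℂ]
        HB (disc r2) E × HB (disc r1⁻¹) E) ≤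
        (LinearMap.range (K2a : HB (disc r2) E × HB (disc r1⁻¹) E →ₗ[ℂ] HB (disc r2) E)).map
          (LinearMap.inl ℂ _ _) ⊔
        (LinearMap.range (K2b : HB (disc r2) E × HB (disc r1⁻¹) E →ₗ[ℂ] HB (disc r1⁻¹) E)).map
          (LinearMap.inr ℂ _ _) := by
      rintro _ ⟨v, rfl⟩
      have h1 : (K2a v, K2b v) = LinearMap.inl ℂ (HB (disc r2) E) (HB (disc r1⁻¹) E) (K2a v) +
          LinearMap.inr ℂ (HB (disc r2) E) (HB (disc r1⁻¹) E) (K2b v) := by simp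
      show (K2a v, K2b v) ∈ _
      rw [h1]
      exact Submodule.add_mem_sup (Submodule.mem_map_of_mem ⟨v, rfl⟩)
        (Submodule.mem_map_of_mem ⟨v, rfl⟩)
    exact Submodule.finiteDimensional_of_le hle
  · -- the fixed point equation
    intro v hv
    have hTv : T v = 0 := hv
    have e0 : ∀ z ∈ annu r1 r2, v.2.fn z⁻¹ = g z (v.1.fn z) := by
      intro z hz
      have e1 := hT v z hz
      rw [hTv, HB.fn_zero] at e1
      exact (sub_eq_zero.1 e1.symm)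
    have e0' : ∀ z ∈ annu r1 r2, v.1.fn z = Ring.inverse (g z) (v.2.fn z⁻¹) := by
      intro z hz
      have hzu : IsUnit (g z) := hg.unit z (hsub z hz)
      rw [e0 z hz]
      exact (congrArg (fun B : E →L[ℂ] E => B (v.1.fn z)) (Ring.inverse_mul_cancel (g z) hzu)).symm
    -- first component
    have e1 : Pp (MD' v.2 + MR' v.2) = v.1 ∧ Pm (MD' v.2 + MR' v.2) = 0 := by
      refine huniq _ _ _ (HB.fn_zero _) fun z hz => ?_
      rw [HB.fn_add, hMDv' _ z hz, hMRv' _ z hz, HB.fn_zero, add_zero, e0' z hz]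
      show (Ring.inverse (g z) - r' z) (v.2.fn z⁻¹) + r' z (v.2.fn z⁻¹) = _
      rw [sub_apply, sub_add_cancel]
    -- second component
    have e2 : Pp (MD v.1 + MR v.1) = Kd (v.2.fn 0) ∧
        Pm (MD v.1 + MR v.1) = v.2 - Kc (v.2.fn 0) := by
      refine huniq _ _ _ ?_ fun z hz => ?_
      · rw [HB.fn_sub, hKcv _ _ h00, sub_self]
      · rw [HB.fn_add, hMDv _ z hz, hMRv _ z hz, HB.fn_sub, hKcv _ _ (hinv z hz),
          hKdv _ _ (hd2 z hz)]
        have e3 : (g z - r z) (v.1.fn z) + r z (v.1.fn z) = v.2.fn z⁻¹ := by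
          rw [sub_apply, sub_add_cancel, e0 z hz]
        refine Eq.trans e3 ?_
        abel
    have f1 : Pp (MD' v.2) + Pp (MR' v.2) = v.1 := by rw [← map_add, e1.1]
    have f2 : W (MD v.1) + W (MR v.1) = v.2 := by
      rw [← map_add]
      show Pm (MD v.1 + MR v.1) + Kc ((Pp (MD v.1 + MR v.1)).fn 0) = v.2
      rw [e2.1, e2.2, hKdv _ _ h02]
      abel
    exact Prod.ext f1 f2

end Pool.Agent.W_4d259d_h53
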