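import Pool.Agent.W_4d259d_h53.Par
import Pool.Agent.W_4d259d_h53.KerF
import Pool.Agent.W_4d259d_h53.Abs

/-!
# Block TD (V-TD 14): the Fredholm lemma for `T_g`
-/

noncomputable section

namespace Pool.Agent.W_4d259d_h53

open Set Filter Topology Metric TopologicalSpace Module
open Pool.Agent.W_4d259d_h46.Defs Pool.Agent.W_4d259d_h46 Pool.Agent.W_4d259d_h44

variable {E : Type*} [NormedAddCommGroup E] [NormedSpace ℂ E] [FiniteDimensional ℂ E]
variable {q1 r1 r2 q2 : ℝ} {g : ℂ → E →L[ℂ] E}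

/-- `parametrix` + `neumann`.  `R` has values with second component vanishing to order two at `0`,
and the values of `P` extend holomorphically to the larger annulus. -/
theorem fredholm_right (hg : GData q1 r1 r2 q2 g)
    {T : HB (disc r2) E × HB (disc r1⁻¹) E →L[ℂ] HB (annu r1 r2) E} (hT : IsTg g T) :
    ∃ (R : HB (annu r1 r2) E →L[ℂ] HB (disc r2) E × HB (disc r1⁻¹) E)
      (P : HB (annu r1 r2) E →L[ℂ] HB (annu r1 r2) E),
      (∀ y, T (R y) + P y = y) ∧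
      FiniteDimensional ℂ (LinearMap.range (P : HB (annu r1 r2) E →ₗ[ℂ] HB (annu r1 r2) E)) ∧
      (∀ y, ∃ x : HB (disc r1⁻¹) E, ∀ η ∈ disc r1⁻¹, (R y).2.fn η = η ^ 2 • x.fn η) ∧
      ∀ y, ∃ Y : ℂ → E, DifferentiableOn ℂ Y (annu q1 q2 : Set ℂ) ∧
        ∀ z ∈ annu r1 r2, (P y).fn z = Y z := by
  have : CompleteSpace E := FiniteDimensional.complete ℂ E
  obtain ⟨Q, K1, K2, hK1, hK2, hTQ, hQ2, hK2Y⟩ := parametrix hg hT
  obtain ⟨R, P, h1, hR, hP⟩ := neumann hTQ hK1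
  refine ⟨R, P, h1, ?_, ?_, ?_⟩
  · have hle : LinearMap.range (P : HB (annu r1 r2) E →ₗ[ℂ] HB (annu r1 r2) E) ≤
        LinearMap.range (K2 : HB (annu r1 r2) E →ₗ[ℂ] HB (annu r1 r2) E) := by
      rintro _ ⟨y, rfl⟩
      obtain ⟨y', hy'⟩ := hP y
      exact ⟨y', hy'.symm⟩
    exact Submodule.finiteDimensional_of_le hle
  · intro y
    obtain ⟨y', hy'⟩ := hR y
    rw [hy']
    exact hQ2 y'
  · intro y
    obtain ⟨y', hy'⟩ := hP y
    rw [hy']
    exact hK2Y y'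

theorem fred_Tg (hg : GData q1 r1 r2 q2 g)
    {T : HB (disc r2) E × HB (disc r1⁻¹) E →L[ℂ] HB (annu r1 r2) E} (hT : IsTg g T) :
    Fred T := by
  obtain ⟨R, P, h1, h2, -⟩ := fredholm_right hg hT
  exact ⟨ker_fin hg hT, R, P, h1, h2⟩

end Pool.Agent.W_4d259d_h53
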