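import Pool.Agent.W_4d259d_h53.Tay

/-!
# Block TD (V-TD 18): restrictions to a smaller disc form a separable set
-/

noncomputable section

set_option linter.unusedSectionVars false

namespace Pool.Agent.W_4d259d_h53

open Set Filter Topology Metric TopologicalSpace
open Pool.Agent.W_4d259d_h46.Defs Pool.Agent.W_4d259d_h46 Pool.Agent.W_4d259d_h44

variable {E : Type*} [NormedAddCommGroup E] [NormedSpace ℂ E] [FiniteDimensional ℂ E]

theorem tdc_hol {n : ℕ} (c : Fin n → E) (r : ℝ) :
    HolOn E (fun z : ℂ => ∑ i : Fin n, z ^ (i : ℕ) • c i) (disc r) := by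
  rw [holOn_iff]
  refine DifferentiableOn.fun_sum fun i _ => ?_
  exact (differentiable_id.pow _).differentiableOn.smul_const _

theorem tdc_bound {n : ℕ} (c : Fin n → E) (r : ℝ) :
    ∀ z ∈ disc r, ‖∑ i : Fin n, z ^ (i : ℕ) • c i‖ ≤ ∑ i : Fin n, r ^ (i : ℕ) * ‖c i‖ := by
  intro z hz
  have hz' : ‖z‖ < r := by simpa [disc] using hz
  refine (norm_sum_le _ _).trans (Finset.sum_le_sum fun i _ => ?_)
  rw [norm_smul, norm_pow]
  gcongr

/-- Polynomials of degree `< n` with coefficients in `E`. -/
def tdcPoly (E : Type*) [NormedAddCommGroup E] [NormedSpace ℂ E] [FiniteDimensional ℂ E]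
    (r : ℝ) (n : ℕ) : (Fin n → E) →ₗ[ℂ] HB (disc r) E where
  toFun c := HB.mk (fun z : ℂ => ∑ i : Fin n, z ^ (i : ℕ) • c i) (tdc_hol c r) _ (tdc_bound c r)
  map_add' c c' := by
    apply HB.ext'
    intro z hz
    rw [HB.mk_fn _ _ _ _ hz, HB.fn_add, HB.mk_fn _ _ _ _ hz, HB.mk_fn _ _ _ _ hz,
      ← Finset.sum_add_distrib]
    exact Finset.sum_congr rfl fun i _ => by rw [Pi.add_apply, smul_add]
  map_smul' a c := by
    apply HB.ext'
    intro z hz
    rw [HB.mk_fn _ _ _ _ hz, RingHom.id_apply, HB.fn_smul, HB.mk_fn _ _ _ _ hz,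
      Finset.smul_sum]
    exact Finset.sum_congr rfl fun i _ => by rw [Pi.smul_apply, smul_comm]

/-- The elements of `HB (disc r) E` which extend holomorphically to a larger disc form a separable
set: by `poly_approx` they lie in the closure of the set of polynomials with coefficients in `E`,
and that set is separable (a countable union over the degree of continuous images of `E^n`). -/
theorem separable_ext {r t : ℝ} (hr : 0 < r) (hrt : r < t) :
    IsSeparable {w : HB (disc r) E | ∃ W : ℂ → E, DifferentiableOn ℂ W (ball 0 t) ∧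
      ∀ z ∈ disc r, w.fn z = W z} := by
  classical
  have : CompleteSpace E := FiniteDimensional.complete ℂ E
  have hsep : IsSeparable (⋃ n : ℕ, range (tdcPoly E r n)) := by
    refine IsSeparable.iUnion fun n => ?_
    have hsepE : SecondCountableTopology (Fin n → E) := by
      have : FiniteDimensional ℝ E := FiniteDimensional.complexToReal E
      have := FiniteDimensional.proper ℝ E
      infer_instance
    exact isSeparable_range (LinearMap.continuous_of_finiteDimensional (tdcPoly E r n))
  refine hsep.closure.mono ?_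
  rintro w ⟨W, hW, hw⟩
  rw [Metric.mem_closure_iff]
  intro ε hε
  obtain ⟨n, c, hc⟩ := poly_approx hr hrt hW (half_pos hε)
  refine ⟨tdcPoly E r n fun i => c i, mem_iUnion.2 ⟨n, mem_range_self _⟩, ?_⟩
  rw [dist_eq_norm]
  refine lt_of_le_of_lt (HB.norm_le_of (half_pos hε).le fun z hz => ?_) (half_lt_self hε)
  have hz' : z ∈ closedBall (0 : ℂ) r := ball_subset_closedBall hz
  rw [HB.fn_sub]
  have h2 : (tdcPoly E r n fun i => c i).fn z = ∑ i : Fin n, z ^ (i : ℕ) • c i :=
    HB.mk_fn _ _ _ _ hz
  rw [h2, hw z hz, Fin.sum_univ_eq_sum_range (fun i => z ^ i • c i)]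
  exact hc z hz'

end Pool.Agent.W_4d259d_h53
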