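import Pool.Agent.W_4d259d_h53.FDef

/-!
# Block TD (V-TD 20): the sections `S0`, `Si` from a kernel which is onto
-/

noncomputable section

set_option linter.unusedSectionVars false

namespace Pool.Agent.W_4d259d_h53

open Set Filter Topology Metric TopologicalSpace
open Pool.Agent.W_4d259d_h46.Defs Pool.Agent.W_4d259d_h46 Pool.Agent.W_4d259d_h44

variable {E : Type*} [NormedAddCommGroup E] [NormedSpace ℂ E] [FiniteDimensional ℂ E]
variable {r1 r2 : ℝ} {g : ℂ → E →L[ℂ] E}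

/-- The evaluation `(v0, vi) ↦ (v0 0, vi 0)`. -/
def lam (E : Type*) [NormedAddCommGroup E] [NormedSpace ℂ E] (r1 r2 : ℝ) :
    HB (disc r2) E × HB (disc r1⁻¹) E →L[ℂ] E × E :=
  ((evL 0).comp (ContinuousLinearMap.fst ℂ _ _)).prod ((evL 0).comp (ContinuousLinearMap.snd ℂ _ _))

theorem lam_apply (v : HB (disc r2) E × HB (disc r1⁻¹) E) :
    lam E r1 r2 v = (v.1.fn 0, v.2.fn 0) := rfl

private theorem TdE_diff {r : ℝ} (x : HB (disc r) E) (c : E →L[ℂ] ℂ) :
    DifferentiableOn ℂ (fun z => c.smulRight (x.fn z)) (ball 0 r) := by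
  have h1 : DifferentiableOn ℂ x.fn (ball 0 r) := holOn_iff.1 x.fn_hol
  have h2 := (ContinuousLinearMap.smulRightL ℂ E E c).differentiable.comp_differentiableOn h1
  exact h2

/-- If `lam` is onto on the kernel of `T_g`, choose for the vectors `b_i` of a basis elements
`v^i` of the kernel with `v^i_0(0) = b_i`, `v^i_i(0) = 0` and put
`S0 z = ∑ (coord i ·) v^i_0(z)`, `Si η = ∑ (coord i ·) v^i_i(η)`. -/
theorem exists_S {T : HB (disc r2) E × HB (disc r1⁻¹) E →L[ℂ] HB (annu r1 r2) E} (hT : IsTg g T)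
    (h : (LinearMap.ker (T : HB (disc r2) E × HB (disc r1⁻¹) E →ₗ[ℂ] HB (annu r1 r2) E)).map
      (lam E r1 r2 : HB (disc r2) E × HB (disc r1⁻¹) E →ₗ[ℂ] E × E) = ⊤) :
    ∃ S0 Si : ℂ → E →L[ℂ] E, DifferentiableOn ℂ S0 (ball 0 r2) ∧
      DifferentiableOn ℂ Si (ball 0 r1⁻¹) ∧
      (∀ z ∈ annu r1 r2, g z * S0 z = Si z⁻¹) ∧ S0 0 = 1 ∧ Si 0 = 0 := by
  obtain ⟨n, b⟩ : ∃ n : ℕ, Nonempty (Module.Basis (Fin n) ℂ E) :=
    ⟨_, ⟨Module.finBasis ℂ E⟩⟩
  obtain ⟨b⟩ := b
  have hv : ∀ i : Fin n, ∃ v : HB (disc r2) E × HB (disc r1⁻¹) E,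
      T v = 0 ∧ lam E r1 r2 v = (b i, 0) := by
    intro i
    have h1 : ((b i, 0) : E × E) ∈ (LinearMap.ker (T : HB (disc r2) E × HB (disc r1⁻¹) E →ₗ[ℂ]
        HB (annu r1 r2) E)).map
        (lam E r1 r2 : HB (disc r2) E × HB (disc r1⁻¹) E →ₗ[ℂ] E × E) := by
      rw [h]
      exact Submodule.mem_top
    obtain ⟨v, hv1, hv2⟩ := h1
    exact ⟨v, hv1, hv2⟩
  choose v hv1 hv2 using hv
  let c : Fin n → E →L[ℂ] ℂ := fun i => LinearMap.toContinuousLinearMap (b.coord i)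
  have hc : ∀ i x, c i x = b.repr x i := fun i x => rfl
  have h0 : ∀ i, (v i).1.fn 0 = b i := fun i => by
    have h1 := hv2 i
    rw [lam_apply] at h1
    exact (Prod.ext_iff.1 h1).1
  have hi : ∀ i, (v i).2.fn 0 = 0 := fun i => by
    have h1 := hv2 i
    rw [lam_apply] at h1
    exact (Prod.ext_iff.1 h1).2
  refine ⟨fun z => ∑ i, (c i).smulRight ((v i).1.fn z), fun z => ∑ i, (c i).smulRight ((v i).2.fn z),
    ?_, ?_, ?_, ?_, ?_⟩
  · exact DifferentiableOn.fun_sum fun i _ => TdE_diff _ _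
  · exact DifferentiableOn.fun_sum fun i _ => TdE_diff _ _
  · intro z hz
    ext x
    rw [ContinuousLinearMap.mul_apply, ContinuousLinearMap.sum_apply,
      ContinuousLinearMap.sum_apply, map_sum]
    refine Finset.sum_congr rfl fun i _ => ?_
    rw [ContinuousLinearMap.smulRight_apply, ContinuousLinearMap.smulRight_apply, map_smul]
    congr 1
    have h1 := hT (v i) z hz
    rw [hv1 i, HB.fn_zero] at h1
    exact (sub_eq_zero.1 h1.symm).symm
  · ext x
    show (∑ i, (c i).smulRight ((v i).1.fn 0)) x = x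
    rw [ContinuousLinearMap.sum_apply]
    have h1 : ∀ i, ((c i).smulRight ((v i).1.fn 0)) x = b.repr x i • b i := by
      intro i
      rw [ContinuousLinearMap.smulRight_apply, h0, hc]
    rw [Finset.sum_congr rfl fun i _ => h1 i]
    exact b.sum_repr x
  · ext x
    show (∑ i, (c i).smulRight ((v i).2.fn 0)) x = 0
    rw [ContinuousLinearMap.sum_apply]
    refine Finset.sum_eq_zero fun i _ => ?_
    rw [ContinuousLinearMap.smulRight_apply, hi, smul_zero]

end Pool.Agent.W_4d259d_h53
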