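import Pool.Agent.W_4d259d_h53.TdA
import Pool.Agent.W_4d259d_h53.TdC
import Pool.Agent.W_4d259d_h53.TdE
import Pool.Agent.W_4d259d_h53.FredL

/-!
# Block TD (V-TD 21): in one two disc model: a free point or a null image
-/

noncomputable section

set_option linter.unusedSectionVars false

namespace Pool.Agent.W_4d259d_h53

open Set Filter Topology Manifold Metric MeasureTheory TopologicalSpace
open scoped ContDiff
open Pool.Agent.W_4d259d_h46.Defs Pool.Agent.W_4d259d_h46 Pool.Agent.W_4d259d_h44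

variable {E : Type} [NormedAddCommGroup E] [NormedSpace ℂ E] [FiniteDimensional ℂ E]
variable {X : Type} [MetricSpace X] [ChartedSpace E X]
  [IsManifold (modelWithCornersSelf ℂ E) ω X]
variable {u0 ui : ℂ → X} {r1 r2 : ℝ}

/-- Coordinates over larger discs: holomorphic, smaller than `ε`, matching on the annulus. -/
structure IsCoord (D : TwoDisc E u0 ui r1 r2) (t1 t2 ε : ℝ) (W0 Wi : ℂ → E) : Prop where
  hol0 : DifferentiableOn ℂ W0 (ball 0 t2)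
  holi : DifferentiableOn ℂ Wi (ball 0 t1⁻¹)
  b0 : ∀ z ∈ ball (0 : ℂ) t2, ‖W0 z‖ < ε
  bi : ∀ η ∈ ball (0 : ℂ) t1⁻¹, ‖Wi η‖ < ε
  eq : ∀ z ∈ annu t1 t2, Wi z⁻¹ = D.θ z (W0 z)

/-- Either some coordinate pair `(W0, Wi)` carries sections `S0`, `Si` as in section 14 for
`g z = ∂_w θ(z, W0 z)`, or the set of all `(W0 0, Wi 0)` is null in `E × E`.
Proof: `exists_Theta`; `Z` = the set of pairs `w` in `HB × HB` given by the restrictions of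
coordinate pairs (`HB.mk`); `Z ⊆ ball 0 (D.d/2)` as `ε ≤ D.d / 4`; `Θ = 0` on `Z`; separable by
`separable_ext` (twice; a subset of a product of separable sets); `fderiv Θ w` is `T_g` with
`GData t1 r1 r2 t2 g` by `gw_hol` and the hypothesis `hunit`, so it is `Fred` by `fred_Tg`.  If at
no `w ∈ Z` the map `lam` is onto on the kernel then `abs_sard` gives the null image (note that
`g` given by a coordinate pair equals `fderiv ℂ (D.θ z) (w.1.fn z)` on `annu r1 r2`); otherwise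
`exists_S`. -/
theorem free_or_null [MeasurableSpace (E × E)] [BorelSpace (E × E)]
    (μ : Measure (E × E)) [μ.IsAddHaarMeasure] (h0 : 0 < r1) (D : TwoDisc E u0 ui r1 r2)
    {t1 t2 ε : ℝ} (ht1 : D.q1 < t1) (ht1' : t1 < r1) (ht2 : r2 < t2) (ht2' : t2 < D.q2)
    (hε : 0 < ε) (hεd : ε ≤ D.d / 4)
    (hunit : ∀ z : ℂ, t1 ≤ ‖z‖ → ‖z‖ ≤ t2 → ∀ w : E, ‖w‖ < ε → IsUnit (fderiv ℂ (D.θ z) w)) :
    (∃ (W0 Wi : ℂ → E), IsCoord D t1 t2 ε W0 Wi ∧ ∃ S0 Si : ℂ → E →L[ℂ] E,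
      DifferentiableOn ℂ S0 (ball 0 r2) ∧ DifferentiableOn ℂ Si (ball 0 r1⁻¹) ∧
      (∀ z ∈ annu r1 r2, fderiv ℂ (D.θ z) (W0 z) * S0 z = Si z⁻¹) ∧ S0 0 = 1 ∧ Si 0 = 0) ∨
    μ {p : E × E | ∃ (W0 Wi : ℂ → E), IsCoord D t1 t2 ε W0 Wi ∧ p = (W0 0, Wi 0)} = 0 := by
  have : CompleteSpace E := FiniteDimensional.complete ℂ E
  obtain ⟨Θ, hΘd, hΘ, hΘ'⟩ := exists_Theta D
  have hd := D.hd
  have h0t1 : 0 < t1 := D.hq1.trans ht1
  have h12 : r1 < r2 := D.hr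
  have h0r2 : 0 < r2 := h0.trans h12
  have h0i : 0 < r1⁻¹ := inv_pos.2 h0
  have hit : r1⁻¹ < t1⁻¹ := (inv_lt_inv₀ h0 h0t1).2 ht1'
  have hann : (annu r1 r2 : Set ℂ) ⊆ (annu t1 t2 : Set ℂ) := by
    rintro z ⟨hz1, hz2⟩
    exact ⟨ht1'.trans hz1, hz2.trans ht2⟩
  set Z : Set (HB (disc r2) E × HB (disc r1⁻¹) E) := {w | ∃ W0 Wi : ℂ → E,
    IsCoord D t1 t2 ε W0 Wi ∧ (∀ z ∈ disc r2, w.1.fn z = W0 z) ∧
    ∀ η ∈ disc r1⁻¹, w.2.fn η = Wi η} with hZ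
  have hmem2 : ∀ z ∈ disc r2, z ∈ ball (0 : ℂ) t2 := by
    intro z hz
    have hz' : z ∈ ball (0 : ℂ) r2 := hz
    rw [mem_ball_zero_iff] at hz' ⊢
    exact hz'.trans ht2
  have hmem1 : ∀ z ∈ disc r1⁻¹, z ∈ ball (0 : ℂ) t1⁻¹ := by
    intro z hz
    have hz' : z ∈ ball (0 : ℂ) r1⁻¹ := hz
    rw [mem_ball_zero_iff] at hz' ⊢
    exact hz'.trans hit
  have hZΩ : Z ⊆ ball (0 : HB (disc r2) E × HB (disc r1⁻¹) E) (D.d / 2) := by
    rintro w ⟨W0, Wi, hc, h1, h2⟩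
    rw [mem_ball_zero_iff]
    have e1 : ‖w.1‖ ≤ ε := HB.norm_le_of hε.le fun z hz => by
      rw [h1 z hz]
      exact (hc.b0 z (hmem2 z hz)).le
    have e2 : ‖w.2‖ ≤ ε := HB.norm_le_of hε.le fun z hz => by
      rw [h2 z hz]
      exact (hc.bi z (hmem1 z hz)).le
    have e3 : ‖w‖ ≤ ε := max_le e1 e2
    linarith
  have hfst : ∀ z ∈ annu r1 r2, z ∈ disc r2 := by
    intro z hz
    change z ∈ ball (0 : ℂ) r2
    rw [mem_ball_zero_iff]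
    exact hz.2
  have hsnd : ∀ z ∈ annu r1 r2, z⁻¹ ∈ disc r1⁻¹ := by
    intro z hz
    change z⁻¹ ∈ ball (0 : ℂ) r1⁻¹
    rw [mem_ball_zero_iff, norm_inv]
    exact (inv_lt_inv₀ (h0.trans hz.1) h0).2 hz.1
  have hZ0 : ∀ w ∈ Z, Θ w = 0 := by
    rintro w ⟨W0, Wi, hc, h1, h2⟩
    apply HB.ext'
    intro z hz
    rw [hΘ w (hZΩ ⟨W0, Wi, hc, h1, h2⟩) z hz, HB.fn_zero, h1 z (hfst z hz), h2 _ (hsnd z hz),
      hc.eq z (hann hz), sub_self]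
  have hsep : TopologicalSpace.IsSeparable Z := by
    refine ((separable_ext (E := E) h0r2 ht2).prod (separable_ext (E := E) h0i hit)).mono ?_
    rintro w ⟨W0, Wi, hc, h1, h2⟩
    exact ⟨⟨W0, hc.hol0, h1⟩, ⟨Wi, hc.holi, h2⟩⟩
  have hIs : ∀ w ∈ Z, ∃ W0 Wi : ℂ → E, IsCoord D t1 t2 ε W0 Wi ∧
      GData t1 r1 r2 t2 (fun z => fderiv ℂ (D.θ z) (W0 z)) ∧
      IsTg (fun z => fderiv ℂ (D.θ z) (W0 z)) (fderiv ℂ Θ w) := by
    rintro w ⟨W0, Wi, hc, h1, h2⟩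
    have hann2 : ∀ z ∈ annu t1 t2, z ∈ ball (0 : ℂ) t2 := by
      intro z hz
      rw [mem_ball_zero_iff]
      exact hz.2
    refine ⟨W0, Wi, hc, ⟨h0t1, ht1', h12, ht2, ?_, ?_⟩, ?_⟩
    · refine gw_hol D ht1 ht2' hc.hol0 fun z hz => (hc.b0 z hz).trans_le ?_
      linarith
    · intro z hz
      exact hunit z hz.1.le hz.2.le _ (hc.b0 z (hann2 z hz))
    · refine hΘ' w (hZΩ ⟨W0, Wi, hc, h1, h2⟩) _ fun z hz => ?_
      show fderiv ℂ (D.θ z) (W0 z) = fderiv ℂ (D.θ z) (w.1.fn z)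
      rw [h1 z (hfst z hz)]
  have hF : ∀ w ∈ Z, Fred (fderiv ℂ Θ w) := by
    intro w hw
    obtain ⟨W0, Wi, hc, hg, hT⟩ := hIs w hw
    exact fred_Tg hg hT
  by_cases hall : ∀ w ∈ Z, (KerD Θ w).map (lam E r1 r2 :
      HB (disc r2) E × HB (disc r1⁻¹) E →ₗ[ℂ] E × E) ≠ ⊤
  · right
    refine measure_mono_null ?_ (abs_sard μ isOpen_ball hΘd (lam E r1 r2) hZΩ hZ0 hsep hF)
    rintro p ⟨W0, Wi, hc, rfl⟩
    have hol0 : HolOn E W0 (disc r2 : Set ℂ) :=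
      holOn_iff.2 (hc.hol0.mono fun z hz => hmem2 z hz)
    have holi : HolOn E Wi (disc r1⁻¹ : Set ℂ) :=
      holOn_iff.2 (hc.holi.mono fun z hz => hmem1 z hz)
    set w1 : HB (disc r2) E := HB.mk W0 hol0 ε fun z hz => (hc.b0 z (hmem2 z hz)).le with hw1
    set w2 : HB (disc r1⁻¹) E := HB.mk Wi holi ε fun z hz => (hc.bi z (hmem1 z hz)).le with hw2
    have e1 : ∀ z ∈ disc r2, w1.fn z = W0 z := fun z hz => HB.mk_fn _ _ _ _ hz
    have e2 : ∀ z ∈ disc r1⁻¹, w2.fn z = Wi z := fun z hz => HB.mk_fn _ _ _ _ hz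
    have hwZ : (w1, w2) ∈ Z := ⟨W0, Wi, hc, e1, e2⟩
    refine ⟨(w1, w2), ⟨hwZ, hall _ hwZ⟩, ?_⟩
    rw [lam_apply, e1 0 (mem_ball_self h0r2), e2 0 (mem_ball_self h0i)]
  · left
    push Not at hall
    obtain ⟨w, hwZ, hw⟩ := hall
    obtain ⟨W0, Wi, hc, hg, hT⟩ := hIs w hwZ
    exact ⟨W0, Wi, hc, exists_S hT hw⟩

end Pool.Agent.W_4d259d_h53
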