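import Pool.Agent.W_4d259d_h44.TwoDisc

/-!
# Block TD (V-TD 22): countably many neighbourhoods cover the space of rational curves
-/

noncomputable section

set_option linter.unusedSectionVars false

namespace Pool.Agent.W_4d259d_h53

open Set Filter Topology Manifold Metric MeasureTheory TopologicalSpace
open scoped ContDiff
open Pool.Agent.W_4d259d_h46.Defs Pool.Agent.W_4d259d_h46 Pool.Agent.W_4d259d_h44

variable {E : Type} [NormedAddCommGroup E] [NormedSpace ℂ E]
variable {X : Type} [MetricSpace X] [ChartedSpace E X]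

/-- Given a positive number `κ u` for every rational curve, countably many uniform neighbourhoods
`{v | dist (v0 z) (u0 z) < κ u, dist (vi z) (ui z) < κ u for |z| ≤ 3}` cover all rational curves.
Proof: `C(ℂ, X) × C(ℂ, X)` with the compact-open topology is second countable
(`ContinuousMap.instSecondCountableTopology`, `ℂ` is locally compact second countable, `X` second
countable), so the subset of rational curves is Lindelof, and these neighbourhoods are open
(`ContinuousMap.isOpen_...`: uniform closeness on a compact set, e.g. through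
`ContinuousMap.tendsto_iff_forall_isCompact_tendstoUniformlyOn` or a metric on
`C(closedBall 0 3, X)` and the continuous restriction map). -/
theorem countable_cover [SecondCountableTopology X]
    (κ : (ℂ → X) → (ℂ → X) → ℝ) (hκ : ∀ u0 ui : ℂ → X, IsPair E u0 ui → 0 < κ u0 ui) :
    ∃ S : Set ((ℂ → X) × (ℂ → X)), S.Countable ∧ (∀ u ∈ S, IsPair E u.1 u.2) ∧
      ∀ v0 vi : ℂ → X, IsPair E v0 vi → ∃ u ∈ S,
        (∀ z ∈ closedBall (0 : ℂ) 3, dist (v0 z) (u.1 z) < κ u.1 u.2) ∧
        ∀ z ∈ closedBall (0 : ℂ) 3, dist (vi z) (u.2 z) < κ u.1 u.2 := by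
  have hcpt : CompactSpace (closedBall (0 : ℂ) 3) :=
    isCompact_iff_compactSpace.1 (isCompact_closedBall (0 : ℂ) 3)
  have hc : ∀ f : ℂ → X, HolOn E f univ → Continuous fun z : closedBall (0 : ℂ) 3 => f z := by
    intro f hf
    have h1 : Continuous f := continuousOn_univ.1 hf.continuousOn
    exact h1.comp continuous_subtype_val
  set ρ : {u : (ℂ → X) × (ℂ → X) // IsPair E u.1 u.2} →
      C(closedBall (0 : ℂ) 3, X) × C(closedBall (0 : ℂ) 3, X) :=
    fun u => (⟨fun z => u.1.1 z, hc _ u.2.hol0⟩, ⟨fun z => u.1.2 z, hc _ u.2.holi⟩) with hρ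
  obtain ⟨T, hT, hcov⟩ := isOpen_iUnion_countable
    (fun u : {u : (ℂ → X) × (ℂ → X) // IsPair E u.1 u.2} => ball (ρ u) (κ u.1.1 u.1.2))
    (fun u => isOpen_ball)
  refine ⟨Subtype.val '' T, hT.image _, ?_, ?_⟩
  · rintro _ ⟨u, _, rfl⟩
    exact u.2
  · intro v0 vi hv
    set v : {u : (ℂ → X) × (ℂ → X) // IsPair E u.1 u.2} := ⟨(v0, vi), hv⟩ with hvdef
    have h1 : ρ v ∈ ⋃ u, ball (ρ u) (κ u.1.1 u.1.2) :=
      mem_iUnion.2 ⟨v, mem_ball_self (hκ _ _ hv)⟩
    rw [← hcov, mem_iUnion₂] at h1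
    obtain ⟨u, huT, hu⟩ := h1
    rw [mem_ball] at hu
    refine ⟨u.1, ⟨u, huT, rfl⟩, fun z hz => ?_, fun z hz => ?_⟩
    · have h2 : dist (v0 z) (u.1.1 z) ≤ dist (ρ v).1 (ρ u).1 :=
        ContinuousMap.dist_apply_le_dist (f := (ρ v).1) (g := (ρ u).1) ⟨z, hz⟩
      exact (h2.trans (le_max_left _ _)).trans_lt hu
    · have h2 : dist (vi z) (u.1.2 z) ≤ dist (ρ v).2 (ρ u).2 :=
        ContinuousMap.dist_apply_le_dist (f := (ρ v).2) (g := (ρ u).2) ⟨z, hz⟩
      exact (h2.trans (le_max_right _ _)).trans_lt hu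

end Pool.Agent.W_4d259d_h53
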