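import Pool.Agent.W_4d259d_h53.TdF

/-!
# Block TD (V-TD 24): gluing coordinates over the larger discs
-/

noncomputable section

set_option linter.unusedSectionVars false

namespace Pool.Agent.W_4d259d_h53

open Set Filter Topology Manifold Metric MeasureTheory TopologicalSpace
open scoped ContDiff
open Pool.Agent.W_4d259d_h46.Defs Pool.Agent.W_4d259d_h46 Pool.Agent.W_4d259d_h44

variable {E : Type} [NormedAddCommGroup E] [NormedSpace ℂ E] [FiniteDimensional ℂ E]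
variable {X : Type} [MetricSpace X] [ChartedSpace E X]
  [IsManifold (modelWithCornersSelf ℂ E) ω X]
variable {u0 ui : ℂ → X} {r1 r2 : ℝ}

/-- A coordinate pair over the larger discs is the coordinate pair of a rational curve.
Proof: `v0 z = s0 z (W0 z)` if `‖z‖ < t2`, `= si z⁻¹ (Wi z⁻¹)` otherwise;
`vi η = si η (Wi η)` if `‖η‖ < t1⁻¹`, `= s0 η⁻¹ (W0 η⁻¹)` otherwise; on the annulus the two
expressions agree (`θeq`, `IsCoord.eq`), so both maps are holomorphic (`holOn_union`,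
`holOn_comp_spray`), and `vi t⁻¹ = v0 t`. -/
theorem glue_big (h0 : 0 < r1) (D : TwoDisc E u0 ui r1 r2) {t1 t2 ε : ℝ} (ht1 : D.q1 < t1)
    (ht1' : t1 < r1) (ht2 : r2 < t2) (ht2' : t2 < D.q2) (hε : ε ≤ D.d) {W0 Wi : ℂ → E}
    (hW : IsCoord D t1 t2 ε W0 Wi) :
    ∃ v0 vi : ℂ → X, IsPair E v0 vi ∧ (∀ z ∈ ball (0 : ℂ) t2, D.s0 z (W0 z) = v0 z) ∧
      ∀ η ∈ ball (0 : ℂ) t1⁻¹, D.si η (Wi η) = vi η := by
  classical
  have hq1 := D.hq1
  have ht1p : 0 < t1 := hq1.trans ht1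
  have hdδ := D.hdδ
  -- the two holomorphic pieces
  have hA : HolOn E (fun z => D.s0 z (W0 z)) (ball (0 : ℂ) t2) := by
    refine holOn_comp_spray (U := ball (0 : ℂ) t2) (V := ball (0 : E) D.δ) ?_
      (holOn_iff.2 hW.hol0) ?_
    · refine MDifferentiableOn.mono D.spray0.hol (prod_mono ?_ subset_rfl)
      exact ball_subset_ball ht2'.le
    · intro z hz
      rw [mem_ball_zero_iff]
      exact ((hW.b0 z hz).trans_le hε).trans_le hdδ
  have hB : HolOn E (fun η => D.si η (Wi η)) (ball (0 : ℂ) t1⁻¹) := by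
    refine holOn_comp_spray (U := ball (0 : ℂ) t1⁻¹) (V := ball (0 : E) D.δ) ?_
      (holOn_iff.2 hW.holi) ?_
    · refine MDifferentiableOn.mono D.sprayi.hol (prod_mono ?_ subset_rfl)
      exact ball_subset_ball ((inv_le_inv₀ ht1p hq1).2 ht1.le)
    · intro z hz
      rw [mem_ball_zero_iff]
      exact ((hW.bi z hz).trans_le hε).trans_le hdδ
  have hinv : ∀ z : ℂ, t1 < ‖z‖ → z⁻¹ ∈ ball (0 : ℂ) t1⁻¹ := by
    intro z hz
    rw [mem_ball_zero_iff, norm_inv]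
    exact (inv_lt_inv₀ (ht1p.trans hz) ht1p).2 hz
  have hagree : ∀ z : ℂ, t1 < ‖z‖ → ‖z‖ < t2 → D.si z⁻¹ (Wi z⁻¹) = D.s0 z (W0 z) := by
    intro z hz1 hz2
    rw [hW.eq z ⟨hz1, hz2⟩]
    refine D.θeq z ⟨ht1.trans hz1, hz2.trans ht2'⟩ _ ?_
    rw [mem_ball_zero_iff]
    exact (hW.b0 z (mem_ball_zero_iff.2 hz2)).trans_le hε
  set v0 : ℂ → X := fun z => if ‖z‖ < t2 then D.s0 z (W0 z) else D.si z⁻¹ (Wi z⁻¹) with hv0
  set vi : ℂ → X := fun η => if ‖η‖ < t1⁻¹ then D.si η (Wi η) else D.s0 η⁻¹ (W0 η⁻¹) with hvi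
  have e0 : ∀ z ∈ ball (0 : ℂ) t2, v0 z = D.s0 z (W0 z) := by
    intro z hz
    rw [mem_ball_zero_iff] at hz
    simp only [hv0, if_pos hz]
  have ei : ∀ z ∈ ball (0 : ℂ) t1⁻¹, vi z = D.si z (Wi z) := by
    intro z hz
    rw [mem_ball_zero_iff] at hz
    simp only [hvi, if_pos hz]
  have e0' : ∀ z : ℂ, t1 < ‖z‖ → v0 z = D.si z⁻¹ (Wi z⁻¹) := by
    intro z hz
    by_cases h : ‖z‖ < t2
    · rw [e0 z (mem_ball_zero_iff.2 h), hagree z hz h]
    · simp only [hv0, if_neg h]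
  have ei' : ∀ η : ℂ, t2⁻¹ < ‖η‖ → vi η = D.s0 η⁻¹ (W0 η⁻¹) := by
    intro η hη
    have ht2p : 0 < t2 := (h0.trans D.hr).trans ht2
    have hη0 : 0 < ‖η‖ := (inv_pos.2 ht2p).trans hη
    by_cases h : ‖η‖ < t1⁻¹
    · rw [ei η (mem_ball_zero_iff.2 h)]
      have h1 : t1 < ‖η⁻¹‖ := by
        rw [norm_inv]
        exact (lt_inv_comm₀ ht1p hη0).2 h
      have h2 : ‖η⁻¹‖ < t2 := by
        rw [norm_inv]
        exact (inv_lt_comm₀ hη0 ht2p).2 hη
      have := hagree η⁻¹ h1 h2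
      rwa [inv_inv] at this
    · simp only [hvi, if_neg h]
  have hinvd : ∀ c : ℝ, 0 < c → HolOn ℂ (fun z : ℂ => z⁻¹) {z : ℂ | c < ‖z‖} := by
    intro c hc
    rw [holOn_iff]
    intro z hz
    exact (differentiableAt_inv (norm_pos_iff.1 (hc.trans hz))).differentiableWithinAt
  have ho : ∀ c : ℝ, IsOpen {z : ℂ | c < ‖z‖} := fun c => isOpen_lt continuous_const continuous_norm
  have ht2p : 0 < t2 := (h0.trans D.hr).trans ht2
  refine ⟨v0, vi, ⟨?_, ?_, ?_⟩, fun z hz => (e0 z hz).symm, fun η hη => (ei η hη).symm⟩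
  · have h1 : HolOn E v0 (ball (0 : ℂ) t2) := MDifferentiableOn.congr hA e0
    have h2 : HolOn E v0 {z : ℂ | t1 < ‖z‖} := by
      refine MDifferentiableOn.congr (f := fun z => D.si z⁻¹ (Wi z⁻¹)) ?_ (fun z hz => e0' z hz)
      exact MDifferentiableOn.comp (g := fun η => D.si η (Wi η)) (f := fun z : ℂ => z⁻¹) hB
        (hinvd t1 ht1p) (fun z hz => hinv z hz)
    have h3 := holOn_union isOpen_ball (ho t1) h1 h2
    refine holOn_mono h3 ?_
    intro z _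
    rcases lt_or_ge t1 ‖z‖ with h | h
    · exact Or.inr h
    · exact Or.inl (mem_ball_zero_iff.2 (h.trans_lt ((ht1'.trans D.hr).trans ht2)))
  · have h1 : HolOn E vi (ball (0 : ℂ) t1⁻¹) := MDifferentiableOn.congr hB ei
    have h2 : HolOn E vi {z : ℂ | t2⁻¹ < ‖z‖} := by
      refine MDifferentiableOn.congr (f := fun z => D.s0 z⁻¹ (W0 z⁻¹)) ?_ (fun z hz => ei' z hz)
      refine MDifferentiableOn.comp (g := fun η => D.s0 η (W0 η)) (f := fun z : ℂ => z⁻¹) hA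
        (hinvd t2⁻¹ (inv_pos.2 ht2p)) (fun z hz => ?_)
      show z⁻¹ ∈ ball (0 : ℂ) t2
      rw [mem_ball_zero_iff, norm_inv]
      exact (inv_lt_comm₀ ((inv_pos.2 ht2p).trans hz) ht2p).2 hz
    have h3 := holOn_union isOpen_ball (ho t2⁻¹) h1 h2
    refine holOn_mono h3 ?_
    intro z _
    rcases lt_or_ge t2⁻¹ ‖z‖ with h | h
    · exact Or.inr h
    · refine Or.inl (mem_ball_zero_iff.2 (h.trans_lt ?_))
      exact (inv_lt_inv₀ ht2p ht1p).2 ((ht1'.trans D.hr).trans ht2)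
  · intro t ht
    rcases lt_or_ge t1 ‖t‖ with h | h
    · rw [ei t⁻¹ (hinv t h), e0' t h]
    · have h1 : ‖t‖ < t2 := h.trans_lt ((ht1'.trans D.hr).trans ht2)
      have h2 : t2⁻¹ < ‖t⁻¹‖ := by
        rw [norm_inv]
        exact (inv_lt_inv₀ ht2p (norm_pos_iff.2 ht)).2 h1
      rw [ei' t⁻¹ h2, inv_inv, e0 t (mem_ball_zero_iff.2 h1)]

end Pool.Agent.W_4d259d_h53
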