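import Pool.Agent.W_4d259d_h53.TdD
import Pool.Agent.W_4d259d_h53.TdF
import Pool.Agent.W_4d259d_h53.TdG
import Pool.Agent.W_4d259d_h53.TdI
import Pool.Agent.W_4d259d_h53.Fub
import Pool.Agent.W_4d259d_h44.TwoDiscB
import Pool.Agent.W_4d259d_h44.Pairs

/-!
# Block TD (V-TD 23): existence of a free curve (section 14)
-/

noncomputable section

set_option linter.unusedSectionVars false

namespace Pool.Agent.W_4d259d_h53

open Set Filter Topology Manifold Metric MeasureTheory TopologicalSpace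
open scoped ContDiff
open Pool.Agent.W_4d259d_h46.Defs Pool.Agent.W_4d259d_h46 Pool.Agent.W_4d259d_h44

variable {E : Type} [NormedAddCommGroup E] [NormedSpace ℂ E] [FiniteDimensional ℂ E]
variable {X : Type} [MetricSpace X] [ChartedSpace E X]
  [IsManifold (modelWithCornersSelf ℂ E) ω X]

/-- A null set of parameters gives a null set of pairs of points, in the chart `φ`:
the map `(a, b) ↦ (φ (s0 0 a), φ (si 0 b))` is complex differentiable on the open set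
`{‖a‖ < δ, s0 0 a ∈ φ.source} × {‖b‖ < δ, si 0 b ∈ φ.source}`, and differentiable maps between
spaces of the same dimension map null sets to null sets
(`MeasureTheory.addHaar_image_eq_zero_of_differentiableOn_of_addHaar_eq_zero`, real derivative). -/
theorem null_pairs [MeasurableSpace (E × E)] [BorelSpace (E × E)] (μ : Measure (E × E))
    [μ.IsAddHaarMeasure] {W0 Wi : Opens ℂ} (h0 : (0 : ℂ) ∈ W0) (hi : (0 : ℂ) ∈ Wi)
    {u0 ui : ℂ → X} {δ : ℝ} {s0 si : ℂ → E → X} (hs0 : IsSpray W0 u0 δ s0)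
    (hsi : IsSpray Wi ui δ si) {φ : OpenPartialHomeomorph X E} (hφ : φ ∈ XChart E X)
    {A : Set (E × E)} (hA : μ A = 0) :
    μ {p : E × E | ∃ a b : E, (a, b) ∈ A ∧ ‖a‖ < δ ∧ ‖b‖ < δ ∧ s0 0 a ∈ φ.source ∧
      si 0 b ∈ φ.source ∧ p = (φ (s0 0 a), φ (si 0 b))} = 0 := by
  have hpart : ∀ {W : Opens ℂ} {u : ℂ → X} {s : ℂ → E → X}, (0 : ℂ) ∈ W → IsSpray W u δ s →
      ∀ a : E, ‖a‖ < δ → s 0 a ∈ φ.source → DifferentiableAt ℂ (fun w => φ (s 0 w)) a := by
    intro W u s h0 hs a ha hsa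
    have h1 : MDifferentiableAt (modelWithCornersSelf ℂ E) (modelWithCornersSelf ℂ E)
        (fun w : E => s 0 w) a := by
      have h2 : MDifferentiableOn (modelWithCornersSelf ℂ E)
          ((modelWithCornersSelf ℂ ℂ).prod (modelWithCornersSelf ℂ E))
          (fun w : E => ((0 : ℂ), w)) (ball (0 : E) δ) :=
        (mdifferentiableOn_const).prodMk mdifferentiableOn_id
      have h3 : MDifferentiableOn (modelWithCornersSelf ℂ E) (modelWithCornersSelf ℂ E)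
          (fun w : E => s 0 w) (ball (0 : E) δ) :=
        hs.hol.comp h2 (fun w hw => ⟨h0, hw⟩)
      exact (h3 a (mem_ball_zero_iff.2 ha)).mdifferentiableAt
        (isOpen_ball.mem_nhds (mem_ball_zero_iff.2 ha))
    have h4 : MDifferentiableAt (modelWithCornersSelf ℂ E) (modelWithCornersSelf ℂ E) φ (s 0 a) :=
      ((contMDiffOn_of_mem_maximalAtlas hφ).mdifferentiableOn (by simp) (s 0 a)
        hsa).mdifferentiableAt (φ.open_source.mem_nhds hsa)
    exact (MDifferentiableAt.comp a h4 h1).differentiableAt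
  set Ω : Set (E × E) := {q | ‖q.1‖ < δ ∧ ‖q.2‖ < δ ∧ s0 0 q.1 ∈ φ.source ∧
    si 0 q.2 ∈ φ.source} with hΩ
  have hdiff : DifferentiableOn ℝ (fun q : E × E => (φ (s0 0 q.1), φ (si 0 q.2))) (A ∩ Ω) := by
    rintro ⟨a, b⟩ ⟨-, ha, hb, hsa, hsb⟩
    have h1 : DifferentiableAt ℂ (fun q : E × E => φ (s0 0 q.1)) (a, b) :=
      DifferentiableAt.comp (g := fun w => φ (s0 0 w)) (a, b) (hpart h0 hs0 a ha hsa)
        differentiableAt_fst
    have h2 : DifferentiableAt ℂ (fun q : E × E => φ (si 0 q.2)) (a, b) :=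
      DifferentiableAt.comp (g := fun w => φ (si 0 w)) (a, b) (hpart hi hsi b hb hsb)
        differentiableAt_snd
    exact ((h1.prodMk h2).restrictScalars ℝ).differentiableWithinAt
  refine measure_mono_null ?_ (addHaar_image_eq_zero_of_differentiableOn_of_addHaar_eq_zero μ
    hdiff (measure_mono_null inter_subset_left hA))
  rintro p ⟨a, b, hab, ha, hb, hsa, hsb, rfl⟩
  exact ⟨(a, b), ⟨hab, ha, hb, hsa, hsb⟩, rfl⟩

/-- Pairs of distinct points of a nonempty open set of `E` do not form a null set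
(`E` nontrivial): they form a nonempty open subset of `E × E`. -/
theorem pairs_not_null [Nontrivial E] [MeasurableSpace (E × E)] [BorelSpace (E × E)]
    (μ : Measure (E × E)) [μ.IsAddHaarMeasure] {V : Set E} (hV : IsOpen V) (hne : V.Nonempty) :
    μ {p : E × E | p.1 ∈ V ∧ p.2 ∈ V ∧ p.1 ≠ p.2} ≠ 0 := by
  have hopen : IsOpen {p : E × E | p.1 ∈ V ∧ p.2 ∈ V ∧ p.1 ≠ p.2} :=
    (hV.preimage continuous_fst).inter ((hV.preimage continuous_snd).inter
      (isOpen_ne_fun continuous_fst continuous_snd))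
  obtain ⟨x, hx⟩ := hne
  have hnb : (𝓝[≠] x).NeBot := Module.punctured_nhds_neBot ℂ E x
  have hmem : V ∩ {x}ᶜ ∈ 𝓝[≠] x :=
    inter_mem (mem_nhdsWithin_of_mem_nhds (hV.mem_nhds hx)) self_mem_nhdsWithin
  obtain ⟨y, hyV, hyx⟩ := hnb.nonempty_of_mem hmem
  exact hopen.measure_ne_zero μ ⟨(x, y), hx, hyV, fun h => hyx h.symm⟩

/-- Section 14.  Proof: radii `r1 = 1`, `r2 = 2`.  For every rational curve `u` fix `D`
(`exists_twoDisc`), `t1 ∈ (q1, 1)` with `t1 ≥ 1/2` (so `t1⁻¹ ≤ 2`), `t2 ∈ (2, q2)` with `t2 ≤ 3`,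
`ε` as required by `unit_near`, `exists_shift`, `free_or_null`, and `κ` from `TwoDisc.coords` for
this `ε`.  If for some `u` the first alternative of `free_or_null` holds, glue the pair
(`TwoDisc.glue` only gives the curve on the discs `|z| < r2`, `|η| < 1/r1`; to have the values on
`|z| < t2`, `|η| < 1/t1` put `v0 z = s0 z (W0 z)` for `|z| < t2` and `= si z⁻¹ (Wi z⁻¹)` for
`|z| > t1`, consistent on the annulus by `θeq`, and `vi` likewise: lemma `glue_big` in TdI) and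
conclude with `exists_shift`.  Otherwise all the sets `A_u` of `free_or_null` are null.
`countable_cover` for `κ` gives countably many `u` such that every rational curve has coordinates
in one of their models.  Let `φ = chartAt x0`, `V = φ.target`.  For `p ≠ q` in `V`,
`exists_pair_zero_inf` gives a rational curve `v` with `v0 0 = φ.symm p`, `vi 0 = φ.symm q`; it has
coordinates `(W0, Wi)` in one of the countably many models, so
`(p, q) = (φ (s0 0 (W0 0)), φ (si 0 (Wi 0)))` belongs to the set of `null_pairs`.  A countable union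
of null sets is null: contradiction with `pairs_not_null`. -/
theorem exists_free' [SecondCountableTopology X] [Nontrivial E] [Nonempty X]
    (hS : SprayThm ℂ E X) (h : RatConn E X) :
    ∃ (u0 ui : ℂ → X) (_ : IsPair E u0 ui) (r1 r2 : ℝ) (_ : 0 < r1) (D : TwoDisc E u0 ui r1 r2)
      (S0 Si : ℂ → E →L[ℂ] E), DifferentiableOn ℂ S0 (ball 0 r2) ∧
      DifferentiableOn ℂ Si (ball 0 r1⁻¹) ∧
      (∀ z ∈ annu r1 r2, (fderiv ℂ (D.θ z) 0) * S0 z = Si z⁻¹) ∧ S0 0 = 1 ∧ Si 0 = 0 := by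
  classical
  let _ : MeasurableSpace (E × E) := borel (E × E)
  have : BorelSpace (E × E) := ⟨rfl⟩
  have : ProperSpace (E × E) := FiniteDimensional.proper ℂ (E × E)
  let μ : Measure (E × E) := Measure.addHaar
  have : μ.IsAddHaarMeasure := by infer_instance
  have hdata : ∀ u0 ui : ℂ → X, IsPair E u0 ui → ∃ (D : TwoDisc E u0 ui 1 2)
      (t1 t2 ε κ : ℝ), D.q1 < t1 ∧ t1 < 1 ∧ 1 / 2 ≤ t1 ∧ 2 < t2 ∧ t2 < D.q2 ∧ t2 ≤ 3 ∧ 0 < ε ∧
      ε ≤ D.d / 4 ∧ 2 * ε ≤ D.δ' ∧ 2 * ε ≤ D.δ ∧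
      (∀ z : ℂ, t1 ≤ ‖z‖ → ‖z‖ ≤ t2 → ∀ w : E, ‖w‖ < ε → IsUnit (fderiv ℂ (D.θ z) w)) ∧
      0 < κ ∧ ∀ (v0 vi : ℂ → X), IsPair E v0 vi →
        (∀ z ∈ closedBall (0 : ℂ) 3, dist (v0 z) (u0 z) < κ) →
        (∀ z ∈ closedBall (0 : ℂ) 3, dist (vi z) (ui z) < κ) →
        ∃ W0 Wi : ℂ → E, IsCoord D t1 t2 ε W0 Wi ∧ D.s0 0 (W0 0) = v0 0 ∧
          D.si 0 (Wi 0) = vi 0 := by
    intro u0 ui hu
    obtain ⟨D⟩ := exists_twoDisc E hS hu (r1 := 1) (r2 := 2) one_pos (by norm_num)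
    have hq1 : D.q1 < 1 := D.hqr1
    have hq2 : 2 < D.q2 := D.hqr2
    obtain ⟨t1, ht1, ht1'⟩ : ∃ t1 : ℝ, max D.q1 (1 / 2) < t1 ∧ t1 < 1 :=
      exists_between (max_lt hq1 (by norm_num))
    obtain ⟨t2, ht2, ht2'⟩ : ∃ t2 : ℝ, 2 < t2 ∧ t2 < min D.q2 3 :=
      exists_between (lt_min hq2 (by norm_num))
    have ha1 : D.q1 < t1 := (le_max_left _ _).trans_lt ht1
    have ha2 : 1 / 2 < t1 := (le_max_right _ _).trans_lt ht1
    have hb1 : t2 < D.q2 := ht2'.trans_le (min_le_left _ _)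
    have hb2 : t2 < 3 := ht2'.trans_le (min_le_right _ _)
    obtain ⟨ε0, hε0, -, hun⟩ := unit_near D ha1 hb1
    have hd := D.hd
    have hδ' := D.inv0.dpos
    have hδ := D.spray0.pos
    set ε : ℝ := min ε0 (min (D.d / 4) (min (D.δ' / 2) (D.δ / 2))) with hεdef
    have hε : 0 < ε := by positivity
    have hε1 : ε ≤ ε0 := min_le_left _ _
    have hε2 : ε ≤ D.d / 4 := (min_le_right _ _).trans (min_le_left _ _)
    have hε3 : ε ≤ D.δ' / 2 :=
      (min_le_right _ _).trans ((min_le_right _ _).trans (min_le_left _ _))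
    have hε4 : ε ≤ D.δ / 2 :=
      (min_le_right _ _).trans ((min_le_right _ _).trans (min_le_right _ _))
    obtain ⟨κ, hκ, hco⟩ := TwoDisc.coords E D one_pos hε
    refine ⟨D, t1, t2, ε, κ, ha1, ht1', ha2.le, ht2, hb1, hb2.le, hε, hε2, by linarith,
      by linarith, fun z h1 h2 w hw => hun z h1 h2 w (hw.trans_le hε1), hκ, ?_⟩
    intro v0 vi hv hv0 hvi
    have ht1p : 0 < t1 := by linarith
    have ht1i : t1⁻¹ ≤ 2 := by
      rw [inv_le_comm₀ ht1p (by norm_num)]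
      linarith
    obtain ⟨W0, Wi, h1, h2, h3, h4, h5⟩ := hco v0 vi hv t1 t2 ha1 ht1'.le ht2.le hb1
      (fun z hz => hv0 z (by
        rw [mem_ball_zero_iff] at hz
        rw [mem_closedBall_zero_iff]
        linarith))
      (fun z hz => hvi z (by
        rw [mem_ball_zero_iff] at hz
        rw [mem_closedBall_zero_iff]
        linarith))
    exact ⟨W0, Wi, ⟨h1, h2, fun z hz => (h3 z hz).1, fun z hz => (h4 z hz).1, h5⟩,
      (h3 0 (mem_ball_self (by linarith))).2, (h4 0 (mem_ball_self (by positivity))).2⟩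
  choose D t1 t2 ε κ hD using hdata
  by_cases hfree : ∃ (u0 ui : ℂ → X) (hu : IsPair E u0 ui) (W0 Wi : ℂ → E),
      IsCoord (D u0 ui hu) (t1 u0 ui hu) (t2 u0 ui hu) (ε u0 ui hu) W0 Wi ∧
      ∃ S0 Si : ℂ → E →L[ℂ] E,
      DifferentiableOn ℂ S0 (ball 0 2) ∧ DifferentiableOn ℂ Si (ball 0 (1 : ℝ)⁻¹) ∧
      (∀ z ∈ annu 1 2, fderiv ℂ ((D u0 ui hu).θ z) (W0 z) * S0 z = Si z⁻¹) ∧ S0 0 = 1 ∧ Si 0 = 0
  · obtain ⟨u0, ui, hu, W0, Wi, hW, S0, Si, hS0, hSi, hSS, h1, h2⟩ := hfree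
    obtain ⟨a1, a2, a3, a4, a5, a6, a7, a8, a9, a10, a11, a12, a13⟩ := hD u0 ui hu
    have hdp := (D u0 ui hu).hd
    obtain ⟨v0, vi, hv, hv0, hvi⟩ := glue_big one_pos (D u0 ui hu) a1 a2 a4 a5 (by linarith) hW
    obtain ⟨D', hD'⟩ := exists_shift one_pos (D u0 ui hu) a1 a2 a4 a5 a7 (by linarith) a9 a10 hv
      hW.hol0 hW.holi (fun z hz => ⟨hW.b0 z hz, hv0 z hz⟩) (fun z hz => ⟨hW.bi z hz, hvi z hz⟩)
      hW.eq
    refine ⟨v0, vi, hv, 1, 2, one_pos, D', S0, Si, hS0, hSi, fun z hz => ?_, h1, h2⟩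
    rw [hD' z hz]
    exact hSS z hz
  · exfalso
    obtain ⟨S, hSc, hSp, hScov⟩ := countable_cover (E := E) (X := X)
      (fun u0 ui => if hu : IsPair E u0 ui then κ u0 ui hu else 1)
      (fun u0 ui hu => by
        rw [dif_pos hu]
        exact (hD u0 ui hu).2.2.2.2.2.2.2.2.2.2.2.1)
    obtain ⟨x0⟩ := ‹Nonempty X›
    set φ : OpenPartialHomeomorph X E := chartAt E x0 with hφdef
    have hφ : φ ∈ XChart E X := IsManifold.chart_mem_maximalAtlas x0
    have hne : φ.target.Nonempty := ⟨φ x0, φ.map_source (mem_chart_source E x0)⟩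
    refine pairs_not_null μ φ.open_target hne ?_
    -- the countable union
    have hSc' : Countable S := hSc.to_subtype
    have hnull : μ (⋃ u : S, {p : E × E | ∃ a b : E,
        (a, b) ∈ {p : E × E | ∃ (W0 Wi : ℂ → E),
          IsCoord (D u.1.1 u.1.2 (hSp u.1 u.2)) (t1 u.1.1 u.1.2 (hSp u.1 u.2))
            (t2 u.1.1 u.1.2 (hSp u.1 u.2)) (ε u.1.1 u.1.2 (hSp u.1 u.2)) W0 Wi ∧
            p = (W0 0, Wi 0)} ∧ ‖a‖ < (D u.1.1 u.1.2 (hSp u.1 u.2)).δ ∧
        ‖b‖ < (D u.1.1 u.1.2 (hSp u.1 u.2)).δ ∧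
        (D u.1.1 u.1.2 (hSp u.1 u.2)).s0 0 a ∈ φ.source ∧
        (D u.1.1 u.1.2 (hSp u.1 u.2)).si 0 b ∈ φ.source ∧
        p = (φ ((D u.1.1 u.1.2 (hSp u.1 u.2)).s0 0 a),
          φ ((D u.1.1 u.1.2 (hSp u.1 u.2)).si 0 b))}) = 0 := by
      refine measure_iUnion_null fun u => ?_
      obtain ⟨a1, a2, a3, a4, a5, a6, a7, a8, a9, a10, a11, a12, a13⟩ :=
        hD u.1.1 u.1.2 (hSp u.1 u.2)
      have hq1 := (D u.1.1 u.1.2 (hSp u.1 u.2)).hq1
      have hq2 : (2 : ℝ) < (D u.1.1 u.1.2 (hSp u.1 u.2)).q2 :=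
        (D u.1.1 u.1.2 (hSp u.1 u.2)).hqr2
      refine null_pairs μ (W0 := disc (D u.1.1 u.1.2 (hSp u.1 u.2)).q2)
        (Wi := disc (D u.1.1 u.1.2 (hSp u.1 u.2)).q1⁻¹)
        (mem_ball_self (by linarith)) (mem_ball_self (by positivity))
        (D u.1.1 u.1.2 (hSp u.1 u.2)).spray0
        (D u.1.1 u.1.2 (hSp u.1 u.2)).sprayi hφ ?_
      rcases free_or_null μ one_pos (D u.1.1 u.1.2 (hSp u.1 u.2)) a1 a2 a4 a5 a7 a8 a11 with h1 | h1
      · obtain ⟨W0, Wi, h2⟩ := h1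
        exact absurd ⟨u.1.1, u.1.2, hSp u.1 u.2, W0, Wi, h2⟩ hfree
      · exact h1
    refine measure_mono_null ?_ hnull
    rintro ⟨p, q⟩ ⟨hp, hq, hpq⟩
    simp only at hp hq hpq
    have hpq' : φ.symm p ≠ φ.symm q := by
      intro h1
      apply hpq
      have h2 := congrArg φ h1
      rwa [φ.right_inv hp, φ.right_inv hq] at h2
    obtain ⟨v0, vi, hv, hv0, hvi⟩ := exists_pair_zero_inf h hpq'
    obtain ⟨u, huS, hu0, hui⟩ := hScov v0 vi hv
    rw [dif_pos (hSp u huS)] at hu0 hui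
    obtain ⟨a1, a2, a3, a4, a5, a6, a7, a8, a9, a10, a11, a12, a13⟩ := hD u.1 u.2 (hSp u huS)
    obtain ⟨W0, Wi, hW, hs0, hsi⟩ := a13 v0 vi hv hu0 hui
    have ht2p : 0 < t2 u.1 u.2 (hSp u huS) := by linarith
    have ht1p : 0 < t1 u.1 u.2 (hSp u huS) := by linarith
    have hb0 := hW.b0 0 (mem_ball_self ht2p)
    have hbi := hW.bi 0 (mem_ball_self (by positivity))
    rw [hv0] at hs0
    rw [hvi] at hsi
    refine Set.mem_iUnion.2 ⟨⟨u, huS⟩, W0 0, Wi 0, ⟨W0, Wi, hW, rfl⟩, by linarith, by linarith,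
      ?_, ?_, ?_⟩
    · rw [hs0]
      exact φ.map_target hp
    · rw [hsi]
      exact φ.map_target hq
    · rw [hs0, hsi, φ.right_inv hp, φ.right_inv hq]

end Pool.Agent.W_4d259d_h53
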