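import Pool.Agent.W_4d259d_h44.TwoDisc
import Pool.Agent.W_4d259d_h44.ApiA

/-!
# Block TD (V-TD 9): Laurent splitting on an annulus, with bounds
-/

noncomputable section

namespace Pool.Agent.W_4d259d_h53

open Set Filter Topology Metric TopologicalSpace MeasureTheory
open scoped Real
open Pool.Agent.W_4d259d_h46.Defs Pool.Agent.W_4d259d_h46 Pool.Agent.W_4d259d_h44

variable {F : Type*} [NormedAddCommGroup F] [NormedSpace ℂ F]

/-- Cauchy type integral over the circle `|w| = ρ`. -/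
def cInt (y : ℂ → F) (ρ : ℝ) (z : ℂ) : F :=
  (2 * π * Complex.I : ℂ)⁻¹ • ∮ w in C(0, ρ), (w - z)⁻¹ • y w

theorem cInt_circleInt {y : ℂ → F} {ρ : ℝ} (hρ : 0 < ρ) (hy : ContinuousOn y (sphere 0 ρ)) {z : ℂ}
    (hz : ‖z‖ ≠ ρ) : CircleIntegrable (fun w => (w - z)⁻¹ • y w) 0 ρ := by
  apply ContinuousOn.circleIntegrable hρ.le
  refine ContinuousOn.smul (ContinuousOn.inv₀ (by fun_prop) ?_) hy
  intro w hw h0
  rw [mem_sphere_iff_norm, sub_zero] at hw
  rw [sub_eq_zero] at h0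
  rw [h0] at hw
  exact hz hw

theorem cInt_differentiableAt [CompleteSpace F] {y : ℂ → F} {ρ : ℝ} (hρ : 0 < ρ)
    (hy : ContinuousOn y (sphere 0 ρ)) {z1 : ℂ} (hz : ‖z1‖ ≠ ρ) :
    DifferentiableAt ℂ (cInt y ρ) z1 := by
  obtain ⟨m, hm⟩ := (isCompact_sphere (0 : ℂ) ρ).exists_bound_of_continuousOn hy
  have hm0 : 0 ≤ m := by
    have h1 : ((ρ : ℝ) : ℂ) ∈ sphere (0 : ℂ) ρ := by
      rw [mem_sphere_iff_norm, sub_zero, Complex.norm_real, Real.norm_of_nonneg hρ.le]
    exact (norm_nonneg _).trans (hm _ h1)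
  set δ : ℝ := |‖z1‖ - ρ| / 2 with hδ
  have hδ0 : 0 < δ := by
    rw [hδ]
    have : 0 < |‖z1‖ - ρ| := abs_pos.2 (sub_ne_zero.2 hz)
    linarith
  have hdist : ∀ z ∈ ball z1 δ, ∀ θ : ℝ, δ ≤ ‖circleMap 0 ρ θ - z‖ := by
    intro z hz θ
    have h1 : ‖circleMap 0 ρ θ‖ = ρ := by
      have := circleMap_mem_sphere (0 : ℂ) hρ.le θ
      rwa [mem_sphere_iff_norm, sub_zero] at this
    have h2 : ‖z - z1‖ < δ := by rwa [mem_ball_iff_norm] at hz
    have h3 : |‖z1‖ - ρ| ≤ ‖z1 - circleMap 0 ρ θ‖ := by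
      calc |‖z1‖ - ρ| = |‖z1‖ - ‖circleMap 0 ρ θ‖| := by rw [h1]
        _ ≤ _ := abs_norm_sub_norm_le z1 (circleMap 0 ρ θ)
    have h4 : ‖z1 - circleMap 0 ρ θ‖ ≤ ‖circleMap 0 ρ θ - z‖ + ‖z - z1‖ := by
      have e : z1 - circleMap 0 ρ θ = -((circleMap 0 ρ θ - z) + (z - z1)) := by ring
      rw [e, norm_neg]
      exact norm_add_le _ _
    have h5 : |‖z1‖ - ρ| = 2 * δ := by rw [hδ]; ring
    linarith
  have hycont : Continuous fun θ : ℝ => y (circleMap 0 ρ θ) :=
    hy.comp_continuous (continuous_circleMap 0 ρ) (fun θ => circleMap_mem_sphere 0 hρ.le θ)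
  have hyle : ∀ θ : ℝ, ‖y (circleMap 0 ρ θ)‖ ≤ m := fun θ =>
    hm _ (circleMap_mem_sphere 0 hρ.le θ)
  have hne : ∀ z ∈ ball z1 δ, ∀ θ : ℝ, circleMap 0 ρ θ - z ≠ 0 := by
    intro z hz θ h0
    have := hdist z hz θ
    rw [h0, norm_zero] at this
    linarith
  have hdcont : Continuous fun θ : ℝ => deriv (circleMap 0 ρ) θ := by
    have : (fun θ : ℝ => deriv (circleMap 0 ρ) θ) = fun θ => circleMap 0 ρ θ * Complex.I := by
      funext θ
      simp [deriv_circleMap]
    rw [this]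
    exact (continuous_circleMap 0 ρ).mul continuous_const
  have key := intervalIntegral.hasDerivAt_integral_of_dominated_loc_of_deriv_le (𝕜 := ℂ)
    (μ := volume) (a := 0) (b := 2 * π)
    (F := fun z θ => deriv (circleMap 0 ρ) θ • ((circleMap 0 ρ θ - z)⁻¹ • y (circleMap 0 ρ θ)))
    (F' := fun z θ => deriv (circleMap 0 ρ) θ •
      (((circleMap 0 ρ θ - z) ^ 2)⁻¹ • y (circleMap 0 ρ θ)))
    (x₀ := z1) (s := ball z1 δ) (bound := fun _ => ρ * ((δ ^ 2)⁻¹ * m))
    (ball_mem_nhds z1 hδ0) ?_ ?_ ?_ ?_ ?_ ?_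
  · have h2 : DifferentiableAt ℂ (fun z => ∮ w in C(0, ρ), (w - z)⁻¹ • y w) z1 :=
      key.2.differentiableAt
    exact h2.const_smul ((2 * π * Complex.I : ℂ)⁻¹)
  · filter_upwards [ball_mem_nhds z1 hδ0] with z hz
    apply Continuous.aestronglyMeasurable
    exact hdcont.smul ((Continuous.inv₀ ((continuous_circleMap 0 ρ).sub continuous_const)
      (hne z hz)).smul hycont)
  · apply Continuous.intervalIntegrable
    exact hdcont.smul ((Continuous.inv₀ ((continuous_circleMap 0 ρ).sub continuous_const)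
      (hne z1 (mem_ball_self hδ0))).smul hycont)
  · apply Continuous.aestronglyMeasurable
    exact hdcont.smul ((Continuous.inv₀ (((continuous_circleMap 0 ρ).sub continuous_const).pow 2)
      (fun θ => pow_ne_zero 2 (hne z1 (mem_ball_self hδ0) θ))).smul hycont)
  · refine Eventually.of_forall fun θ _ z hz => ?_
    rw [norm_smul, norm_smul]
    have h1 : ‖deriv (circleMap 0 ρ) θ‖ = ρ := by
      simp [deriv_circleMap, abs_of_pos hρ]
    rw [h1, norm_inv, norm_pow]
    have h2 := hdist z hz θ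
    have h3 : (‖circleMap 0 ρ θ - z‖ ^ 2)⁻¹ ≤ (δ ^ 2)⁻¹ := by
      apply inv_anti₀ (by positivity)
      gcongr
    have := hyle θ
    gcongr
  · exact intervalIntegrable_const
  · refine Eventually.of_forall fun θ _ z hz => ?_
    have h1 : HasDerivAt (fun z => (circleMap 0 ρ θ - z)⁻¹) (((circleMap 0 ρ θ - z) ^ 2)⁻¹) z := by
      have h2 : HasDerivAt (fun z => circleMap 0 ρ θ - z) (-1) z := by
        simpa using (hasDerivAt_id z).const_sub (circleMap 0 ρ θ)
      have h3 : HasDerivAt (fun z => (circleMap 0 ρ θ - z)⁻¹)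
          (-(-1) / (circleMap 0 ρ θ - z) ^ 2) z := h2.fun_inv (hne z hz θ)
      simpa using h3
    exact (h1.smul_const _).const_smul _

section annulus

variable {a b : ℝ} {y : ℂ → F}

theorem annu_sphere {ρ : ℝ} (h1 : a < ρ) (h2 : ρ < b) :
    sphere (0 : ℂ) ρ ⊆ (annu a b : Set ℂ) := by
  intro w hw
  rw [mem_sphere_iff_norm, sub_zero] at hw
  exact ⟨by rw [hw]; exact h1, by rw [hw]; exact h2⟩

theorem annu_closed {ρ1 ρ2 : ℝ} (h1 : a < ρ1) (h3 : ρ2 < b) :
    closedBall (0 : ℂ) ρ2 \ ball 0 ρ1 ⊆ (annu a b : Set ℂ) := by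
  rintro w ⟨hw1, hw2⟩
  rw [mem_closedBall_iff_norm, sub_zero] at hw1
  rw [mem_ball_iff_norm, sub_zero, not_lt] at hw2
  exact ⟨by linarith, by linarith⟩

theorem annu_differentiableAt (hy : DifferentiableOn ℂ y (annu a b : Set ℂ)) {w : ℂ}
    (hw : w ∈ (annu a b : Set ℂ)) : DifferentiableAt ℂ y w :=
  (hy w hw).differentiableAt ((annu a b).2.mem_nhds hw)

/-- independence of the radius -/
theorem cInt_eq (ha : 0 < a) (hy : DifferentiableOn ℂ y (annu a b : Set ℂ)) {ρ1 ρ2 : ℝ}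
    (h1 : a < ρ1) (h2 : ρ1 ≤ ρ2) (h3 : ρ2 < b) {z : ℂ} (hz : ‖z‖ < ρ1 ∨ ρ2 < ‖z‖) :
    cInt y ρ1 z = cInt y ρ2 z := by
  unfold cInt
  congr 1
  symm
  have hzne : ∀ w ∈ closedBall (0 : ℂ) ρ2 \ ball 0 ρ1, w - z ≠ 0 := by
    rintro w ⟨hw1, hw2⟩ h0
    rw [mem_closedBall_iff_norm, sub_zero] at hw1
    rw [mem_ball_iff_norm, sub_zero, not_lt] at hw2
    rw [sub_eq_zero] at h0
    rw [h0] at hw1 hw2
    rcases hz with h | h <;> linarith
  refine Complex.circleIntegral_eq_of_differentiable_on_annulus_off_countable (by linarith) h2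
    countable_empty ?_ ?_
  · refine ContinuousOn.smul (ContinuousOn.inv₀ (by fun_prop) hzne)
      (hy.continuousOn.mono (annu_closed h1 h3))
  · rintro w ⟨⟨hw1, hw2⟩, -⟩
    have hw : w ∈ closedBall (0 : ℂ) ρ2 \ ball 0 ρ1 :=
      ⟨ball_subset_closedBall hw1, fun h => hw2 (ball_subset_closedBall h)⟩
    exact ((differentiableAt_id.sub_const z).inv (hzne w hw)).smul
      (annu_differentiableAt hy (annu_closed h1 h3 hw))

theorem cInt_eq' (ha : 0 < a) (hy : DifferentiableOn ℂ y (annu a b : Set ℂ)) {ρ1 ρ2 : ℝ}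
    (h1 : a < ρ1) (h2 : a < ρ2) (h3 : ρ1 < b) (h4 : ρ2 < b) {z : ℂ}
    (hz : (‖z‖ < ρ1 ∧ ‖z‖ < ρ2) ∨ (ρ1 < ‖z‖ ∧ ρ2 < ‖z‖)) :
    cInt y ρ1 z = cInt y ρ2 z := by
  rcases le_total ρ1 ρ2 with h | h
  · exact cInt_eq ha hy h1 h h4 (hz.imp (fun h => h.1) (fun h => h.2))
  · exact (cInt_eq ha hy h2 h h3 (hz.imp (fun h => h.2) (fun h => h.1))).symm

/-- Cauchy's formula for the annulus -/
theorem cInt_cauchy (ha : 0 < a) [CompleteSpace F] (hy : DifferentiableOn ℂ y (annu a b : Set ℂ))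
    {ρ1 ρ2 : ℝ} (h1 : a < ρ1) (h3 : ρ2 < b) {z : ℂ} (hz : ρ1 < ‖z‖) (hz' : ‖z‖ < ρ2) :
    y z = cInt y ρ2 z - cInt y ρ1 z := by
  have hsub := annu_closed (b := b) h1 h3
  have hnhds : closedBall (0 : ℂ) ρ2 \ ball 0 ρ1 ∈ 𝓝 z := by
    have : IsOpen {w : ℂ | ρ1 < ‖w‖ ∧ ‖w‖ < ρ2} :=
      (isOpen_Ioo (a := ρ1) (b := ρ2)).preimage continuous_norm
    refine mem_of_superset (this.mem_nhds ⟨hz, hz'⟩) ?_
    rintro w ⟨h1, h2⟩
    exact ⟨by rw [mem_closedBall_iff_norm, sub_zero]; linarith,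
      by rw [mem_ball_iff_norm, sub_zero]; linarith⟩
  have hdsc : ContinuousOn (dslope y z) (closedBall (0 : ℂ) ρ2 \ ball 0 ρ1) :=
    (continuousOn_dslope hnhds).2 ⟨hy.continuousOn.mono hsub,
      annu_differentiableAt hy ⟨by linarith, by linarith⟩⟩
  have heq := Complex.circleIntegral_eq_of_differentiable_on_annulus_off_countable
    (c := (0 : ℂ)) (r := ρ1) (R := ρ2) (by linarith) (by linarith)
    (f := dslope y z) (s := {z}) (countable_singleton z) hdsc (by
      rintro w ⟨⟨h4, h5⟩, h6⟩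
      rw [differentiableAt_dslope_of_ne (by simpa using h6)]
      exact annu_differentiableAt hy
        (hsub ⟨ball_subset_closedBall h4, fun h => h5 (ball_subset_closedBall h)⟩))
  have hform : ∀ s : ℝ, a < s → s < b → ‖z‖ ≠ s →
      (∮ w in C(0, s), dslope y z w) =
        (∮ w in C(0, s), (w - z)⁻¹ • y w) - (∮ w in C(0, s), (w - z)⁻¹) • y z := by
    intro s h1 h2 h3
    have hs0 : 0 < s := by linarith
    rw [← circleIntegral.integral_smul_const, ← circleIntegral.integral_sub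
      (cInt_circleInt hs0 (hy.continuousOn.mono (annu_sphere h1 h2)) h3)]
    · refine circleIntegral.integral_congr hs0.le fun w hw => ?_
      have hne : w ≠ z := by
        rintro rfl
        rw [mem_sphere_iff_norm, sub_zero] at hw
        exact h3 hw
      rw [dslope_of_ne _ hne, slope_def_module, smul_sub]
    · exact cInt_circleInt (y := fun _ => y z) hs0 continuousOn_const h3
  rw [hform ρ2 (by linarith) (by linarith) (by linarith), hform ρ1 (by linarith) (by linarith)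
    (by linarith)] at heq
  have hin : (∮ w in C(0, ρ2), (w - z)⁻¹) = 2 * π * Complex.I :=
    circleIntegral.integral_sub_inv_of_mem_ball (by rw [mem_ball_iff_norm, sub_zero]; exact hz')
  have hout : (∮ w in C(0, ρ1), (w - z)⁻¹) = 0 := by
    have hne : ∀ w ∈ closedBall (0 : ℂ) ρ1, w - z ≠ 0 := by
      intro w hw h0
      rw [mem_closedBall_iff_norm, sub_zero] at hw
      rw [sub_eq_zero] at h0
      rw [h0] at hw
      linarith
    apply Complex.circleIntegral_eq_zero_of_differentiable_on_off_countable (by linarith)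
      countable_empty
    · exact ContinuousOn.inv₀ (by fun_prop) hne
    · rintro w ⟨hw, _⟩
      exact DifferentiableAt.inv (by fun_prop) (hne w (ball_subset_closedBall hw))
  rw [hin, hout, zero_smul, sub_zero] at heq
  have h2pi : (2 * π * Complex.I : ℂ) ≠ 0 := Complex.two_pi_I_ne_zero
  rw [cInt, cInt, ← heq, ← smul_sub, sub_sub_cancel, smul_smul, inv_mul_cancel₀ h2pi, one_smul]

end annulus

/-- Laurent splitting: `y z = f z + m (1/z)` on the annulus, `f` holomorphic on `|z| < b`, `m` on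
`|η| < 1/a`, `m 0 = 0`.
Proof (one way): for `a < ρ < b` let `c_k = (2πi)⁻¹ ∮_{|w|=ρ} w^(-k-1) y w`, `k : ℤ`; it does not
depend on `ρ` (`Complex.circleIntegral_eq_of_differentiable_on_annulus_off_countable`), so
`‖c_k‖ ≤ M_ρ ρ^(-k)` for all `ρ`.  `f = ∑_{k ≥ 0} c_k z^k` and `m = ∑_{k ≥ 1} c_{-k} η^k` are power
series with radius of convergence `≥ b`, `≥ 1/a`.  Cauchy's formula for the annulus
`ρ1 < |z| < ρ2` (apply the annulus theorem to `dslope y z`) and the geometric series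
`(w - z)⁻¹ = ∑ z^k w^(-k-1)` give `y z = f z + m z⁻¹`.
(Another way: define `f z` and `m` by Cauchy integrals over circles whose radius depends on `z`.) -/
theorem laurent_hol [CompleteSpace F] {a b : ℝ} (ha : 0 < a) (hab : a < b) {y : ℂ → F}
    (hy : DifferentiableOn ℂ y (annu a b : Set ℂ)) :
    ∃ f m : ℂ → F, DifferentiableOn ℂ f (ball 0 b) ∧ DifferentiableOn ℂ m (ball 0 a⁻¹) ∧
      m 0 = 0 ∧ ∀ z ∈ annu a b, y z = f z + m z⁻¹ := by
  classical
  have hcont : ∀ ρ : ℝ, a < ρ → ρ < b → ContinuousOn y (sphere 0 ρ) := fun ρ h1 h2 =>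
    hy.continuousOn.mono (annu_sphere h1 h2)
  let ρf : ℂ → ℝ := fun z => (max ‖z‖ a + b) / 2
  let ρg : ℂ → ℝ := fun z => (a + min ‖z‖ b) / 2
  have hρf : ∀ z : ℂ, ‖z‖ < b → a < ρf z ∧ ρf z < b ∧ ‖z‖ < ρf z := by
    intro z hz
    have h1 := le_max_left ‖z‖ a
    have h2 := le_max_right ‖z‖ a
    have h3 : max ‖z‖ a < b := max_lt hz hab
    simp only [ρf]
    refine ⟨by linarith, by linarith, by linarith⟩
  have hρg : ∀ z : ℂ, a < ‖z‖ → a < ρg z ∧ ρg z < b ∧ ρg z < ‖z‖ := by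
    intro z hz
    have h1 := min_le_left ‖z‖ b
    have h2 := min_le_right ‖z‖ b
    have h3 : a < min ‖z‖ b := lt_min hz hab
    simp only [ρg]
    refine ⟨by linarith, by linarith, by linarith⟩
  let g : ℂ → F := fun z => -cInt y (ρg z) z
  let m : ℂ → F := fun η => if η = 0 then 0 else g η⁻¹
  have hg : ∀ z : ℂ, a < ‖z‖ → DifferentiableAt ℂ g z := by
    intro z hz
    obtain ⟨h1, h2, h3⟩ := hρg z hz
    have h4 : DifferentiableAt ℂ (fun w => -cInt y (ρg z) w) z :=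
      (cInt_differentiableAt (by linarith) (hcont _ h1 h2) h3.ne').neg
    refine h4.congr_of_eventuallyEq ?_
    have h5 : IsOpen {w : ℂ | ρg z < ‖w‖} := isOpen_lt continuous_const continuous_norm
    filter_upwards [h5.mem_nhds h3] with w hw
    have hw' : ρg z < ‖w‖ := hw
    obtain ⟨h6, h7, h8⟩ := hρg w (by linarith)
    change -cInt y (ρg w) w = -cInt y (ρg z) w
    rw [cInt_eq' ha hy h6 h1 h7 h2 (Or.inr ⟨h8, hw'⟩)]
  refine ⟨fun z => cInt y (ρf z) z, m, ?_, ?_, ?_, ?_⟩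
  · intro z hz
    rw [mem_ball_zero_iff] at hz
    obtain ⟨h1, h2, h3⟩ := hρf z hz
    apply DifferentiableAt.differentiableWithinAt
    have h4 := cInt_differentiableAt (z1 := z) (show 0 < ρf z by linarith) (hcont _ h1 h2) h3.ne
    refine h4.congr_of_eventuallyEq ?_
    have h5 : IsOpen {w : ℂ | ‖w‖ < ρf z} := isOpen_lt continuous_norm continuous_const
    filter_upwards [h5.mem_nhds h3] with w hw
    have hw' : ‖w‖ < ρf z := hw
    obtain ⟨h6, h7, h8⟩ := hρf w (by linarith)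
    exact cInt_eq' ha hy h6 h1 h7 h2 (Or.inl ⟨h8, hw'⟩)
  · have hs : ball (0 : ℂ) a⁻¹ ∈ 𝓝 (0 : ℂ) := ball_mem_nhds _ (inv_pos.2 ha)
    rw [← Complex.differentiableOn_compl_singleton_and_continuousAt_iff hs]
    constructor
    · rintro η ⟨hη, hη0⟩
      rw [mem_ball_zero_iff] at hη
      have hη0' : η ≠ 0 := hη0
      have hn : a < ‖η⁻¹‖ := by
        rw [norm_inv]
        have h1 : 0 < ‖η‖ := norm_pos_iff.2 hη0'
        rw [lt_inv_comm₀ ha h1]
        exact hη
      apply DifferentiableAt.differentiableWithinAt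
      have h1 : DifferentiableAt ℂ (fun η => g η⁻¹) η :=
        DifferentiableAt.comp (f := fun η : ℂ => η⁻¹) η (hg _ hn) (differentiableAt_inv hη0')
      refine h1.congr_of_eventuallyEq ?_
      filter_upwards [isOpen_ne.mem_nhds hη0'] with w hw
      simp only [m]
      rw [if_neg hw]
    · have hm0 : m 0 = 0 := if_pos rfl
      set σ : ℝ := (a + b) / 2 with hσ
      have hσ1 : a < σ := by rw [hσ]; linarith
      have hσ2 : σ < b := by rw [hσ]; linarith
      obtain ⟨M, hM⟩ := (isCompact_sphere (0 : ℂ) σ).exists_bound_of_continuousOn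
        (hcont σ hσ1 hσ2)
      have hM0 : 0 ≤ M := by
        have h1 : ((σ : ℝ) : ℂ) ∈ sphere (0 : ℂ) σ := by
          rw [mem_sphere_iff_norm, sub_zero, Complex.norm_real, Real.norm_of_nonneg (by linarith)]
        exact (norm_nonneg _).trans (hM _ h1)
      rw [ContinuousAt, hm0]
      have hlim : Tendsto (fun η : ℂ => σ * (M * (2 * ‖η‖))) (𝓝 0) (𝓝 0) := by
        have : Continuous fun η : ℂ => σ * (M * (2 * ‖η‖)) := by fun_prop
        have h1 := this.tendsto 0
        simpa using h1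
      refine squeeze_zero_norm' ?_ hlim
      have hpos : 0 < (a + b)⁻¹ := inv_pos.2 (by linarith)
      filter_upwards [ball_mem_nhds (0 : ℂ) hpos] with η hη
      rw [mem_ball_zero_iff] at hη
      by_cases hη0 : η = 0
      · rw [hη0, hm0, norm_zero]
        simp
      · have hn0 : 0 < ‖η‖ := norm_pos_iff.2 hη0
        have hn : a + b < ‖η⁻¹‖ := by
          rw [norm_inv, lt_inv_comm₀ (by linarith) hn0]
          exact hη
        have hρ : ρg η⁻¹ = σ := by
          simp only [ρg]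
          rw [min_eq_right (by linarith)]
        have e : m η = -cInt y σ η⁻¹ := by
          simp only [m, g]
          rw [if_neg hη0, hρ]
        rw [e, norm_neg]
        refine circleIntegral.norm_two_pi_i_inv_smul_integral_le_of_norm_le_const (by linarith) ?_
        intro w hw
        have hwn : ‖w‖ = σ := by rwa [mem_sphere_iff_norm, sub_zero] at hw
        rw [norm_smul, norm_inv, mul_comm]
        refine mul_le_mul (hM w hw) ?_ (by positivity) hM0
        have h1 : ‖η⁻¹‖ / 2 ≤ ‖w - η⁻¹‖ := by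
          have h2 : ‖η⁻¹‖ ≤ ‖w - η⁻¹‖ + ‖w‖ := by
            have e2 : η⁻¹ = -(w - η⁻¹) + w := by ring
            calc ‖η⁻¹‖ = ‖-(w - η⁻¹) + w‖ := by rw [← e2]
              _ ≤ ‖-(w - η⁻¹)‖ + ‖w‖ := norm_add_le _ _
              _ = _ := by rw [norm_neg]
          have h3 : 2 * σ = a + b := by rw [hσ]; ring
          linarith
        have h2 : 0 < ‖η⁻¹‖ / 2 := by
          have : 0 < ‖η⁻¹‖ := by linarith
          linarith
        calc ‖w - η⁻¹‖⁻¹ ≤ (‖η⁻¹‖ / 2)⁻¹ := inv_anti₀ h2 h1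
          _ = 2 * ‖η‖ := by rw [norm_inv]; field_simp
  · exact if_pos rfl
  · rintro z ⟨hz1, hz2⟩
    have hz0 : z ≠ 0 := by
      intro h
      rw [h, norm_zero] at hz1
      linarith
    obtain ⟨h1, h2, h3⟩ := hρf z hz2
    obtain ⟨h4, h5, h6⟩ := hρg z hz1
    have e : m z⁻¹ = -cInt y (ρg z) z := by
      simp only [m, g]
      rw [if_neg (inv_ne_zero hz0), inv_inv]
    rw [e, ← sub_eq_add_neg]
    exact cInt_cauchy ha hy h4 h2 h6 h3

/-- Uniqueness: the function `f z` for `|z| < b`, `- m (1/z)` for `|z| > a` is entire and tends to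
`0` at infinity, hence zero (Liouville). -/
theorem laurent_unique [CompleteSpace F] {a b : ℝ} (ha : 0 < a) (hab : a < b) {f m : ℂ → F}
    (hf : DifferentiableOn ℂ f (ball 0 b)) (hm : DifferentiableOn ℂ m (ball 0 a⁻¹))
    (h0 : m 0 = 0) (h : ∀ z ∈ annu a b, f z + m z⁻¹ = 0) :
    (∀ z ∈ ball (0 : ℂ) b, f z = 0) ∧ ∀ z ∈ ball (0 : ℂ) a⁻¹, m z = 0 := by
  classical
  let G : ℂ → F := fun z => if ‖z‖ < b then f z else -m z⁻¹
  have hG1 : ∀ z : ℂ, ‖z‖ < b → G z = f z := fun z hz => if_pos hz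
  have hG2 : ∀ z : ℂ, a < ‖z‖ → G z = -m z⁻¹ := by
    intro z hz
    by_cases hzb : ‖z‖ < b
    · rw [hG1 z hzb]
      exact eq_neg_of_add_eq_zero_left (h z ⟨hz, hzb⟩)
    · exact if_neg hzb
  have hGd : Differentiable ℂ G := by
    intro z
    rcases lt_or_ge ‖z‖ b with hz | hz
    · have h1 : DifferentiableAt ℂ f z :=
        (hf z (mem_ball_zero_iff.2 hz)).differentiableAt
          (isOpen_ball.mem_nhds (mem_ball_zero_iff.2 hz))
      refine h1.congr_of_eventuallyEq ?_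
      filter_upwards [isOpen_ball.mem_nhds (mem_ball_zero_iff.2 hz)] with w hw
      exact hG1 w (mem_ball_zero_iff.1 hw)
    · have hz' : a < ‖z‖ := by linarith
      have hz0 : z ≠ 0 := by
        intro h
        rw [h, norm_zero] at hz'
        linarith
      have hin : z⁻¹ ∈ ball (0 : ℂ) a⁻¹ := by
        rw [mem_ball_zero_iff, norm_inv]
        exact inv_strictAnti₀ ha hz'
      have h1 : DifferentiableAt ℂ m z⁻¹ :=
        (hm _ hin).differentiableAt (isOpen_ball.mem_nhds hin)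
      have h2 : DifferentiableAt ℂ (fun w => -m w⁻¹) z :=
        (DifferentiableAt.comp (f := fun w : ℂ => w⁻¹) z h1 (differentiableAt_inv hz0)).neg
      refine h2.congr_of_eventuallyEq ?_
      have h3 : IsOpen {w : ℂ | a < ‖w‖} := isOpen_lt continuous_const continuous_norm
      filter_upwards [h3.mem_nhds hz'] with w hw
      exact hG2 w hw
  have hGt : Tendsto G (cocompact ℂ) (𝓝 0) := by
    have h1 : Tendsto (fun z : ℂ => -m z⁻¹) (cocompact ℂ) (𝓝 0) := by
      have h2 : ContinuousAt m 0 :=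
        ((hm 0 (mem_ball_self (inv_pos.2 ha))).differentiableAt
          (ball_mem_nhds _ (inv_pos.2 ha))).continuousAt
      have h3 : Tendsto (fun z : ℂ => z⁻¹) (cocompact ℂ) (𝓝 0) := by
        rw [← Metric.cobounded_eq_cocompact]
        exact Filter.tendsto_inv₀_cobounded
      have h4 := (h2.tendsto.comp h3).neg
      rw [h0, neg_zero] at h4
      exact h4
    refine h1.congr' ?_
    have h5 : {w : ℂ | a < ‖w‖} ∈ cocompact ℂ := by
      rw [mem_cocompact]
      refine ⟨closedBall 0 a, isCompact_closedBall 0 a, ?_⟩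
      intro w hw
      rw [mem_compl_iff, mem_closedBall_zero_iff, not_le] at hw
      exact hw
    filter_upwards [h5] with w hw
    exact (hG2 w hw).symm
  have hG0 : G = Function.const ℂ 0 := hGd.eq_const_of_tendsto_cocompact hGt
  refine ⟨fun z hz => ?_, fun η hη => ?_⟩
  · rw [← hG1 z (mem_ball_zero_iff.1 hz), hG0]
    rfl
  · by_cases hη0 : η = 0
    · rw [hη0, h0]
    · have hn0 : 0 < ‖η‖ := norm_pos_iff.2 hη0
      rw [mem_ball_zero_iff] at hη
      have hn : a < ‖η⁻¹‖ := by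
        rw [norm_inv, lt_inv_comm₀ ha hn0]
        exact hη
      have h1 := hG2 _ hn
      rw [hG0, inv_inv] at h1
      exact neg_eq_zero.1 h1.symm

theorem annu_inv_mem {a b : ℝ} (ha : 0 < a) {z : ℂ} (hz : z ∈ annu a b) :
    z⁻¹ ∈ disc a⁻¹ ∧ z ≠ 0 := by
  have hz1 : a < ‖z‖ := hz.1
  have hz0 : z ≠ 0 := by
    intro h
    rw [h, norm_zero] at hz1
    linarith
  refine ⟨?_, hz0⟩
  change z⁻¹ ∈ ball (0 : ℂ) a⁻¹
  rw [mem_ball_zero_iff, norm_inv]
  exact inv_strictAnti₀ ha hz1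

/-- Composition with the inversion. -/
theorem exists_invOp {a b : ℝ} (ha : 0 < a) (hab : a < b) :
    ∃ S : HB (disc a⁻¹) F →L[ℂ] HB (annu a b) F, ‖S‖ ≤ 1 ∧
      ∀ m, ∀ z ∈ annu a b, (S m).fn z = m.fn z⁻¹ := by
  refine exists_clm (fun (y : HB (disc a⁻¹) F) z => y.fn z⁻¹) ?_ ?_ ?_ 1 zero_le_one ?_
  · intro y
    rw [holOn_iff]
    have h1 : DifferentiableOn ℂ y.fn (disc a⁻¹ : Set ℂ) := holOn_iff.1 y.fn_hol
    intro z hz
    obtain ⟨h2, h3⟩ := annu_inv_mem ha hz
    have h4 : DifferentiableAt ℂ y.fn z⁻¹ := (h1 _ h2).differentiableAt ((disc a⁻¹).2.mem_nhds h2)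
    exact (DifferentiableAt.comp (f := fun w : ℂ => w⁻¹) z h4
      (differentiableAt_inv h3)).differentiableWithinAt
  · intro y y' z _
    exact HB.fn_add y y' z⁻¹
  · intro c y z _
    exact HB.fn_smul c y z⁻¹
  · intro y z _
    rw [one_mul]
    exact HB.fn_le y z⁻¹

/-- The Laurent splitting as bounded operators.
Proof: `S (f, m) = f + m (1/·)` is a continuous linear map from
`HB (disc b) F × {m ∈ HB (disc a⁻¹) F | m.fn 0 = 0}` (Banach: the second factor is the kernel of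
`evL 0`) to `HB (annu a b) F`, injective by `laurent_unique`, surjective by `laurent_hol` (`f` is
bounded: near `|z| = b` we have `f = y - m (1/z)` with `m` bounded on compact sets; on the rest by
compactness; same for `m`).  Banach's theorem (`ContinuousLinearEquiv.ofBijective`). -/
theorem laurent_HB [CompleteSpace F] {a b : ℝ} (ha : 0 < a) (hab : a < b) :
    ∃ (Pp : HB (annu a b) F →L[ℂ] HB (disc b) F) (Pm : HB (annu a b) F →L[ℂ] HB (disc a⁻¹) F),
      ∀ y, (∀ z ∈ annu a b, y.fn z = (Pp y).fn z + (Pm y).fn z⁻¹) ∧ (Pm y).fn 0 = 0 := by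
  have hle : annu a b ≤ disc b := by
    intro z hz
    change z ∈ ball (0 : ℂ) b
    rw [mem_ball_zero_iff]
    exact hz.2
  obtain ⟨S1, -, hS1⟩ := exists_res (F := F) hle
  obtain ⟨S2, -, hS2⟩ := exists_invOp (F := F) ha hab
  let K : Submodule ℂ (HB (disc a⁻¹) F) := 
    LinearMap.ker ((evL (0 : ℂ) : HB (disc a⁻¹) F →L[ℂ] F) : HB (disc a⁻¹) F →ₗ[ℂ] F)
  have hKc : IsClosed (K : Set (HB (disc a⁻¹) F)) :=
    ContinuousLinearMap.isClosed_ker (evL (0 : ℂ) : HB (disc a⁻¹) F →L[ℂ] F)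
  haveI : CompleteSpace K := hKc.completeSpace_coe
  let S : (HB (disc b) F × K) →L[ℂ] HB (annu a b) F :=
    S1.comp (ContinuousLinearMap.fst ℂ _ _) +
      (S2.comp K.subtypeL).comp (ContinuousLinearMap.snd ℂ _ _)
  have hS : ∀ p : HB (disc b) F × K, ∀ z ∈ annu a b, (S p).fn z = p.1.fn z + (p.2 : HB (disc a⁻¹) F).fn z⁻¹ := by
    intro p z hz
    have : S p = S1 p.1 + S2 (p.2 : HB (disc a⁻¹) F) := rfl
    rw [this, HB.fn_add, hS1 _ z hz, hS2 _ z hz]
  have hK0 : ∀ k : K, (k : HB (disc a⁻¹) F).fn 0 = 0 := fun k => k.2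
  have hinj : LinearMap.ker (S : (HB (disc b) F × K) →ₗ[ℂ] HB (annu a b) F) = ⊥ := by
    rw [LinearMap.ker_eq_bot']
    intro p hp
    have hp' : S p = 0 := hp
    have hu := laurent_unique ha hab (f := p.1.fn) (m := (p.2 : HB (disc a⁻¹) F).fn)
      (holOn_iff.1 p.1.fn_hol) (holOn_iff.1 (p.2 : HB (disc a⁻¹) F).fn_hol) (hK0 p.2) (by
        intro z hz
        rw [← hS p z hz, hp', HB.fn_zero])
    refine Prod.ext ?_ ?_
    · exact HB.ext' fun z hz => by rw [hu.1 z hz]; exact (HB.fn_zero z).symm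
    · apply Subtype.ext
      exact HB.ext' fun z hz => by rw [hu.2 z hz]; exact (HB.fn_zero z).symm
  have hsurj : LinearMap.range (S : (HB (disc b) F × K) →ₗ[ℂ] HB (annu a b) F) = ⊤ := by
    rw [LinearMap.range_eq_top]
    intro y
    obtain ⟨f, m, hf, hm, hm0, hfm⟩ := laurent_hol ha hab (holOn_iff.1 y.fn_hol)
    set c : ℝ := (a + b) / 2 with hc
    have hc1 : a < c := by rw [hc]; linarith
    have hc2 : c < b := by rw [hc]; linarith
    have hc0 : 0 < c := by linarith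
    obtain ⟨C1, hC1⟩ := (isCompact_closedBall (0 : ℂ) c).exists_bound_of_continuousOn
      (hf.continuousOn.mono (closedBall_subset_ball hc2))
    obtain ⟨C2, hC2⟩ := (isCompact_closedBall (0 : ℂ) c⁻¹).exists_bound_of_continuousOn
      (hm.continuousOn.mono (closedBall_subset_ball (inv_strictAnti₀ ha hc1)))
    have hC1' : 0 ≤ C1 := (norm_nonneg _).trans (hC1 0 (mem_closedBall_self hc0.le))
    have hC2' : 0 ≤ C2 := (norm_nonneg _).trans (hC2 0 (mem_closedBall_self (inv_pos.2 hc0).le))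
    have hfb : ∀ z ∈ disc b, ‖f z‖ ≤ C1 + (‖y‖ + C2) := by
      intro z hz
      have hzb : ‖z‖ < b := mem_ball_zero_iff.1 hz
      rcases le_or_gt ‖z‖ c with h1 | h1
      · have := hC1 z (mem_closedBall_zero_iff.2 h1)
        have := norm_nonneg y
        linarith
      · have h2 := hfm z ⟨by linarith, hzb⟩
        have h3 : f z = y.fn z - m z⁻¹ := by rw [h2]; abel
        have h4 : ‖m z⁻¹‖ ≤ C2 := by
          apply hC2
          rw [mem_closedBall_zero_iff, norm_inv]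
          exact inv_anti₀ hc0 h1.le
        rw [h3]
        have h5 := norm_sub_le (y.fn z) (m z⁻¹)
        have h6 := HB.fn_le y z
        linarith
    have hmb : ∀ z ∈ disc a⁻¹, ‖m z‖ ≤ C2 + (‖y‖ + C1) := by
      intro η hη
      have hηa : ‖η‖ < a⁻¹ := mem_ball_zero_iff.1 hη
      rcases le_or_gt ‖η‖ c⁻¹ with h1 | h1
      · have := hC2 η (mem_closedBall_zero_iff.2 h1)
        have := norm_nonneg y
        linarith
      · have hη0 : 0 < ‖η‖ := (inv_pos.2 hc0).trans h1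
        have h7 : a < ‖η⁻¹‖ := by
          rw [norm_inv, lt_inv_comm₀ ha hη0]
          exact hηa
        have h8 : ‖η⁻¹‖ < c := by
          rw [norm_inv, inv_lt_comm₀ hη0 hc0]
          exact h1
        have h2 := hfm η⁻¹ ⟨h7, by linarith⟩
        rw [inv_inv] at h2
        have h3 : m η = y.fn η⁻¹ - f η⁻¹ := by rw [h2]; abel
        have h4 : ‖f η⁻¹‖ ≤ C1 := hC1 _ (mem_closedBall_zero_iff.2 h8.le)
        rw [h3]
        have h5 := norm_sub_le (y.fn η⁻¹) (f η⁻¹)
        have h6 := HB.fn_le y η⁻¹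
        linarith
    let fb : HB (disc b) F := HB.mk f (holOn_iff.2 hf) _ hfb
    let mb : HB (disc a⁻¹) F := HB.mk m (holOn_iff.2 hm) _ hmb
    have h0mem : (0 : ℂ) ∈ disc a⁻¹ := by
      change (0 : ℂ) ∈ ball (0 : ℂ) a⁻¹
      exact mem_ball_self (inv_pos.2 ha)
    have hmbK : mb ∈ K := by
      change mb.fn 0 = 0
      rw [HB.mk_fn _ _ _ _ h0mem, hm0]
    refine ⟨(fb, ⟨mb, hmbK⟩), ?_⟩
    refine HB.ext' fun z hz => ?_
    have h1 := hS (fb, ⟨mb, hmbK⟩) z hz
    change (S (fb, ⟨mb, hmbK⟩)).fn z = y.fn z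
    have e1 : fb.fn z = f z := HB.mk_fn f (holOn_iff.2 hf) _ hfb (hle hz)
    have e2 : mb.fn z⁻¹ = m z⁻¹ := HB.mk_fn m (holOn_iff.2 hm) _ hmb (annu_inv_mem ha hz).1
    rw [h1, hfm z hz]
    change fb.fn z + mb.fn z⁻¹ = _
    rw [e1, e2]
  haveI : CompleteSpace (HB (disc b) F × K) := inferInstance
  let e : (HB (disc b) F × K) ≃L[ℂ] HB (annu a b) F :=
    ContinuousLinearEquiv.ofBijective (𝕜 := ℂ) (𝕜' := ℂ) (E := HB (disc b) F × K)
      (F := HB (annu a b) F) S hinj hsurj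
  have he : ∀ p, e p = S p := fun p => rfl
  let es : HB (annu a b) F →L[ℂ] (HB (disc b) F × K) := e.symm.toContinuousLinearMap
  refine ⟨(ContinuousLinearMap.fst ℂ (HB (disc b) F) K).comp es,
    (K.subtypeL.comp (ContinuousLinearMap.snd ℂ (HB (disc b) F) K)).comp es, ?_⟩
  intro y
  refine ⟨fun z hz => ?_, hK0 _⟩
  have h1 : S (e.symm y) = y := by
    rw [← he]
    exact e.apply_symm_apply y
  have h2 := hS (e.symm y) z hz
  rw [h1] at h2
  exact h2

end Pool.Agent.W_4d259d_h53
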