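import Pool.Agent.W_4d259d_h53.FredL

/-!
# Block TD (V-TD 15): finitely many poles in a given open set kill the cokernel (used in section 16)
-/

noncomputable section

namespace Pool.Agent.W_4d259d_h53

open Set Filter Topology Metric TopologicalSpace Module
open Pool.Agent.W_4d259d_h46.Defs Pool.Agent.W_4d259d_h46 Pool.Agent.W_4d259d_h44

variable {E : Type*} [NormedAddCommGroup E] [NormedSpace ℂ E] [FiniteDimensional ℂ E]
variable {q1 r1 r2 q2 : ℝ} {g : ℂ → E →L[ℂ] E}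

/-- The subspace `range T_g` on pairs with second component `O(η²)`. -/
def rangeTwo {r1 r2 : ℝ} (T : HB (disc r2) E × HB (disc r1⁻¹) E →L[ℂ] HB (annu r1 r2) E) :
    Submodule ℂ (HB (annu r1 r2) E) :=
  Submodule.span ℂ {y | ∃ v : HB (disc r2) E × HB (disc r1⁻¹) E,
    (∃ x : HB (disc r1⁻¹) E, ∀ η ∈ disc r1⁻¹, v.2.fn η = η ^ 2 • x.fn η) ∧ y = T v}

private theorem Cok_inv_mem {r1 r2 : ℝ} (h1 : 0 < r1) {z : ℂ} (hz : z ∈ annu r1 r2) :
    z⁻¹ ∈ disc r1⁻¹ := by
  change z⁻¹ ∈ ball (0 : ℂ) r1⁻¹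
  rw [mem_ball_zero_iff, norm_inv]
  exact inv_strictAnti₀ h1 hz.1

private theorem Cok_mem_disc {r : ℝ} {z : ℂ} : z ∈ disc r ↔ ‖z‖ < r := by
  change z ∈ ball (0 : ℂ) r ↔ _
  rw [mem_ball_zero_iff]

/-- identity theorem for power series -/
private theorem Cok_ps {a : ℕ → ℂ} {M r : ℝ} (hr : 0 < r) (ha : ∀ n, ‖a n‖ * r ^ n ≤ M)
    {Dl : Set ℂ} (hD : IsOpen Dl) (hne : Dl.Nonempty) (hsub : Dl ⊆ ball 0 r)
    (h : ∀ c ∈ Dl, HasSum (fun n => a n * c ^ n) 0) : ∀ n, a n = 0 := by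
  obtain ⟨p, hpdef⟩ : ∃ p, p = FormalMultilinearSeries.ofScalars ℂ a := ⟨_, rfl⟩
  have hp : ((r.toNNReal : NNReal) : ENNReal) ≤ p.radius := by
    apply p.le_radius_of_bound M
    intro n
    rw [Real.coe_toNNReal _ hr.le, hpdef, FormalMultilinearSeries.ofScalars_norm]
    exact ha n
  have hpos : 0 < p.radius := lt_of_lt_of_le (by
    rw [ENNReal.coe_pos]
    exact Real.toNNReal_pos.2 hr) hp
  have hf := p.hasFPowerSeriesOnBall hpos
  have hfr := hf.mono (r' := ((r.toNNReal : NNReal) : ENNReal)) (by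
    rw [ENNReal.coe_pos]
    exact Real.toNNReal_pos.2 hr) hp
  have hball : Metric.eball (0 : ℂ) ((r.toNNReal : NNReal) : ENNReal) = ball 0 r := by
    rw [Metric.eball_coe, Real.coe_toNNReal _ hr.le]
  have han : AnalyticOnNhd ℂ p.sum (ball 0 r) := by
    rw [← hball]
    exact hfr.analyticOnNhd
  obtain ⟨c0, hc0⟩ := hne
  have hz : p.sum =ᶠ[𝓝 c0] 0 := by
    filter_upwards [hD.mem_nhds hc0] with c hc
    have h1 : p.sum c = ∑' n, a n * c ^ n := by
      unfold FormalMultilinearSeries.sum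
      apply tsum_congr
      intro n
      rw [hpdef, FormalMultilinearSeries.ofScalars_apply_eq, smul_eq_mul]
    rw [h1, (h c hc).tsum_eq]
    rfl
  have hz0 : EqOn p.sum 0 (ball 0 r) := han.eqOn_zero_of_preconnected_of_eventuallyEq_zero
    (convex_ball (0 : ℂ) r).isPreconnected (hsub hc0) hz
  have hz1 : p.sum =ᶠ[𝓝 0] 0 := by
    filter_upwards [ball_mem_nhds (0 : ℂ) hr] with c hc
    exact hz0 hc
  have hp0 : p = 0 := hf.hasFPowerSeriesAt.eq_zero_of_eventually hz1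
  intro n
  have h2 : p n = 0 := by rw [hp0]; rfl
  rw [hpdef, FormalMultilinearSeries.ofScalars_eq_zero] at h2
  exact h2

private theorem Cok_mono {r : ℝ} (hr : 0 < r) (l : ℕ) (b : E) :
    ∃ x : HB (disc r) E, (∀ η ∈ disc r, x.fn η = η ^ l • b) ∧ ‖x‖ ≤ r ^ l * ‖b‖ := by
  have hb : ∀ z ∈ disc r, ‖z ^ l • b‖ ≤ r ^ l * ‖b‖ := by
    intro z hz
    rw [norm_smul, norm_pow]
    have := Cok_mem_disc.1 hz
    gcongr
  have hd : DifferentiableOn ℂ (fun z : ℂ => z ^ l • b) (disc r) := by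
    fun_prop
  refine ⟨HB.mk (fun z => z ^ l • b) (holOn_iff.2 hd) _ hb, fun η hη => HB.mk_fn _ _ _ _ hη, ?_⟩
  refine HB.norm_le_of (by positivity) fun z hz => ?_
  rw [HB.mk_fn _ _ _ _ hz]
  exact hb z hz

/-- the functional vanishes on the Laurent monomials -/
private theorem Cok_coef (hg : GData q1 r1 r2 q2 g) {S : HB (disc r1⁻¹) E →L[ℂ] HB (annu r1 r2) E}
    (hS : ∀ x, ∀ z ∈ annu r1 r2, (S x).fn z = g z (x.fn z⁻¹))
    {Dl : Set ℂ} (hD : IsOpen Dl) (hne : Dl.Nonempty) (hsub : Dl ⊆ ball 0 r1)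
    (mu : HB (annu r1 r2) E →L[ℂ] ℂ)
    (hpol : ∀ c ∈ Dl, ∀ b : E, ∀ y : HB (annu r1 r2) E,
      (∀ z ∈ annu r1 r2, y.fn z = g z ((z - c)⁻¹ • b)) → mu y = 0) (b : E) (l : ℕ)
    {x : HB (disc r1⁻¹) E} (hx : ∀ η ∈ disc r1⁻¹, x.fn η = η ^ (l + 1) • b) : mu (S x) = 0 := by
  have hE : CompleteSpace E := FiniteDimensional.complete ℂ E
  have hr1 : 0 < r1 := hg.h1.trans hg.h2
  have hr1' : 0 < r1⁻¹ := inv_pos.2 hr1
  choose xs hxs hxn using fun n : ℕ => Cok_mono (E := E) hr1' (n + 1) b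
  have hmain := Cok_ps (a := fun n => mu (S (xs n))) (M := ‖mu‖ * (‖S‖ * (r1⁻¹ * ‖b‖))) hr1
    (by
      intro n
      have h1 : ‖mu (S (xs n))‖ ≤ ‖mu‖ * (‖S‖ * (r1⁻¹ ^ (n + 1) * ‖b‖)) := by
        refine (mu.le_opNorm _).trans ?_
        gcongr
        refine (S.le_opNorm _).trans ?_
        gcongr
        exact hxn n
      have h2 : r1⁻¹ ^ (n + 1) * r1 ^ n = r1⁻¹ := by
        rw [pow_succ, mul_comm (r1⁻¹ ^ n) r1⁻¹, mul_assoc, ← mul_pow, inv_mul_cancel₀ hr1.ne',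
          one_pow, mul_one]
      calc ‖mu (S (xs n))‖ * r1 ^ n ≤ ‖mu‖ * (‖S‖ * (r1⁻¹ ^ (n + 1) * ‖b‖)) * r1 ^ n := by gcongr
        _ = ‖mu‖ * (‖S‖ * ((r1⁻¹ ^ (n + 1) * r1 ^ n) * ‖b‖)) := by ring
        _ = _ := by rw [h2]) hD hne hsub
    (by
      intro c hc
      have hc1 : ‖c‖ < r1 := by
        have := hsub hc
        rwa [mem_ball_zero_iff] at this
      have hratio : ‖c‖ * r1⁻¹ < 1 := by
        rw [mul_inv_lt_iff₀ hr1, one_mul]
        exact hc1
      have hsum : Summable (fun n => c ^ n • xs n) := by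
        refine Summable.of_norm_bounded (g := fun n => (r1⁻¹ * ‖b‖) * (‖c‖ * r1⁻¹) ^ n)
          ((summable_geometric_of_lt_one (by positivity) hratio).mul_left _) ?_
        intro n
        rw [norm_smul, norm_pow]
        calc ‖c‖ ^ n * ‖xs n‖ ≤ ‖c‖ ^ n * (r1⁻¹ ^ (n + 1) * ‖b‖) := by
              gcongr
              exact hxn n
          _ = (r1⁻¹ * ‖b‖) * (‖c‖ * r1⁻¹) ^ n := by ring
      obtain ⟨s, hs⟩ := hsum
      have hsz : ∀ η ∈ disc r1⁻¹, s.fn η = (η * (1 - c * η)⁻¹) • b := by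
        intro η hη
        have hη' := Cok_mem_disc.1 hη
        have h1 : HasSum (fun n => (evL η : HB (disc r1⁻¹) E →L[ℂ] E) (c ^ n • xs n))
          ((evL η : HB (disc r1⁻¹) E →L[ℂ] E) s) := hs.mapL _
        have h2 : ‖c * η‖ < 1 := by
          rw [norm_mul]
          calc ‖c‖ * ‖η‖ ≤ ‖c‖ * r1⁻¹ := by gcongr
            _ < 1 := hratio
        have h3 : HasSum (fun n => ((c * η) ^ n * η) • b) (((1 - c * η)⁻¹ * η) • b) :=
          ((hasSum_geometric_of_norm_lt_one h2).mul_right η).smul_const b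
        have h4 : (fun n => (evL η : HB (disc r1⁻¹) E →L[ℂ] E) (c ^ n • xs n)) =
            fun n => ((c * η) ^ n * η) • b := by
          funext n
          rw [evL_apply, HB.fn_smul, hxs n η hη, smul_smul]
          congr 1
          ring
        rw [h4] at h1
        have h5 := h1.unique h3
        rw [evL_apply] at h5
        rw [h5, mul_comm]
      have hzero : mu (S s) = 0 := by
        apply hpol c hc b
        intro z hz
        rw [hS s z hz, hsz _ (Cok_inv_mem hr1 hz)]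
        have hz0 : z ≠ 0 := by
          rintro rfl
          have := hz.1
          rw [norm_zero] at this
          linarith
        have hzc : z - c ≠ 0 := by
          intro h0
          rw [sub_eq_zero] at h0
          have := hz.1
          rw [h0] at this
          linarith
        congr 2
        rw [← mul_inv]
        congr 1
        rw [mul_sub, mul_one, mul_left_comm, mul_inv_cancel₀ hz0, mul_one]
      have h6 : HasSum (fun n => (mu.comp S) (c ^ n • xs n)) ((mu.comp S) s) := hs.mapL _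
      have h7 : (fun n => (mu.comp S) (c ^ n • xs n)) = fun n => mu (S (xs n)) * c ^ n := by
        funext n
        rw [map_smul, smul_eq_mul, mul_comm]
        rfl
      rw [h7] at h6
      have h8 : (mu.comp S) s = 0 := hzero
      rwa [h8] at h6) l
  have h9 : x = xs l := HB.ext' fun η hη => by rw [hx η hη, hxs l η hη]
  rw [h9]
  exact hmain

/-- A continuous functional which vanishes on `rangeTwo T` and on `g b/(z - c)` for all `c` in a
nonempty open set `Dl ⊆ ball 0 r1` and all `b`, vanishes on every `y` which extends holomorphically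
to `q1 < |z| < q2`.
Proof: `Φ c = mu (g b/(z - c))` is given by the power series `∑ c^l mu (g b z^(-l-1))` on
`|c| < r1` (geometric series, convergent in `HB (annu r1 r2) E` for `|c| < r1`); it vanishes on
`Dl`, hence on `ball 0 r1` (identity theorem) and all coefficients vanish:
`mu (g b z^(-l-1)) = 0` for `l ≥ 0`.  Let `g⁻¹ Y = f + m(1/·)` be the Laurent splitting on
`q1 < |z| < q2` (`laurent_hol`).  `y = g f + g m(1/z)`; `g f = - T (f, 0)` (with `f` restricted to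
`disc r2`, bounded since `r2 < q2`) lies in `rangeTwo T`; `m(η)` is a uniform limit on
`|η| ≤ 1/r1 < 1/q1` of polynomials `∑_{1 ≤ l ≤ n} m_l η^l` (`poly_approx`; `m 0 = 0`: subtract the
constant coefficient), so `mu (g m(1/z)) = lim ∑ mu (g m_l z^(-l)) = 0`. -/
theorem mu_zero (hg : GData q1 r1 r2 q2 g)
    {T : HB (disc r2) E × HB (disc r1⁻¹) E →L[ℂ] HB (annu r1 r2) E} (hT : IsTg g T)
    {Dl : Set ℂ} (hD : IsOpen Dl) (hne : Dl.Nonempty) (hsub : Dl ⊆ ball 0 r1)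
    (mu : HB (annu r1 r2) E →L[ℂ] ℂ) (hmu : ∀ y ∈ rangeTwo T, mu y = 0)
    (hpol : ∀ c ∈ Dl, ∀ b : E, ∀ y : HB (annu r1 r2) E,
      (∀ z ∈ annu r1 r2, y.fn z = g z ((z - c)⁻¹ • b)) → mu y = 0)
    {y : HB (annu r1 r2) E} {Y : ℂ → E} (hY : DifferentiableOn ℂ Y (annu q1 q2 : Set ℂ))
    (hyY : ∀ z ∈ annu r1 r2, y.fn z = Y z) : mu y = 0 := by
  have hE : CompleteSpace E := FiniteDimensional.complete ℂ E
  have hr1 : 0 < r1 := hg.h1.trans hg.h2
  have hr1' : 0 < r1⁻¹ := inv_pos.2 hr1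
  have hr2 : 0 < r2 := hr1.trans hg.h3
  have hq : q1 < q2 := hg.h2.trans (hg.h3.trans hg.h4)
  obtain ⟨C, hC, hb, hinv⟩ := hg.bounds
  obtain ⟨S, _, hS⟩ := exists_mulInv hg.h1 hg.h2 hg.h3 hg.h4 hg.hol hC
    (fun z h1 h2 => (hb z h1 h2).1)
  have hX : DifferentiableOn ℂ (fun z => Ring.inverse (g z) (Y z)) (annu q1 q2 : Set ℂ) :=
    hinv.clm_apply hY
  obtain ⟨f, m, hf, hm, hm0, hfm⟩ := laurent_hol hg.h1 hq hX
  have hinvlt : r1⁻¹ < q1⁻¹ := inv_strictAnti₀ hg.h1 hg.h2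
  obtain ⟨Bf, hBf⟩ := (isCompact_closedBall (0 : ℂ) r2).exists_bound_of_continuousOn
    (hf.continuousOn.mono (closedBall_subset_ball hg.h4))
  obtain ⟨Bm, hBm⟩ := (isCompact_closedBall (0 : ℂ) r1⁻¹).exists_bound_of_continuousOn
    (hm.continuousOn.mono (closedBall_subset_ball hinvlt))
  have hfd : DifferentiableOn ℂ f (disc r2) := hf.mono (ball_subset_ball hg.h4.le)
  have hmd : DifferentiableOn ℂ m (disc r1⁻¹) := hm.mono (ball_subset_ball hinvlt.le)
  obtain ⟨fH, hfH⟩ : ∃ fH : HB (disc r2) E, ∀ z ∈ disc r2, fH.fn z = f z :=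
    ⟨HB.mk f (holOn_iff.2 hfd) Bf fun z hz => hBf z (ball_subset_closedBall hz),
      fun z hz => HB.mk_fn _ _ _ _ hz⟩
  obtain ⟨mH, hmH⟩ : ∃ mH : HB (disc r1⁻¹) E, ∀ z ∈ disc r1⁻¹, mH.fn z = m z :=
    ⟨HB.mk m (holOn_iff.2 hmd) Bm fun z hz => hBm z (ball_subset_closedBall hz),
      fun z hz => HB.mk_fn _ _ _ _ hz⟩
  -- the splitting of `y`
  have hy : y = T (-fH, 0) + S mH := by
    apply HB.ext'
    intro z hz
    have hzq : z ∈ annu q1 q2 := ⟨hg.h2.trans hz.1, hz.2.trans hg.h4⟩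
    have hzd : z ∈ disc r2 := Cok_mem_disc.2 hz.2
    rw [HB.fn_add, hT _ z hz, hS _ z hz, hyY z hz, HB.fn_neg, HB.fn_zero, hfH z hzd,
      hmH _ (Cok_inv_mem hr1 hz), map_neg, zero_sub, neg_neg, ← map_add, ← hfm z hzq]
    have hu := Ring.mul_inverse_cancel (g z) (hg.unit z hzq)
    have h1 : g z (Ring.inverse (g z) (Y z)) = (g z * Ring.inverse (g z)) (Y z) := rfl
    rw [h1, hu]
    rfl
  have hT0 : mu (T (-fH, 0)) = 0 := by
    apply hmu
    apply Submodule.subset_span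
    exact ⟨(-fH, 0), ⟨0, fun η _ => by rw [HB.fn_zero, smul_zero]⟩, rfl⟩
  have hS0 : mu (S mH) = 0 := by
    have hQd : DifferentiableOn ℂ (dslope m 0) (ball 0 q1⁻¹) :=
      (Complex.differentiableOn_dslope (ball_mem_nhds (0 : ℂ) (inv_pos.2 hg.h1))).2 hm
    have hest : ∀ τ : ℝ, 0 < τ → ‖mu (S mH)‖ ≤ ‖mu‖ * (‖S‖ * (r1⁻¹ * τ)) := by
      intro τ hτ
      obtain ⟨n, c, hn⟩ := poly_approx hr1' hinvlt hQd hτ
      choose xs hxs hxn using fun i : ℕ => Cok_mono (E := E) hr1' (i + 1) (c i)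
      have h1 : ∀ i, mu (S (xs i)) = 0 := fun i =>
        Cok_coef hg hS hD hne hsub mu hpol (c i) i (hxs i)
      have h2 : mu (S mH) = mu (S (mH - ∑ i ∈ Finset.range n, xs i)) := by
        rw [map_sub, map_sub, map_sum, map_sum, Finset.sum_eq_zero (fun i _ => h1 i), sub_zero]
      rw [h2]
      refine (mu.le_opNorm _).trans ?_
      gcongr
      refine (S.le_opNorm _).trans ?_
      gcongr
      refine HB.norm_le_of (by positivity) fun z hz => ?_
      have hz' : ‖z‖ < r1⁻¹ := Cok_mem_disc.1 hz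
      rw [HB.fn_sub, fn_sum, hmH z hz]
      have h3 : m z = z • dslope m 0 z := by
        have := sub_smul_dslope m 0 z
        rw [sub_zero, hm0, sub_zero] at this
        exact this.symm
      have h4 : ∑ i ∈ Finset.range n, (xs i).fn z = z • ∑ i ∈ Finset.range n, z ^ i • c i := by
        rw [Finset.smul_sum]
        refine Finset.sum_congr rfl fun i _ => ?_
        rw [hxs i z hz, smul_smul, pow_succ, mul_comm]
      rw [h3, h4, ← smul_sub, norm_smul]
      have h5 := hn z (ball_subset_closedBall hz)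
      gcongr
    have hK : 0 ≤ ‖mu‖ * (‖S‖ * r1⁻¹) := by positivity
    rw [← norm_le_zero_iff]
    apply le_of_forall_pos_le_add
    intro ε hε
    rw [zero_add]
    have h6 := hest (ε / (‖mu‖ * (‖S‖ * r1⁻¹) + 1)) (by positivity)
    refine h6.trans ?_
    have h7 : ‖mu‖ * (‖S‖ * (r1⁻¹ * (ε / (‖mu‖ * (‖S‖ * r1⁻¹) + 1)))) =
        (‖mu‖ * (‖S‖ * r1⁻¹)) / (‖mu‖ * (‖S‖ * r1⁻¹) + 1) * ε := by
      ring
    rw [h7]
    have h8 : (‖mu‖ * (‖S‖ * r1⁻¹)) / (‖mu‖ * (‖S‖ * r1⁻¹) + 1) ≤ 1 := by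
      rw [div_le_one (by positivity)]
      linarith
    calc (‖mu‖ * (‖S‖ * r1⁻¹)) / (‖mu‖ * (‖S‖ * r1⁻¹) + 1) * ε ≤ 1 * ε := by gcongr
      _ = ε := one_mul _
  rw [hy, map_add, hT0, hS0, add_zero]

/-- `z ↦ g z (b / (z - c))` as a bounded operator in `b` -/
private theorem Cok_pole (hg : GData q1 r1 r2 q2 g) {c : ℂ} (hc : ‖c‖ < r1) :
    ∃ B : E →L[ℂ] HB (annu r1 r2) E, ∀ b, ∀ z ∈ annu r1 r2,
      (B b).fn z = g z ((z - c)⁻¹ • b) := by
  have hE : CompleteSpace E := FiniteDimensional.complete ℂ E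
  obtain ⟨C, hC, hb, hinv⟩ := hg.bounds
  have hne : ∀ z ∈ annu r1 r2, z - c ≠ 0 := by
    intro z hz h0
    rw [sub_eq_zero] at h0
    have := hz.1
    rw [h0] at this
    linarith
  have hpos : 0 < r1 - ‖c‖ := by linarith
  obtain ⟨B, _, hB⟩ := exists_clm (Y := E) (V := annu r1 r2) (G := E)
    (fun b z => g z ((z - c)⁻¹ • b))
    (fun b => by
      rw [holOn_iff]
      have h1 : DifferentiableOn ℂ g (annu r1 r2 : Set ℂ) :=
        hg.hol.mono fun z hz => ⟨hg.h2.trans hz.1, hz.2.trans hg.h4⟩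
      have h2 : DifferentiableOn ℂ (fun z : ℂ => (z - c)⁻¹ • b) (annu r1 r2 : Set ℂ) :=
        ((differentiableOn_id.sub_const c).inv hne).smul_const b
      exact h1.clm_apply h2)
    (fun b b' z _ => by rw [smul_add, map_add])
    (fun a b z _ => by rw [smul_comm, map_smul])
    (C * (r1 - ‖c‖)⁻¹) (by positivity)
    (fun b z hz => by
      have h1 : ‖(z - c)⁻¹‖ ≤ (r1 - ‖c‖)⁻¹ := by
        rw [norm_inv]
        apply inv_anti₀ hpos
        have h2 := norm_sub_norm_le z c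
        have h3 : r1 < ‖z‖ := hz.1
        linarith
      have h4 := (hb z hz.1.le hz.2.le).1
      calc ‖g z ((z - c)⁻¹ • b)‖ ≤ ‖g z‖ * ‖(z - c)⁻¹ • b‖ := (g z).le_opNorm _
        _ = ‖g z‖ * (‖(z - c)⁻¹‖ * ‖b‖) := by rw [norm_smul]
        _ ≤ C * ((r1 - ‖c‖)⁻¹ * ‖b‖) := by gcongr
        _ = C * (r1 - ‖c‖)⁻¹ * ‖b‖ := by ring)
  exact ⟨B, hB⟩

/-- the Taylor remainder of order two of a function divisible by `η²` -/
private theorem Cok_taylor [CompleteSpace E] {r : ℝ} (hr : 0 < r)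
    {c : ℕ → HB (disc r) E →L[ℂ] E} {Q : HB (disc r) E →L[ℂ] HB (disc r) E}
    (hQ : ∀ m, ∀ z ∈ disc r, m.fn z = ∑ i ∈ Finset.range 2, z ^ i • c i m + z ^ 2 • (Q m).fn z)
    {m x : HB (disc r) E} (hx : ∀ η ∈ disc r, m.fn η = η ^ 2 • x.fn η) :
    ∀ η ∈ disc r, η ^ 2 • (Q m).fn η = m.fn η := by
  have hQ' : ∀ z ∈ disc r, m.fn z = c 0 m + z • c 1 m + z ^ 2 • (Q m).fn z := by
    intro z hz
    rw [hQ m z hz, Finset.sum_range_succ, Finset.sum_range_one, pow_zero, one_smul, pow_one]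
  have h0 : (0 : ℂ) ∈ disc r := Cok_mem_disc.2 (by rw [norm_zero]; exact hr)
  have hc0 : c 0 m = 0 := by
    have h1 := hQ' 0 h0
    rw [hx 0 h0] at h1
    simp only [ne_eq, OfNat.ofNat_ne_zero, not_false_eq_true, zero_pow, zero_smul, add_zero] at h1
    exact h1.symm
  have hc1 : c 1 m = 0 := by
    rw [← norm_le_zero_iff]
    apply le_of_forall_pos_le_add
    intro ε hε
    rw [zero_add]
    obtain ⟨K, hK⟩ : ∃ K, K = ‖x‖ + ‖Q m‖ + 1 := ⟨_, rfl⟩
    have hKpos : 0 < K := by rw [hK]; positivity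
    obtain ⟨t, ht⟩ : ∃ t : ℝ, t = min (r / 2) (ε / K) := ⟨_, rfl⟩
    have htpos : 0 < t := by
      rw [ht]
      exact lt_min (by linarith) (div_pos hε hKpos)
    have htr : t < r := by
      have : t ≤ r / 2 := ht ▸ min_le_left _ _
      linarith
    have htε : t ≤ ε / K := ht ▸ min_le_right _ _
    have hnt : ‖(t : ℂ)‖ = t := by
      rw [Complex.norm_real, Real.norm_eq_abs, abs_of_pos htpos]
    have htd : (t : ℂ) ∈ disc r := Cok_mem_disc.2 (by rw [hnt]; exact htr)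
    have ht0 : (t : ℂ) ≠ 0 := by
      intro h
      rw [h, norm_zero] at hnt
      linarith
    have h1 := hQ' _ htd
    rw [hx _ htd, hc0, zero_add] at h1
    have h2 : (t : ℂ) • c 1 m = (t : ℂ) • ((t : ℂ) • (x.fn t - (Q m).fn t)) := by
      rw [smul_smul, smul_sub, ← pow_two]
      rw [h1]
      abel
    have h3 : c 1 m = (t : ℂ) • (x.fn t - (Q m).fn t) := smul_right_injective _ ht0 h2
    rw [h3, norm_smul, hnt]
    calc t * ‖x.fn t - (Q m).fn t‖ ≤ t * K := by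
          gcongr
          refine (norm_sub_le _ _).trans ?_
          have h4 := x.fn_le (t : ℂ)
          have h5 := (Q m).fn_le (t : ℂ)
          rw [hK]
          linarith
      _ ≤ ε / K * K := by gcongr
      _ = ε := div_mul_cancel₀ _ hKpos.ne'
  intro η hη
  rw [hQ' η hη, hc0, hc1, smul_zero, zero_add, zero_add]

/-- `T_g` on pairs with second component `O(η²)`, plus finitely many poles in `Dl`, is onto, with a
bounded right inverse.
Proof: `W = rangeTwo T` and `S = W + span {g b/(z-c) | c ∈ Dl, b}`.  By `fredholm_right` and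
`proj_form` style arguments `W + range P = ⊤`, `range P` finite dimensional, so `YY / W` is finite
dimensional and `W`, `S` are closed (`W ⊇ range (T R)`; closedness: `W` has a finite dimensional
complement and is the range of a continuous operator on a Banach space, or use the projection form
of the operator `T` restricted to the closed subspace of pairs with `O(η²)`).  If `S ≠ ⊤` there is a
continuous `mu ≠ 0` vanishing on `S` (Hahn-Banach); by `mu_zero` it vanishes on `range P`, hence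
everywhere: contradiction.  So `S = ⊤`; finitely many `c_j` suffice because `YY / W` is finite
dimensional (`c` injective: take the finite set of poles used, all `b_j : E` allowed).  The map
`(v, b) ↦ T v - ∑ g b_j/(z - c_j)` is then onto; right inverse: `R y + L (P y)` with `L` a linear
lift of the finite dimensional space `range P`. -/
theorem cok_poles (hg : GData q1 r1 r2 q2 g) {Dl : Set ℂ} (hD : IsOpen Dl)
    (hne : Dl.Nonempty) (hsub : Dl ⊆ ball 0 r1) :
    ∃ (N : ℕ) (c : Fin N → ℂ) (R0 : HB (annu r1 r2) E →L[ℂ] HB (disc r2) E)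
      (Rb : Fin N → HB (annu r1 r2) E →L[ℂ] E) (Ri : HB (annu r1 r2) E →L[ℂ] HB (disc r1⁻¹) E),
      Function.Injective c ∧ (∀ j, c j ∈ Dl) ∧
      (∀ y, ∃ x : HB (disc r1⁻¹) E, ∀ η ∈ disc r1⁻¹, (Ri y).fn η = η ^ 2 • x.fn η) ∧
      ∀ y, ∀ z ∈ annu r1 r2, y.fn z =
        (Ri y).fn z⁻¹ - g z ((R0 y).fn z + ∑ j, (z - c j)⁻¹ • Rb j y) := by
  have hE : CompleteSpace E := FiniteDimensional.complete ℂ E
  have hr1 : 0 < r1 := hg.h1.trans hg.h2
  have hr1' : 0 < r1⁻¹ := inv_pos.2 hr1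
  obtain ⟨T, hT⟩ := exists_Tg hg
  obtain ⟨R, P, hRP, hPfin, hR2, hPext⟩ := fredholm_right hg hT
  obtain ⟨M2, _, hM2⟩ := exists_mulOp (F := E) (G := E) (U := disc r1⁻¹)
    (fun η : ℂ => (η ^ 2) • ContinuousLinearMap.id ℂ E)
    (by
      rw [holOn_iff]
      fun_prop) (r1⁻¹ ^ 2) (by positivity)
    (by
      intro z hz
      have hz' := Cok_mem_disc.1 hz
      rw [norm_smul, norm_pow]
      calc ‖z‖ ^ 2 * ‖ContinuousLinearMap.id ℂ E‖ ≤ r1⁻¹ ^ 2 * 1 := by
            gcongr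
            exact ContinuousLinearMap.norm_id_le
        _ = r1⁻¹ ^ 2 := mul_one _)
  have hM2' : ∀ f : HB (disc r1⁻¹) E, ∀ z ∈ disc r1⁻¹, (M2 f).fn z = z ^ 2 • f.fn z := by
    intro f z hz
    rw [hM2 f z hz]
    rfl
  obtain ⟨cc, Q2, hcQ⟩ := taylor_split (F := E) hr1' 2
  have hMQ : ∀ m x : HB (disc r1⁻¹) E, (∀ η ∈ disc r1⁻¹, m.fn η = η ^ 2 • x.fn η) →
      M2 (Q2 m) = m := by
    intro m x hx
    apply HB.ext'
    intro z hz
    rw [hM2' _ z hz]
    exact Cok_taylor hr1' hcQ hx z hz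
  -- the operator on pairs with second component `η² x`
  obtain ⟨T2, hT2⟩ : ∃ T2 : HB (disc r2) E × HB (disc r1⁻¹) E →L[ℂ] HB (annu r1 r2) E,
      ∀ v, T2 v = T (v.1, M2 v.2) :=
    ⟨T.comp ((ContinuousLinearMap.fst ℂ _ _).prod (M2.comp (ContinuousLinearMap.snd ℂ _ _))),
      fun v => rfl⟩
  obtain ⟨R2, hR2'⟩ : ∃ R2 : HB (annu r1 r2) E →L[ℂ] HB (disc r2) E × HB (disc r1⁻¹) E,
      ∀ y, R2 y = ((R y).1, Q2 (R y).2) :=
    ⟨((ContinuousLinearMap.fst ℂ _ _).comp R).prod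
      (Q2.comp ((ContinuousLinearMap.snd ℂ _ _).comp R)), fun v => rfl⟩
  have hTR : ∀ y, T2 (R2 y) = T (R y) := by
    intro y
    obtain ⟨x, hx⟩ := hR2 y
    rw [hT2, hR2', hMQ _ x hx]
  obtain ⟨R', P', h3, h4, h5⟩ := proj_form (T := T2) (R := R2) (P := P)
    (fun y => by rw [hTR, hRP]) hPfin
  have hfin' : FiniteDimensional ℂ
      (LinearMap.range (P' : HB (annu r1 r2) E →ₗ[ℂ] HB (annu r1 r2) E)) :=
    Submodule.finiteDimensional_of_le h5
  -- the poles
  have hDl : ∀ c ∈ Dl, ‖c‖ < r1 := by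
    intro c hc
    have := hsub hc
    rwa [mem_ball_zero_iff] at this
  have hpole : ∀ c : ℂ, ∃ B : E →L[ℂ] HB (annu r1 r2) E, c ∈ Dl → ∀ b, ∀ z ∈ annu r1 r2,
      (B b).fn z = g z ((z - c)⁻¹ • b) := by
    intro c
    by_cases hc : c ∈ Dl
    · obtain ⟨B, hB⟩ := Cok_pole hg (hDl c hc)
      exact ⟨B, fun _ => hB⟩
    · exact ⟨0, fun h => absurd h hc⟩
  choose B hB using hpole
  obtain ⟨Sp, hSp⟩ : ∃ Sp : Set (HB (annu r1 r2) E), Sp = {v | ∃ c ∈ Dl, ∃ b, v = P' (B c b)} :=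
    ⟨_, rfl⟩
  -- all poles together span the range of `P'`
  have hspan : Submodule.span ℂ Sp =
      LinearMap.range (P' : HB (annu r1 r2) E →ₗ[ℂ] HB (annu r1 r2) E) := by
    apply le_antisymm
    · rw [Submodule.span_le, hSp]
      rintro _ ⟨c, _, b, rfl⟩
      exact ⟨B c b, rfl⟩
    · by_contra hnot
      rw [SetLike.not_le_iff_exists] at hnot
      obtain ⟨w, ⟨y0, hy0⟩, hw⟩ := hnot
      obtain ⟨lam, hlam, hlamS⟩ := Submodule.exists_le_ker_of_notMem
        (p := (Submodule.span ℂ Sp).comap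
          (LinearMap.range (P' : HB (annu r1 r2) E →ₗ[ℂ] HB (annu r1 r2) E)).subtype)
        (v := ⟨w, y0, hy0⟩) hw
      obtain ⟨mu, hmu⟩ : ∃ mu : HB (annu r1 r2) E →L[ℂ] ℂ, ∀ y, mu y = lam ⟨P' y, y, rfl⟩ :=
        ⟨(LinearMap.toContinuousLinearMap lam).comp
          (P'.codRestrict (LinearMap.range (P' : HB (annu r1 r2) E →ₗ[ℂ] HB (annu r1 r2) E))
            (fun y => ⟨y, rfl⟩)), fun y => rfl⟩
      have hmuT2 : ∀ v, mu (T2 v) = 0 := by
        intro v
        rw [hmu]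
        have h6 : (⟨P' (T2 v), T2 v, rfl⟩ : LinearMap.range
            (P' : HB (annu r1 r2) E →ₗ[ℂ] HB (annu r1 r2) E)) = 0 := Subtype.ext (h4 v)
        rw [h6, map_zero]
      have hmu0 : ∀ y ∈ rangeTwo T, mu y = 0 := by
        intro y hy
        have hle : rangeTwo T ≤ LinearMap.ker (mu : HB (annu r1 r2) E →ₗ[ℂ] ℂ) := by
          unfold rangeTwo
          rw [Submodule.span_le]
          rintro _ ⟨v, ⟨x, hx⟩, rfl⟩
          have h6 : T v = T2 (v.1, Q2 v.2) := by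
            rw [hT2, hMQ _ x hx]
          change mu (T v) = 0
          rw [h6]
          exact hmuT2 _
        exact hle hy
      have hmuP : ∀ c ∈ Dl, ∀ b : E, ∀ y : HB (annu r1 r2) E,
          (∀ z ∈ annu r1 r2, y.fn z = g z ((z - c)⁻¹ • b)) → mu y = 0 := by
        intro c hc b y hy
        have h6 : y = B c b := HB.ext' fun z hz => by rw [hy z hz, hB c hc b z hz]
        rw [h6, hmu]
        have h7 : (⟨P' (B c b), B c b, rfl⟩ : LinearMap.range
            (P' : HB (annu r1 r2) E →ₗ[ℂ] HB (annu r1 r2) E)) ∈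
            (Submodule.span ℂ Sp).comap (LinearMap.range
              (P' : HB (annu r1 r2) E →ₗ[ℂ] HB (annu r1 r2) E)).subtype := by
          change P' (B c b) ∈ Submodule.span ℂ Sp
          apply Submodule.subset_span
          rw [hSp]
          exact ⟨c, hc, b, rfl⟩
        exact hlamS h7
      have hmuall : ∀ y, mu y = 0 := by
        intro y
        obtain ⟨Y, hY, hyY⟩ := hPext y
        have h6 := mu_zero hg hT hD hne hsub mu hmu0 hmuP hY hyY
        have h7 : y = T2 (R2 y) + P y := by rw [hTR, hRP]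
        rw [h7, map_add, hmuT2, h6, add_zero]
      apply hlam
      have h8 := hmuall y0
      rw [hmu] at h8
      have h9 : (⟨P' y0, y0, rfl⟩ : LinearMap.range
          (P' : HB (annu r1 r2) E →ₗ[ℂ] HB (annu r1 r2) E)) = ⟨w, y0, hy0⟩ := Subtype.ext hy0
      rwa [h9] at h8
  -- finitely many poles suffice
  have hFG : (Submodule.span ℂ Sp).FG := by
    rw [hspan]
    exact (Submodule.fg_iff_finiteDimensional _).2 hfin'
  obtain ⟨s', hs'sub, hs'span⟩ := (Submodule.fg_span_iff_fg_span_finset_subset Sp).1 hFG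
  have hch : ∀ v : HB (annu r1 r2) E, ∃ (γ : ℂ) (β : E), v ∈ Sp → γ ∈ Dl ∧ v = P' (B γ β) := by
    intro v
    by_cases hv : v ∈ Sp
    · have hv' := hv
      rw [hSp] at hv'
      obtain ⟨γ, hγ, β, hβ⟩ := hv'
      exact ⟨γ, β, fun _ => ⟨hγ, hβ⟩⟩
    · exact ⟨0, 0, fun h => absurd h hv⟩
  choose γ β hγβ using hch
  classical
  obtain ⟨Cs, hCs⟩ : ∃ Cs : Finset ℂ, Cs = s'.image γ := ⟨_, rfl⟩
  obtain ⟨c, hcdef⟩ : ∃ c : Fin Cs.card → ℂ, c = fun j => ((Cs.equivFin.symm j : Cs) : ℂ) :=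
    ⟨_, rfl⟩
  have hcinj : Function.Injective c := by
    rw [hcdef]
    intro i j hij
    exact Cs.equivFin.symm.injective (Subtype.ext hij)
  have hcD : ∀ j, c j ∈ Dl := by
    intro j
    have h6 : c j ∈ Cs := by
      rw [hcdef]
      exact (Cs.equivFin.symm j).2
    rw [hCs, Finset.mem_image] at h6
    obtain ⟨v, hv, hvc⟩ := h6
    rw [← hvc]
    exact (hγβ v (hs'sub hv)).1
  have hcsurj : ∀ v ∈ s', ∃ j, c j = γ v := by
    intro v hv
    have h6 : γ v ∈ Cs := by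
      rw [hCs]
      exact Finset.mem_image_of_mem γ hv
    refine ⟨Cs.equivFin ⟨γ v, h6⟩, ?_⟩
    rw [hcdef]
    simp
  obtain ⟨Bs, hBs⟩ : ∃ Bs : (Fin Cs.card → E) →L[ℂ] HB (annu r1 r2) E,
      ∀ b, Bs b = ∑ j, B (c j) (b j) :=
    ⟨∑ j, (B (c j)).comp (ContinuousLinearMap.proj j), fun b => by
      rw [ContinuousLinearMap.sum_apply]
      rfl⟩
  obtain ⟨A, hA⟩ : ∃ A : (Fin Cs.card → E) →ₗ[ℂ]
      LinearMap.range (P' : HB (annu r1 r2) E →ₗ[ℂ] HB (annu r1 r2) E),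
      ∀ b, ((A b : LinearMap.range (P' : HB (annu r1 r2) E →ₗ[ℂ] HB (annu r1 r2) E)) :
        HB (annu r1 r2) E) = P' (Bs b) :=
    ⟨((P'.comp Bs : (Fin Cs.card → E) →L[ℂ] HB (annu r1 r2) E) :
      (Fin Cs.card → E) →ₗ[ℂ] HB (annu r1 r2) E).codRestrict _ (fun b => ⟨Bs b, rfl⟩),
      fun b => rfl⟩
  have hAsurj : LinearMap.range A = ⊤ := by
    rw [LinearMap.range_eq_top]
    rintro ⟨w, hw⟩
    have hw' : w ∈ Submodule.span ℂ (s' : Set (HB (annu r1 r2) E)) := by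
      rw [← hs'span, hspan]
      exact hw
    have hle : Submodule.span ℂ (s' : Set (HB (annu r1 r2) E)) ≤
        LinearMap.range ((P'.comp Bs : (Fin Cs.card → E) →L[ℂ] HB (annu r1 r2) E) :
          (Fin Cs.card → E) →ₗ[ℂ] HB (annu r1 r2) E) := by
      rw [Submodule.span_le]
      intro v hv
      obtain ⟨j, hj⟩ := hcsurj v hv
      refine ⟨Pi.single j (β v), ?_⟩
      change P' (Bs (Pi.single j (β v))) = v
      rw [hBs, Finset.sum_eq_single j]
      · rw [Pi.single_eq_same, hj]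
        exact (hγβ v (hs'sub hv)).2.symm
      · intro i _ hij
        rw [Pi.single_eq_of_ne hij, map_zero]
      · intro hj'
        exact absurd (Finset.mem_univ j) hj'
    obtain ⟨b, hb⟩ := hle hw'
    exact ⟨b, Subtype.ext ((hA b).trans hb)⟩
  obtain ⟨L, hL⟩ := A.exists_rightInverse_of_surjective hAsurj
  obtain ⟨L', hL'⟩ : ∃ L' : HB (annu r1 r2) E →L[ℂ] (Fin Cs.card → E),
      ∀ y, P' (Bs (L' y)) = P' y := by
    refine ⟨(LinearMap.toContinuousLinearMap L).comp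
      (P'.codRestrict (LinearMap.range (P' : HB (annu r1 r2) E →ₗ[ℂ] HB (annu r1 r2) E))
        (fun y => ⟨y, rfl⟩)), fun y => ?_⟩
    have h6 := LinearMap.congr_fun hL ⟨P' y, y, rfl⟩
    have h7 := congrArg Subtype.val h6
    have h8 := hA (L ⟨P' y, y, rfl⟩)
    exact h8.symm.trans h7
  obtain ⟨U, hU⟩ : ∃ U : HB (annu r1 r2) E →L[ℂ] HB (disc r2) E × HB (disc r1⁻¹) E,
      ∀ y, U y = R' (y - Bs (L' y)) :=
    ⟨R'.comp (ContinuousLinearMap.id ℂ _ - Bs.comp L'), fun y => rfl⟩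
  have hsplit : ∀ y, y = T2 (U y) + Bs (L' y) := by
    intro y
    have h6 := h3 (y - Bs (L' y))
    rw [map_sub P', hL', sub_self, add_zero, ← hU] at h6
    rw [h6]
    abel
  refine ⟨Cs.card, c, (ContinuousLinearMap.fst ℂ _ _).comp U,
    fun j => -((ContinuousLinearMap.proj j).comp L'),
    M2.comp ((ContinuousLinearMap.snd ℂ _ _).comp U), hcinj, hcD, ?_, ?_⟩
  · intro y
    exact ⟨(U y).2, fun η hη => hM2' (U y).2 η hη⟩
  · intro y z hz
    have h6 : y.fn z = (T2 (U y)).fn z + (Bs (L' y)).fn z := by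
      rw [← HB.fn_add, ← hsplit]
    have h7 : (Bs (L' y)).fn z = ∑ j, g z ((z - c j)⁻¹ • L' y j) := by
      rw [hBs, fn_sum]
      exact Finset.sum_congr rfl fun j _ => hB (c j) (hcD j) _ z hz
    have h8 : (T2 (U y)).fn z = (M2 (U y).2).fn z⁻¹ - g z ((U y).1.fn z) := by
      rw [hT2, hT _ z hz]
    rw [h6, h7, h8]
    change _ = (M2 (U y).2).fn z⁻¹ - g z ((U y).1.fn z + ∑ j, (z - c j)⁻¹ • (-(L' y j)))
    rw [map_add, map_sum]
    simp only [smul_neg, map_neg, Finset.sum_neg_distrib]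
    abel

end Pool.Agent.W_4d259d_h53
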