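import Pool.Agent.W_4d259d_h53.Cok2
import Pool.Agent.W_4d259d_h44.Sec16

/-!
# Block TD: `CokLemma E` (the hypothesis used in section 16) from `cok`
-/

noncomputable section

namespace Pool.Agent.W_4d259d_h53

open Set Filter Topology Metric TopologicalSpace Module
open Pool.Agent.W_4d259d_h46.Defs Pool.Agent.W_4d259d_h46 Pool.Agent.W_4d259d_h44

theorem cokLemma (E : Type) [NormedAddCommGroup E] [NormedSpace ℂ E] [FiniteDimensional ℂ E] :
    CokLemma E := by
  intro q1 r1 r2 q2 h1 h2 h3 h4 G hG hU c0 r0 hr0 hsub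
  have hg : GData q1 r1 r2 q2 G := ⟨h1, h2, h3, h4, hG, hU⟩
  obtain ⟨J, hJ, Rr, hR⟩ := cok hg (Dl := ball c0 r0) isOpen_ball ⟨c0, mem_ball_self hr0⟩
    (ball_subset_closedBall.trans hsub)
  exact ⟨J, Rr, fun j hj => hJ hj, hR⟩

end Pool.Agent.W_4d259d_h53
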