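import Pool.Agent.W_4d259d_h44.ApiC

/-!
# Block TD (V-TD 2): straightening a function with nonzero derivative
-/

noncomputable section

namespace Pool.Agent.W_4d259d_h53

open Set Filter Topology Metric Module
open scoped ContDiff

variable {V : Type*} [NormedAddCommGroup V] [NormedSpace ℂ V] [FiniteDimensional ℂ V]

/-- The kernel of the derivative of `ρ` at `x0`. -/
abbrev Ker1 (ρ : V → ℂ) (x0 : V) : Submodule ℂ V :=
  LinearMap.ker (fderiv ℂ ρ x0 : V →ₗ[ℂ] ℂ)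

theorem finrank_Ker1 {ρ : V → ℂ} {x0 : V} (h0 : fderiv ℂ ρ x0 ≠ 0) :
    finrank ℂ (Ker1 ρ x0) + 1 = finrank ℂ V := by
  have h1 : (fderiv ℂ ρ x0 : V →ₗ[ℂ] ℂ) ≠ 0 := by
    intro h
    exact h0 (ContinuousLinearMap.ext fun v => LinearMap.congr_fun h v)
  exact Module.Dual.finrank_ker_add_one_of_ne_zero h1

/-- Near a point where `dρ ≠ 0` there are holomorphic coordinates whose first coordinate is `ρ`.
Proof: choose a continuous linear projection `π : V → ker dρ(x0)` (finite dimension,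
`LinearMap.exists_leftInverse_of_injective` for the inclusion), put `h x = (ρ x, π x)`; its
derivative at `x0` is `v ↦ (dρ(x0) v, π v)`, injective, hence (`finrank`) an equivalence
`V ≃L[ℂ] ℂ × ker`.  Apply `ApiC.inverse_function` and take
`W = ball (h x0) r ∩ ψ ⁻¹' (ball x0 r')` (open), `N = ball x0 r' ∩ h ⁻¹' (...)` so that the two
maps are inverse to each other between `N` and `W`. -/
theorem straighten {U : Set V} (hU : IsOpen U) {ρ : V → ℂ} (hρ : DifferentiableOn ℂ ρ U)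
    {x0 : V} (hx : x0 ∈ U) (h0 : fderiv ℂ ρ x0 ≠ 0) :
    ∃ (h : V → ℂ × Ker1 ρ x0) (ψ : ℂ × Ker1 ρ x0 → V) (N : Set V) (W : Set (ℂ × Ker1 ρ x0)),
      IsOpen N ∧ x0 ∈ N ∧ N ⊆ U ∧ IsOpen W ∧ MapsTo h N W ∧ MapsTo ψ W N ∧
      (∀ x ∈ N, ψ (h x) = x) ∧ (∀ p ∈ W, h (ψ p) = p) ∧
      DifferentiableOn ℂ h N ∧ DifferentiableOn ℂ ψ W ∧ ∀ x ∈ N, (h x).1 = ρ x := by
  have : CompleteSpace V := FiniteDimensional.complete ℂ V
  obtain ⟨g0, hg0⟩ := (Ker1 ρ x0).subtype.exists_leftInverse_of_injective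
    (Submodule.ker_subtype _)
  set π : V →L[ℂ] Ker1 ρ x0 := LinearMap.toContinuousLinearMap g0 with hπ
  have hπk : ∀ k : Ker1 ρ x0, π (k : V) = k := fun k => LinearMap.congr_fun hg0 k
  set D : V →L[ℂ] ℂ := fderiv ℂ ρ x0 with hD
  set l : V →L[ℂ] ℂ × Ker1 ρ x0 := D.prod π with hl
  have hinj : Function.Injective (l : V →ₗ[ℂ] ℂ × Ker1 ρ x0) := by
    rw [← LinearMap.ker_eq_bot, LinearMap.ker_eq_bot']
    intro v hv
    have h1 : D v = 0 := congrArg Prod.fst hv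
    have h2 : π v = 0 := congrArg Prod.snd hv
    have h3 : v ∈ Ker1 ρ x0 := h1
    have h4 := hπk ⟨v, h3⟩
    have h5 : (⟨v, h3⟩ : Ker1 ρ x0) = 0 := by rw [← h4]; exact h2
    exact congrArg Subtype.val h5
  have hfin : finrank ℂ V = finrank ℂ (ℂ × Ker1 ρ x0) := by
    rw [Module.finrank_prod, Module.finrank_self, ← finrank_Ker1 h0, add_comm]
  set L : V ≃L[ℂ] ℂ × Ker1 ρ x0 :=
    (LinearEquiv.ofInjectiveOfFinrankEq (l : V →ₗ[ℂ] ℂ × Ker1 ρ x0) hinj hfin
      ).toContinuousLinearEquiv with hL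
  have hLl : (L : V →L[ℂ] ℂ × Ker1 ρ x0) = l := by
    ext1 v
    rfl
  set h : V → ℂ × Ker1 ρ x0 := fun x => (ρ x, π x) with hh
  have hhd : DifferentiableOn ℂ h U := hρ.prodMk π.differentiable.differentiableOn
  have hder : fderiv ℂ h x0 = (L : V →L[ℂ] ℂ × Ker1 ρ x0) := by
    rw [hLl]
    have h1 : HasFDerivAt ρ D x0 := (hρ.differentiableAt (hU.mem_nhds hx)).hasFDerivAt
    exact (h1.prodMk π.hasFDerivAt).fderiv
  obtain ⟨r, hr, g, hgd, hgx, hg, r', hr', hf⟩ :=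
    Pool.Agent.W_4d259d_h44.ApiC.inverse_function hU hhd hx L hder
  have hNU : ball x0 r' ⊆ U := by
    intro x hx
    obtain ⟨h1, h2⟩ := hf x hx
    rw [← h2]
    exact (hg _ h1).1
  refine ⟨h, g, ball x0 r', ball (h x0) r ∩ g ⁻¹' ball x0 r', isOpen_ball, mem_ball_self hr', hNU,
    hgd.continuousOn.isOpen_inter_preimage isOpen_ball isOpen_ball, ?_, ?_, ?_, ?_, hhd.mono hNU,
    hgd.mono inter_subset_left, fun x _ => rfl⟩
  · intro x hx
    obtain ⟨h1, h2⟩ := hf x hx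
    refine ⟨h1, ?_⟩
    show g (h x) ∈ ball x0 r'
    rw [h2]
    exact hx
  · intro y hy
    exact hy.2
  · intro x hx
    exact (hf x hx).2
  · intro y hy
    exact (hg y hy.1).2

end Pool.Agent.W_4d259d_h53
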