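import Pool.Agent.W_4d259d_h53.Flat
import Pool.Agent.W_4d259d_h53.Str

/-!
# Block TD (V-TD 3): a holomorphic map takes countably many values on the zero set of its derivative
-/

noncomputable section

namespace Pool.Agent.W_4d259d_h53

open Set Filter Topology Metric Module
open scoped ContDiff

universe u v

/-- A set of values is countable if it is locally countable. -/
theorem crit_of_local {α β : Type*} [TopologicalSpace α] [SecondCountableTopology α] (f : α → β)
    (A : Set α) (h : ∀ x ∈ A, ∃ N ∈ 𝓝 x, (f '' (A ∩ N)).Countable) : (f '' A).Countable := by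
  classical
  choose! N hN hc using h
  obtain ⟨t, htA, htc, hcov⟩ := TopologicalSpace.countable_cover_nhdsWithin
    (f := N) (s := A) (fun x hx => nhdsWithin_le_nhds (hN x hx))
  refine (htc.biUnion fun x hx => hc x (htA hx)).mono ?_
  rintro _ ⟨x, hx, rfl⟩
  obtain ⟨y, hy, hxy⟩ := mem_iUnion₂.mp (hcov hx)
  exact mem_iUnion₂.mpr ⟨y, hy, ⟨x, ⟨hx, hxy⟩, rfl⟩⟩

/-- A critical point with a nonvanishing iterated derivative lies in the regular part of the zero
set of some iterated derivative of order at least one. -/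
theorem crit_word {V : Type*} [NormedAddCommGroup V] [NormedSpace ℂ V] {ι : Type*} (b : ι → V)
    (f : V → ℂ) {x : V} (hx : fderiv ℂ f x = 0) (w' : List ι) :
    w' ≠ [] → dw b f w' x ≠ 0 → ∃ w : List ι, w ≠ [] ∧ dw b f w x = 0 ∧
      fderiv ℂ (dw b f w) x ≠ 0 := by
  induction w' with
  | nil => intro h; exact absurd rfl h
  | cons i w ih =>
    intro _ hne
    by_cases hw : w = []
    · subst hw
      exfalso
      apply hne
      show fderiv ℂ f x (b i) = 0
      rw [hx]
      rfl
    · by_cases h0 : dw b f w x = 0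
      · refine ⟨w, hw, h0, ?_⟩
        intro h1
        apply hne
        show fderiv ℂ (dw b f w) x (b i) = 0
        rw [h1]
        rfl
      · exact ih hw h0

/-- Critical values of a holomorphic function on a finite dimensional space are countable.
Proof by strong induction on `n`.  `b` a basis of `V`, `C = {x ∈ U | fderiv ℂ f x = 0}`.
`C ⊆ B ∪ ⋃_w A_w` over the nonempty words `w` (countably many), where `B` = points where all
`dw b f w`, `w ≠ []`, vanish, and `A_w = {x ∈ C | dw b f w x = 0, fderiv ℂ (dw b f w) x ≠ 0}`: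
if `x ∉ B` take a nonempty word `w' = i :: w` of minimal length with `dw b f w' x ≠ 0`; then
`w ≠ []` (as `fderiv ℂ f x = 0`), `dw b f w x = 0` by minimality and
`fderiv ℂ (dw b f w) x (b i) ≠ 0`.
(1) `f '' B` is countable: `f` is constant near each point of `B` (`const_near_of_flat`); `B` is
Lindelof (second countable), so countably many such neighbourhoods cover `B`.
(2) `f '' A_w` is countable: by Lindelof it is enough to show that each `x0 ∈ A_w` has an open
neighbourhood `N` with `f '' (A_w ∩ N)` countable.  Take `straighten` for `ρ = dw b f w`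
(differentiable on `U` by `dw_diff`) at `x0`.  For `x ∈ A_w ∩ N` we have `(h x).1 = ρ x = 0`, so
`x = ψ (0, y)` with `y = (h x).2`, and `k y = f (ψ (0, y))` is complex differentiable on the open
set `{y | (0, y) ∈ W}` of the kernel (dimension `n - 1`), with derivative `0` at `y` (chain rule,
`fderiv ℂ f x = 0`).  So `f '' (A_w ∩ N)` is contained in the image of the critical set of `k`,
countable by induction.  (If `n = 0` then `A_w` is empty because `ρ` has derivative `0`.) -/
theorem countable_crit (n : ℕ) : ∀ (V : Type u) [NormedAddCommGroup V] [NormedSpace ℂ V]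
    [FiniteDimensional ℂ V], finrank ℂ V = n → ∀ U : Set V, IsOpen U → ∀ f : V → ℂ,
    DifferentiableOn ℂ f U → (f '' {x ∈ U | fderiv ℂ f x = 0}).Countable := by
  induction n using Nat.strong_induction_on with
  | _ n ih =>
  intro V _ _ _ hn U hU f hf
  have _ : ProperSpace V := FiniteDimensional.proper ℂ V
  set b := Module.finBasis ℂ V with hb
  set B : Set V := {x ∈ U | ∀ w : List _, w ≠ [] → dw b f w x = 0} with hB
  set A : List _ → Set V := fun w => {x ∈ U | fderiv ℂ f x = 0 ∧ dw b f w x = 0 ∧
    fderiv ℂ (dw b f w) x ≠ 0} with hA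
  have hcov : {x ∈ U | fderiv ℂ f x = 0} ⊆ B ∪ ⋃ w, A w := by
    rintro x ⟨hxU, hx⟩
    by_cases hxB : ∀ w : List _, w ≠ [] → dw b f w x = 0
    · exact Or.inl ⟨hxU, hxB⟩
    · right
      push Not at hxB
      obtain ⟨w', hw', hne⟩ := hxB
      obtain ⟨w, -, h0, h1⟩ := crit_word b f hx w' hw' hne
      exact mem_iUnion.mpr ⟨w, hxU, hx, h0, h1⟩
  have hBc : (f '' B).Countable := by
    refine crit_of_local f B fun x hx => ?_
    have h1 := const_near_of_flat b hU hf hx.1 hx.2
    refine ⟨_, h1, (countable_singleton (f x)).mono ?_⟩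
    rintro _ ⟨y, ⟨-, hy⟩, rfl⟩
    exact hy
  have hAc : ∀ w, (f '' A w).Countable := by
    intro w
    refine crit_of_local f (A w) fun x0 hx0 => ?_
    obtain ⟨hxU, -, -, hne⟩ := hx0
    obtain ⟨h, ψ, N, W, hNo, hxN, hNU, hWo, hhm, hψm, hψh, hhψ, hhd, hψd, hfst⟩ :=
      straighten hU (dw_diff b hU hf w) hxU hne
    refine ⟨N, hNo.mem_nhds hxN, ?_⟩
    have hfin := finrank_Ker1 hne
    have hlt : finrank ℂ (Ker1 (dw b f w) x0) < n := by omega
    set k : Ker1 (dw b f w) x0 → ℂ := fun y => f (ψ (0, y)) with hk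
    set W' : Set (Ker1 (dw b f w) x0) := {y | ((0 : ℂ), y) ∈ W} with hW'
    have hW'o : IsOpen W' := hWo.preimage (by fun_prop)
    have hdψ : ∀ y ∈ W', DifferentiableAt ℂ (fun y : Ker1 (dw b f w) x0 => ψ (0, y)) y := by
      intro y hy
      have h1 : DifferentiableAt ℂ ψ ((0 : ℂ), y) := hψd.differentiableAt (hWo.mem_nhds hy)
      have h2 : DifferentiableAt ℂ (fun y : Ker1 (dw b f w) x0 => ((0 : ℂ), y)) y := by fun_prop
      exact h1.comp y h2
    have hkd : DifferentiableOn ℂ k W' := by
      intro y hy
      have h1 : DifferentiableAt ℂ f (ψ (0, y)) :=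
        hf.differentiableAt (hU.mem_nhds (hNU (hψm hy)))
      exact (h1.comp y (hdψ y hy)).differentiableWithinAt
    refine (ih _ hlt (Ker1 (dw b f w) x0) rfl W' hW'o k hkd).mono ?_
    rintro _ ⟨x, ⟨⟨hxU', hcrit, h0, -⟩, hxN'⟩, rfl⟩
    have hhx : h x = (0, (h x).2) := by
      refine Prod.ext ?_ rfl
      rw [hfst x hxN', h0]
    have hyW : (h x).2 ∈ W' := by
      show ((0 : ℂ), (h x).2) ∈ W
      rw [← hhx]
      exact hhm hxN'
    have hxy : ψ (0, (h x).2) = x := by
      rw [← hhx]
      exact hψh x hxN'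
    refine ⟨(h x).2, ⟨hyW, ?_⟩, ?_⟩
    · have h1 : DifferentiableAt ℂ f (ψ (0, (h x).2)) := by
        rw [hxy]
        exact hf.differentiableAt (hU.mem_nhds hxU')
      have h2 := h1.hasFDerivAt.comp (h x).2 (hdψ _ hyW).hasFDerivAt
      have h3 : fderiv ℂ f (ψ (0, (h x).2)) = 0 := by rw [hxy]; exact hcrit
      rw [h3] at h2
      have h4 : HasFDerivAt k (0 : Ker1 (dw b f w) x0 →L[ℂ] ℂ) (h x).2 := by
        have := h2
        rw [ContinuousLinearMap.zero_comp] at this
        exact this
      exact h4.fderiv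
    · show f (ψ (0, (h x).2)) = f x
      rw [hxy]
  refine ((hBc.union (countable_iUnion hAc))).mono ?_
  rw [← image_iUnion, ← image_union]
  exact image_mono hcov

/-- The same for vector valued maps: each of the finitely many components takes countably many
values on `{fderiv g = 0}` (`countable_crit`), and a map into `Fin m → ℂ` (via a basis of `G`) with
countable component images has a countable image. -/
theorem countable_crit_vec (V : Type u) [NormedAddCommGroup V] [NormedSpace ℂ V]
    [FiniteDimensional ℂ V] (G : Type v) [NormedAddCommGroup G] [NormedSpace ℂ G]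
    [FiniteDimensional ℂ G] (U : Set V) (hU : IsOpen U) (g : V → G)
    (hg : DifferentiableOn ℂ g U) : (g '' {x ∈ U | fderiv ℂ g x = 0}).Countable := by
  set b := Module.finBasis ℂ G with hb
  set L : Fin (finrank ℂ G) → (G →L[ℂ] ℂ) := fun i => LinearMap.toContinuousLinearMap (b.coord i)
    with hL
  have hc : ∀ i, ((fun x => L i (g x)) ''
      {x ∈ U | fderiv ℂ (fun x => L i (g x)) x = 0}).Countable := by
    intro i
    refine countable_crit _ V rfl U hU _ ?_
    exact (L i).differentiable.comp_differentiableOn hg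
  have hpi := Set.countable_univ_pi hc
  refine (hpi.image (fun c => ∑ i, c i • b i)).mono ?_
  rintro _ ⟨x, ⟨hxU, hx⟩, rfl⟩
  refine ⟨fun i => L i (g x), ?_, ?_⟩
  · intro i _
    refine ⟨x, ⟨hxU, ?_⟩, rfl⟩
    have h1 : DifferentiableAt ℂ g x := hg.differentiableAt (hU.mem_nhds hxU)
    have h2 := (L i).hasFDerivAt.comp x h1.hasFDerivAt
    rw [hx, ContinuousLinearMap.comp_zero] at h2
    exact h2.fderiv
  · show ∑ i, (b.coord i (g x)) • b i = g x
    exact b.sum_repr (g x)

end Pool.Agent.W_4d259d_h53
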