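import Pool.Agent.W_4d259d_h53.Tay

/-!
# Block TD (V-TD 11): the operator `T_g`, finite rank pieces
-/

noncomputable section

namespace Pool.Agent.W_4d259d_h53

open Set Filter Topology Metric TopologicalSpace Module
open Pool.Agent.W_4d259d_h46.Defs Pool.Agent.W_4d259d_h46 Pool.Agent.W_4d259d_h44

variable {E : Type*} [NormedAddCommGroup E] [NormedSpace ℂ E]

/-- `g` is holomorphic and invertible on the annulus `q1 < |z| < q2`, `q1 < r1 < r2 < q2`. -/
structure GData (q1 r1 r2 q2 : ℝ) (g : ℂ → E →L[ℂ] E) : Prop where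
  h1 : 0 < q1
  h2 : q1 < r1
  h3 : r1 < r2
  h4 : r2 < q2
  hol : DifferentiableOn ℂ g (annu q1 q2 : Set ℂ)
  unit : ∀ z ∈ annu q1 q2, IsUnit (g z)

/-- `T` is the operator `T_g (v0, vi) = vi(1/z) - g(z) v0(z)`. -/
def IsTg {r1 r2 : ℝ} (g : ℂ → E →L[ℂ] E)
    (T : HB (disc r2) E × HB (disc r1⁻¹) E →L[ℂ] HB (annu r1 r2) E) : Prop :=
  ∀ v, ∀ z ∈ annu r1 r2, (T v).fn z = v.2.fn z⁻¹ - g z (v.1.fn z)

variable {q1 r1 r2 q2 : ℝ} {g : ℂ → E →L[ℂ] E}

/-- `g` and its inverse are bounded on `r1 ≤ |z| ≤ r2` (compactness); the inverse is holomorphic. -/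
theorem GData.bounds [CompleteSpace E] (hg : GData q1 r1 r2 q2 g) :
    ∃ C : ℝ, 0 ≤ C ∧ (∀ z, r1 ≤ ‖z‖ → ‖z‖ ≤ r2 → ‖g z‖ ≤ C ∧ ‖Ring.inverse (g z)‖ ≤ C) ∧
      DifferentiableOn ℂ (fun z => Ring.inverse (g z)) (annu q1 q2 : Set ℂ) := by
  have hinv : DifferentiableOn ℂ (fun z => Ring.inverse (g z)) (annu q1 q2 : Set ℂ) := by
    intro z hz
    exact DifferentiableWithinAt.inverse (hg.hol z hz) (hg.unit z hz)
  have hKs : {z : ℂ | r1 ≤ ‖z‖ ∧ ‖z‖ ≤ r2} ⊆ (annu q1 q2 : Set ℂ) := by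
    rintro z ⟨hz1, hz2⟩
    exact ⟨lt_of_lt_of_le hg.h2 hz1, lt_of_le_of_lt hz2 hg.h4⟩
  have hK : IsCompact {z : ℂ | r1 ≤ ‖z‖ ∧ ‖z‖ ≤ r2} := by
    apply (isCompact_closedBall (0 : ℂ) r2).of_isClosed_subset
    · exact (isClosed_le continuous_const continuous_norm).inter
        (isClosed_le continuous_norm continuous_const)
    · rintro z ⟨_, hz2⟩
      rw [mem_closedBall_zero_iff]
      exact hz2
  obtain ⟨C1, hC1⟩ := hK.exists_bound_of_continuousOn (hg.hol.continuousOn.mono hKs)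
  obtain ⟨C2, hC2⟩ := hK.exists_bound_of_continuousOn (hinv.continuousOn.mono hKs)
  refine ⟨max 0 (max C1 C2), le_max_left _ _, fun z hz1 hz2 => ⟨?_, ?_⟩, hinv⟩
  · exact (hC1 z ⟨hz1, hz2⟩).trans ((le_max_left _ _).trans (le_max_right _ _))
  · exact (hC2 z ⟨hz1, hz2⟩).trans ((le_max_right _ _).trans (le_max_right _ _))

private theorem FDef_annu_sub (h2 : q1 < r1) (h4 : r2 < q2) :
    (annu r1 r2 : Set ℂ) ⊆ (annu q1 q2 : Set ℂ) := by
  rintro z ⟨hz1, hz2⟩
  exact ⟨h2.trans hz1, hz2.trans h4⟩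

private theorem FDef_mulOp (h2 : q1 < r1) (h4 : r2 < q2) {A : ℂ → E →L[ℂ] E}
    (hA : DifferentiableOn ℂ A (annu q1 q2 : Set ℂ)) {C : ℝ} (hC : 0 ≤ C)
    (hb : ∀ z, r1 ≤ ‖z‖ → ‖z‖ ≤ r2 → ‖A z‖ ≤ C) :
    ∃ S : HB (annu r1 r2) E →L[ℂ] HB (annu r1 r2) E, ‖S‖ ≤ C ∧
      ∀ f, ∀ z ∈ annu r1 r2, (S f).fn z = A z (f.fn z) :=
  exists_mulOp A (holOn_iff.2 (hA.mono (FDef_annu_sub h2 h4))) C hC
    (fun z hz => hb z hz.1.le hz.2.le)

private theorem FDef_res : ∃ S : HB (disc r2) E →L[ℂ] HB (annu r1 r2) E, ‖S‖ ≤ 1 ∧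
    ∀ f, ∀ z ∈ annu r1 r2, (S f).fn z = f.fn z :=
  exists_res (fun z hz => by
    change z ∈ ball (0 : ℂ) r2
    rw [mem_ball_zero_iff]
    exact hz.2)

theorem exists_Tg [CompleteSpace E] (hg : GData q1 r1 r2 q2 g) :
    ∃ T : HB (disc r2) E × HB (disc r1⁻¹) E →L[ℂ] HB (annu r1 r2) E, IsTg g T := by
  obtain ⟨C, hC, hb, -⟩ := hg.bounds
  obtain ⟨M, -, hM⟩ := FDef_mulOp (E := E) hg.h2 hg.h4 hg.hol hC (fun z h1 h2 => (hb z h1 h2).1)
  obtain ⟨S, -, hS⟩ := FDef_res (E := E) (r1 := r1) (r2 := r2)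
  obtain ⟨I, -, hI⟩ := exists_invOp (F := E) (hg.h1.trans hg.h2) hg.h3
  refine ⟨I.comp (ContinuousLinearMap.snd ℂ _ _) -
    (M.comp S).comp (ContinuousLinearMap.fst ℂ _ _), fun v z hz => ?_⟩
  have e : (I.comp (ContinuousLinearMap.snd ℂ (HB (disc r2) E) (HB (disc r1⁻¹) E)) -
    (M.comp S).comp (ContinuousLinearMap.fst ℂ (HB (disc r2) E) (HB (disc r1⁻¹) E))) v =
      I v.2 - M (S v.1) := rfl
  rw [e, HB.fn_sub, hI _ z hz, hM _ z hz, hS _ z hz]

/-- `z ↦ A(z) x(1/z)` as a bounded operator, `A` holomorphic on `q1 < |z| < q2`. -/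
theorem exists_mulInv [CompleteSpace E] (h1 : 0 < q1) (h2 : q1 < r1) (h3 : r1 < r2)
    (h4 : r2 < q2) {A : ℂ → E →L[ℂ] E} (hA : DifferentiableOn ℂ A (annu q1 q2 : Set ℂ)) {C : ℝ}
    (hC : 0 ≤ C) (hb : ∀ z, r1 ≤ ‖z‖ → ‖z‖ ≤ r2 → ‖A z‖ ≤ C) :
    ∃ S : HB (disc r1⁻¹) E →L[ℂ] HB (annu r1 r2) E, ‖S‖ ≤ C ∧
      ∀ x, ∀ z ∈ annu r1 r2, (S x).fn z = A z (x.fn z⁻¹) := by
  obtain ⟨M, hMn, hM⟩ := FDef_mulOp (E := E) h2 h4 hA hC hb
  obtain ⟨I, hIn, hI⟩ := exists_invOp (F := E) (h1.trans h2) h3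
  refine ⟨M.comp I, ?_, fun x z hz => ?_⟩
  · calc ‖M.comp I‖ ≤ ‖M‖ * ‖I‖ := ContinuousLinearMap.opNorm_comp_le _ _
      _ ≤ C * 1 := mul_le_mul hMn hIn (ContinuousLinearMap.opNorm_nonneg _) hC
      _ = C := mul_one C
  · rw [ContinuousLinearMap.comp_apply, hM _ z hz, hI _ z hz]

/-- `z ↦ A(z) x(z)` as a bounded operator. -/
theorem exists_mulZ [CompleteSpace E] (h1 : 0 < q1) (h2 : q1 < r1) (h3 : r1 < r2)
    (h4 : r2 < q2) {A : ℂ → E →L[ℂ] E} (hA : DifferentiableOn ℂ A (annu q1 q2 : Set ℂ)) {C : ℝ}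
    (hC : 0 ≤ C) (hb : ∀ z, r1 ≤ ‖z‖ → ‖z‖ ≤ r2 → ‖A z‖ ≤ C) :
    ∃ S : HB (disc r2) E →L[ℂ] HB (annu r1 r2) E, ‖S‖ ≤ C ∧
      ∀ x, ∀ z ∈ annu r1 r2, (S x).fn z = A z (x.fn z) := by
  obtain ⟨M, hMn, hM⟩ := FDef_mulOp (E := E) h2 h4 hA hC hb
  obtain ⟨I, hIn, hI⟩ := FDef_res (E := E) (r1 := r1) (r2 := r2)
  refine ⟨M.comp I, ?_, fun x z hz => ?_⟩
  · calc ‖M.comp I‖ ≤ ‖M‖ * ‖I‖ := ContinuousLinearMap.opNorm_comp_le _ _
      _ ≤ C * 1 := mul_le_mul hMn hIn (ContinuousLinearMap.opNorm_nonneg _) hC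
      _ = C := mul_one C
  · rw [ContinuousLinearMap.comp_apply, hM _ z hz, hI _ z hz]

private theorem FDef_diff {r : ℝ} (x : HB (disc r) E) : DifferentiableOn ℂ x.fn (ball 0 r) :=
  holOn_iff.1 x.fn_hol

private theorem FDef_mem_annu (h1 : 0 < r1) {z : ℂ} (hz : z ∈ annu r1 r2) :
    z ≠ 0 ∧ z ∈ ball (0 : ℂ) r2 ∧ z⁻¹ ∈ ball (0 : ℂ) r1⁻¹ := by
  have hn : 0 < ‖z‖ := h1.trans hz.1
  refine ⟨norm_pos_iff.1 hn, ?_, ?_⟩
  · rw [mem_ball_zero_iff]
    exact hz.2
  · rw [mem_ball_zero_iff, norm_inv]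
    exact (inv_lt_inv₀ hn h1).2 hz.1

/-- reindexing of the polynomial part -/
private theorem FDef_reindex {n : ℕ} {i : ℕ} (hi : i ∈ Finset.range n) (z : ℂ) (hz : z ≠ 0)
    (B : ℕ → E) :
    z ^ i • ∑ j ∈ Finset.range (i + 1), z⁻¹ ^ j • B j =
      ∑ k ∈ Finset.range (n + 1), z ^ k • (if k ≤ i then B (i - k) else 0) := by
  rw [Finset.mem_range] at hi
  have h1 : ∑ k ∈ Finset.range (n + 1), z ^ k • (if k ≤ i then B (i - k) else (0 : E)) =
      ∑ k ∈ Finset.range (i + 1), z ^ k • B (i - k) := by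
    symm
    apply Finset.sum_subset_zero_on_sdiff
    · intro k hk
      rw [Finset.mem_range] at hk ⊢
      omega
    · intro k hk
      rw [Finset.mem_sdiff, Finset.mem_range, Finset.mem_range] at hk
      rw [if_neg (by omega), smul_zero]
    · intro k hk
      rw [Finset.mem_range] at hk
      rw [if_pos (by omega)]
  rw [h1, Finset.smul_sum, ← Finset.sum_range_reflect]
  apply Finset.sum_congr rfl
  intro k hk
  rw [Finset.mem_range] at hk
  rw [show i + 1 - 1 - k = i - k by omega, smul_smul]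
  congr 1
  rw [inv_pow, ← div_eq_mul_inv, div_eq_iff (pow_ne_zero _ hz), ← pow_add]
  congr 1
  omega

/-- The plus part of `z^i A x(1/z)` and of `z^(-i) A x(1/z)` is a polynomial in `z` of degree `≤ i`
(resp. a constant), whose coefficients are bounded linear in `x`: write
`x(η) = ∑_{j ≤ i} c_j η^j + η^(i+1) Q(η)` (`taylor_split`), so
`z^i A x(1/z) = ∑_{j ≤ i} z^(i-j) A c_j + η A Q(η)`, and use `laurent_unique`. -/
theorem plus_part [CompleteSpace E] (h1 : 0 < r1) (h3 : r1 < r2)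
    {Pp : HB (annu r1 r2) E →L[ℂ] HB (disc r2) E} {Pm : HB (annu r1 r2) E →L[ℂ] HB (disc r1⁻¹) E}
    (hP : ∀ y, (∀ z ∈ annu r1 r2, y.fn z = (Pp y).fn z + (Pm y).fn z⁻¹) ∧ (Pm y).fn 0 = 0)
    (n : ℕ) (A A' : ℕ → E →L[ℂ] E)
    {S : HB (disc r1⁻¹) E →L[ℂ] HB (annu r1 r2) E}
    (hS : ∀ x, ∀ z ∈ annu r1 r2, (S x).fn z =
      (∑ i ∈ Finset.range n, z ^ i • A i + ∑ i ∈ Finset.range n, z⁻¹ ^ i • A' i) (x.fn z⁻¹)) :
    ∃ c : ℕ → HB (disc r1⁻¹) E →L[ℂ] E, ∀ x, ∀ z ∈ disc r2,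
      (Pp (S x)).fn z = ∑ i ∈ Finset.range (n + 1), z ^ i • c i x := by
  have hsplit := fun i : ℕ => taylor_split (F := E) (inv_pos.2 h1) (i + 1)
  choose c Q hcQ using hsplit
  set ev : HB (disc r1⁻¹) E →L[ℂ] E := evL (0 : ℂ) with hev
  have h0mem : (0 : ℂ) ∈ ball (0 : ℂ) r1⁻¹ := mem_ball_self (inv_pos.2 h1)
  refine ⟨fun k => (∑ i ∈ Finset.range n, if k ≤ i then (A i).comp (c i (i - k)) else 0) +
    (if k = 0 ∧ 0 < n then (A' 0).comp ev else 0), fun x => ?_⟩
  -- the two functions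
  set K : E := if 0 < n then A' 0 (x.fn 0) else 0 with hK
  set f : ℂ → E := fun z => (∑ i ∈ Finset.range n, ∑ k ∈ Finset.range (n + 1),
    z ^ k • (if k ≤ i then A i (c i (i - k) x) else 0)) + K with hf
  set m : ℂ → E := fun η => (∑ i ∈ Finset.range n, η • A i ((Q i x).fn η)) +
    (∑ i ∈ Finset.range n, η ^ i • A' i (x.fn η)) - K with hm
  have hfd : DifferentiableOn ℂ f (ball 0 r2) := by
    apply Differentiable.differentiableOn
    apply Differentiable.add_const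
    apply Differentiable.fun_sum
    intro i _
    apply Differentiable.fun_sum
    intro k _
    exact (differentiable_id.pow k).smul_const _
  have hmd : DifferentiableOn ℂ m (ball 0 r1⁻¹) := by
    apply DifferentiableOn.sub_const
    apply DifferentiableOn.add
    · apply DifferentiableOn.fun_sum
      intro i _
      exact differentiableOn_id.smul ((A i).differentiable.comp_differentiableOn (FDef_diff _))
    · apply DifferentiableOn.fun_sum
      intro i _
      exact (differentiableOn_id.pow i).smul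
        ((A' i).differentiable.comp_differentiableOn (FDef_diff _))
  have hm0 : m 0 = 0 := by
    simp only [hm, zero_smul, Finset.sum_const_zero, zero_add]
    rcases Nat.eq_zero_or_pos n with hn | hn
    · subst hn
      simp [hK]
    · rw [Finset.sum_eq_single_of_mem 0 (Finset.mem_range.2 hn)]
      · simp [hK, hn]
      · intro i _ hi
        rw [zero_pow hi, zero_smul]
  have hfm : ∀ z ∈ annu r1 r2, (S x).fn z = f z + m z⁻¹ := by
    intro z hz
    obtain ⟨hz0, _, hzi⟩ := FDef_mem_annu h1 hz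
    rw [hS x z hz, ContinuousLinearMap.add_apply, ContinuousLinearMap.sum_apply,
      ContinuousLinearMap.sum_apply]
    have e1 : ∑ i ∈ Finset.range n, (z ^ i • A i) (x.fn z⁻¹) =
        (∑ i ∈ Finset.range n, ∑ k ∈ Finset.range (n + 1),
          z ^ k • (if k ≤ i then A i (c i (i - k) x) else 0)) +
        ∑ i ∈ Finset.range n, z⁻¹ • A i ((Q i x).fn z⁻¹) := by
      rw [← Finset.sum_add_distrib]
      apply Finset.sum_congr rfl
      intro i hi
      rw [← FDef_reindex hi z hz0 (fun j => A i (c i j x)), ContinuousLinearMap.smul_apply,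
        hcQ i x z⁻¹ hzi, map_add, map_sum, smul_add]
      congr 1
      · simp only [map_smul]
      · rw [map_smul, smul_smul]
        congr 1
        rw [pow_succ, ← mul_assoc, ← mul_pow, mul_inv_cancel₀ hz0, one_pow, one_mul]
    rw [e1]
    simp only [hf, hm, ContinuousLinearMap.smul_apply]
    abel
  have huniq := (laurent_unique (F := E) h1 h3 (f := fun z => (Pp (S x)).fn z - f z)
    (m := fun η => (Pm (S x)).fn η - m η) ((FDef_diff _).sub hfd) ((FDef_diff _).sub hmd)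
    (by
      show (Pm (S x)).fn 0 - m 0 = 0
      rw [(hP (S x)).2, hm0, sub_zero])
    (by
      intro z hz
      have e2 := (hP (S x)).1 z hz
      rw [hfm z hz] at e2
      show (Pp (S x)).fn z - f z + ((Pm (S x)).fn z⁻¹ - m z⁻¹) = 0
      rw [sub_add_sub_comm, ← e2, sub_self])).1
  intro z hz
  have e3 := huniq z hz
  rw [sub_eq_zero] at e3
  rw [e3]
  simp only [hf]
  rw [Finset.sum_comm]
  have e4 : ∀ k ∈ Finset.range (n + 1), z ^ k • ((∑ i ∈ Finset.range n,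
      (if k ≤ i then (A i).comp (c i (i - k)) else 0)) +
      (if k = 0 ∧ 0 < n then (A' 0).comp ev else 0) : HB (disc r1⁻¹) E →L[ℂ] E) x =
      (∑ i ∈ Finset.range n, z ^ k • (if k ≤ i then A i (c i (i - k) x) else 0)) +
        (if k = 0 then K else 0) := by
    intro k _
    rw [ContinuousLinearMap.add_apply, ContinuousLinearMap.sum_apply, smul_add, Finset.smul_sum]
    congr 1
    · apply Finset.sum_congr rfl
      intro i _
      by_cases hki : k ≤ i
      · rw [if_pos hki, if_pos hki]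
        rfl
      · rw [if_neg hki, if_neg hki]
        rfl
    · by_cases hk : k = 0
      · subst hk
        rw [pow_zero, one_smul, if_pos rfl]
        by_cases hn : 0 < n
        · rw [if_pos ⟨rfl, hn⟩, hK, if_pos hn]
          rfl
        · rw [if_neg (fun h => hn h.2), hK, if_neg hn]
          rfl
      · rw [if_neg (fun h => hk h.1), if_neg hk]
        simp
  rw [Finset.sum_congr rfl e4, Finset.sum_add_distrib, Finset.sum_ite_eq' (Finset.range (n + 1)) 0,
    if_pos (Finset.mem_range.2 (Nat.succ_pos n))]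

/-- The minus part of a Laurent polynomial times `x(z)`: a polynomial in `η = 1/z`. -/
theorem minus_part [CompleteSpace E] (h1 : 0 < r1) (h3 : r1 < r2)
    {Pp : HB (annu r1 r2) E →L[ℂ] HB (disc r2) E} {Pm : HB (annu r1 r2) E →L[ℂ] HB (disc r1⁻¹) E}
    (hP : ∀ y, (∀ z ∈ annu r1 r2, y.fn z = (Pp y).fn z + (Pm y).fn z⁻¹) ∧ (Pm y).fn 0 = 0)
    (n : ℕ) (A A' : ℕ → E →L[ℂ] E)
    {S : HB (disc r2) E →L[ℂ] HB (annu r1 r2) E}
    (hS : ∀ x, ∀ z ∈ annu r1 r2, (S x).fn z =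
      (∑ i ∈ Finset.range n, z ^ i • A i + ∑ i ∈ Finset.range n, z⁻¹ ^ i • A' i) (x.fn z)) :
    ∃ c : ℕ → HB (disc r2) E →L[ℂ] E, ∀ x, ∀ η ∈ disc r1⁻¹,
      (Pm (S x)).fn η = ∑ i ∈ Finset.range (n + 1), η ^ i • c i x := by
  have hr2 : 0 < r2 := h1.trans h3
  have hsplit := fun i : ℕ => taylor_split (F := E) hr2 (i + 1)
  choose c Q hcQ using hsplit
  refine ⟨fun k => ∑ i ∈ Finset.range n,
    if k ≤ i ∧ k ≠ 0 then (A' i).comp (c i (i - k)) else 0, fun x => ?_⟩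
  set K : ℕ → E := fun i => A' i (c i i x) with hK
  set m : ℂ → E := fun η => ∑ i ∈ Finset.range n, ((∑ k ∈ Finset.range (n + 1),
    η ^ k • (if k ≤ i then A' i (c i (i - k) x) else 0)) - K i) with hm
  set f : ℂ → E := fun z => (∑ i ∈ Finset.range n, z • A' i ((Q i x).fn z)) +
    (∑ i ∈ Finset.range n, z ^ i • A i (x.fn z)) + ∑ i ∈ Finset.range n, K i with hf
  have hmd : DifferentiableOn ℂ m (ball 0 r1⁻¹) := by
    apply Differentiable.differentiableOn
    apply Differentiable.fun_sum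
    intro i _
    apply Differentiable.sub_const
    apply Differentiable.fun_sum
    intro k _
    exact (differentiable_id.pow k).smul_const _
  have hfd : DifferentiableOn ℂ f (ball 0 r2) := by
    apply DifferentiableOn.add_const
    apply DifferentiableOn.add
    · apply DifferentiableOn.fun_sum
      intro i _
      exact differentiableOn_id.smul ((A' i).differentiable.comp_differentiableOn (FDef_diff _))
    · apply DifferentiableOn.fun_sum
      intro i _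
      exact (differentiableOn_id.pow i).smul
        ((A i).differentiable.comp_differentiableOn (FDef_diff _))
  have hm0 : m 0 = 0 := by
    simp only [hm]
    apply Finset.sum_eq_zero
    intro i _
    rw [Finset.sum_eq_single_of_mem 0 (Finset.mem_range.2 (Nat.succ_pos n))]
    · simp [hK]
    · intro k _ hk
      rw [zero_pow hk, zero_smul]
  have hfm : ∀ z ∈ annu r1 r2, (S x).fn z = f z + m z⁻¹ := by
    intro z hz
    obtain ⟨hz0, hzb, _⟩ := FDef_mem_annu h1 hz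
    rw [hS x z hz, ContinuousLinearMap.add_apply, ContinuousLinearMap.sum_apply,
      ContinuousLinearMap.sum_apply]
    have e1 : ∑ i ∈ Finset.range n, (z⁻¹ ^ i • A' i) (x.fn z) =
        (∑ i ∈ Finset.range n, ∑ k ∈ Finset.range (n + 1),
          z⁻¹ ^ k • (if k ≤ i then A' i (c i (i - k) x) else 0)) +
        ∑ i ∈ Finset.range n, z • A' i ((Q i x).fn z) := by
      rw [← Finset.sum_add_distrib]
      apply Finset.sum_congr rfl
      intro i hi
      have e5 := FDef_reindex hi z⁻¹ (inv_ne_zero hz0) (fun j => A' i (c i j x))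
      rw [inv_inv] at e5
      rw [← e5, ContinuousLinearMap.smul_apply, hcQ i x z hzb, map_add, map_sum, smul_add]
      congr 1
      · simp only [map_smul]
      · rw [map_smul, smul_smul]
        congr 1
        rw [pow_succ, ← mul_assoc, ← mul_pow, inv_mul_cancel₀ hz0, one_pow, one_mul]
    rw [e1]
    simp only [hf, hm, ContinuousLinearMap.smul_apply, Finset.sum_sub_distrib]
    abel
  have huniq := (laurent_unique (F := E) h1 h3 (f := fun z => (Pp (S x)).fn z - f z)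
    (m := fun η => (Pm (S x)).fn η - m η) ((FDef_diff _).sub hfd) ((FDef_diff _).sub hmd)
    (by
      show (Pm (S x)).fn 0 - m 0 = 0
      rw [(hP (S x)).2, hm0, sub_zero])
    (by
      intro z hz
      have e2 := (hP (S x)).1 z hz
      rw [hfm z hz] at e2
      show (Pp (S x)).fn z - f z + ((Pm (S x)).fn z⁻¹ - m z⁻¹) = 0
      rw [sub_add_sub_comm, ← e2, sub_self])).2
  intro η hη
  have e3 := huniq η hη
  rw [sub_eq_zero] at e3
  rw [e3]
  simp only [hm]
  have e6 : ∀ i ∈ Finset.range n, (∑ k ∈ Finset.range (n + 1),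
      η ^ k • (if k ≤ i then A' i (c i (i - k) x) else 0)) - K i =
      ∑ k ∈ Finset.range (n + 1),
        η ^ k • (if k ≤ i ∧ k ≠ 0 then A' i (c i (i - k) x) else 0) := by
    intro i _
    rw [Finset.sum_range_succ', Finset.sum_range_succ']
    simp [hK]
  rw [Finset.sum_congr rfl e6, Finset.sum_comm]
  apply Finset.sum_congr rfl
  intro k _
  rw [ContinuousLinearMap.sum_apply, Finset.smul_sum]
  apply Finset.sum_congr rfl
  intro i _
  by_cases hki : k ≤ i ∧ k ≠ 0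
  · rw [if_pos hki, if_pos hki]
    rfl
  · rw [if_neg hki, if_neg hki]
    rfl

/-- An operator into `HB U E` (`E` finite dimensional) whose values are polynomials of degree `≤ n`
with coefficients linear in the argument has finite rank. -/
theorem finite_rank_poly [FiniteDimensional ℂ E] {Y : Type*} [NormedAddCommGroup Y]
    [NormedSpace ℂ Y] {U : Opens ℂ} (n : ℕ) (e : ℕ → ℂ → ℂ) (c : ℕ → Y →L[ℂ] E)
    {S : Y →L[ℂ] HB U E}
    (hS : ∀ x, ∀ z ∈ U, (S x).fn z = ∑ i ∈ Finset.range n, e i z • c i x) :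
    FiniteDimensional ℂ (LinearMap.range (S : Y →ₗ[ℂ] HB U E)) := by
  set C : Y →ₗ[ℂ] (Fin n → E) := LinearMap.pi (fun i : Fin n => (c i : Y →ₗ[ℂ] E)) with hC
  have hker : LinearMap.ker C ≤ LinearMap.ker (S : Y →ₗ[ℂ] HB U E) := by
    intro x hx
    rw [LinearMap.mem_ker] at hx ⊢
    have hcx : ∀ i ∈ Finset.range n, c i x = 0 := by
      intro i hi
      have := congrFun hx ⟨i, Finset.mem_range.1 hi⟩
      exact this
    apply HB.ext'
    intro z hz
    rw [HB.fn_zero]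
    show (S x).fn z = 0
    rw [hS x z hz]
    apply Finset.sum_eq_zero
    intro i hi
    rw [hcx i hi, smul_zero]
  have : FiniteDimensional ℂ (Y ⧸ LinearMap.ker C) :=
    Module.Finite.equiv (LinearMap.quotKerEquivRange C).symm
  have hr : LinearMap.range (S : Y →ₗ[ℂ] HB U E) =
      LinearMap.range ((LinearMap.ker C).liftQ (S : Y →ₗ[ℂ] HB U E) hker) :=
    (Submodule.range_liftQ _ _ _).symm
  rw [hr]
  infer_instance

end Pool.Agent.W_4d259d_h53
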