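import Pool.Agent.W_4d259d_h44.ApiC

/-!
# Block TD (V-TD 1): iterated directional derivatives, flat points

`V` finite dimensional, `f : V → ℂ` complex differentiable on an open set.
-/

noncomputable section

namespace Pool.Agent.W_4d259d_h53

open Set Filter Topology Metric
open scoped ContDiff

variable {V : Type*} [NormedAddCommGroup V] [NormedSpace ℂ V]

/-- Iterated directional derivatives along words in a family of vectors `b`. -/
def dw {ι : Type*} (b : ι → V) (f : V → ℂ) : List ι → V → ℂ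
  | [] => f
  | i :: w => fun x => fderiv ℂ (dw b f w) x (b i)

/-- All iterated directional derivatives are complex differentiable
(`ApiC.differentiableOn_fderiv` and induction on the word). -/
theorem dw_diff [FiniteDimensional ℂ V] {ι : Type*} (b : ι → V) {U : Set V} (hU : IsOpen U)
    {f : V → ℂ} (hf : DifferentiableOn ℂ f U) (w : List ι) : DifferentiableOn ℂ (dw b f w) U := by
  induction w with
  | nil => exact hf
  | cons i w ih =>
    have h := Pool.Agent.W_4d259d_h44.ApiC.differentiableOn_fderiv hU ih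
    exact h.clm_apply (differentiableOn_const _)

/-- If all derivatives of order `≥ 1` along words in a basis vanish at `x`, then `f` is constant
near `x`.
Proof: let `ball x r ⊆ U`.  For `v : V` let `D_v h = fun x => fderiv ℂ h x v`.  By induction on
`n`, for a word `u` and every `y ∈ U`: `(D_v^[n] (dw b f u)) y = ∑ over words w of length n of
(∏ coefficients of v) * dw b f (w ++ u) y` (linearity of `fderiv` in the direction, `v = ∑ v_i b_i`,
and `fderiv` of a finite sum), so `(D_v^[n] f) x = 0` for all `n ≥ 1`.  For `v = y - x`,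
`‖v‖ < r`, the function `φ t = f (x + t v)` is complex differentiable for `‖t‖ < r/‖v‖`, which is
`> 1`, and `iteratedDeriv n φ t = (D_v^[n] f) (x + t v)` there.  So all its derivatives at `0`
vanish and `φ 1 = φ 0` (`Complex.taylorSeries_eq_on_ball` or
`AnalyticOnNhd.eqOn_of_preconnected_of_eventuallyEq`). -/
theorem const_near_of_flat [FiniteDimensional ℂ V] {ι : Type*} [Fintype ι]
    (b : Module.Basis ι ℂ V) {U : Set V} (hU : IsOpen U) {f : V → ℂ}
    (hf : DifferentiableOn ℂ f U) {x : V} (hx : x ∈ U)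
    (h : ∀ w : List ι, w ≠ [] → dw b f w x = 0) : ∀ᶠ y in 𝓝 x, f y = f x := by
  obtain ⟨r, hr, hball⟩ := Metric.isOpen_iff.mp hU x hx
  filter_upwards [Metric.ball_mem_nhds x hr] with y hy
  by_cases hyx : y = x
  · rw [hyx]
  obtain ⟨v, hv⟩ : ∃ v, v = y - x := ⟨_, rfl⟩
  have hvr : ‖v‖ < r := by rwa [hv, ← dist_eq_norm]
  have hv0 : 0 < ‖v‖ := by
    rw [hv]
    exact norm_pos_iff.mpr (sub_ne_zero.mpr hyx)
  obtain ⟨R, hR⟩ : ∃ R, R = r / ‖v‖ := ⟨_, rfl⟩
  have hR1 : 1 < R := by
    rw [hR, one_lt_div hv0]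
    exact hvr
  have hR0 : 0 < R := lt_trans one_pos hR1
  have hmaps : ∀ t ∈ ball (0 : ℂ) R, x + t • v ∈ U := by
    intro t ht
    apply hball
    rw [mem_ball, dist_eq_norm, add_sub_cancel_left, norm_smul]
    rw [mem_ball, dist_zero_right, hR, lt_div_iff₀ hv0] at ht
    exact ht
  have hline : ∀ t : ℂ, HasDerivAt (fun t : ℂ => x + t • v) v t := by
    intro t
    have h1 := ((hasDerivAt_id t).smul_const v).const_add x
    rw [one_smul] at h1
    exact h1
  have hL : ∀ L : V →L[ℂ] ℂ, L v = ∑ i, b.repr v i * L (b i) := by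
    intro L
    conv_lhs => rw [← b.sum_repr v]
    rw [map_sum]
    refine Finset.sum_congr rfl fun i _ => ?_
    rw [map_smul, smul_eq_mul]
  obtain ⟨φ, hφ⟩ : ∃ φ : List ι → ℂ → ℂ, ∀ u t, φ u t = dw b f u (x + t • v) :=
    ⟨fun u t => dw b f u (x + t • v), fun _ _ => rfl⟩
  have hφf : ∀ u, φ u = fun t => dw b f u (x + t • v) := fun u => funext (hφ u)
  have hder : ∀ u, ∀ t ∈ ball (0 : ℂ) R,
      HasDerivAt (φ u) (∑ i, b.repr v i * φ (i :: u) t) t := by
    intro u t ht
    have hU' : U ∈ 𝓝 (x + t • v) := hU.mem_nhds (hmaps t ht)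
    have h1 : HasFDerivAt (dw b f u) (fderiv ℂ (dw b f u) (x + t • v)) (x + t • v) :=
      ((dw_diff b hU hf u).differentiableAt hU').hasFDerivAt
    have h2 := h1.comp_hasDerivAt t (hline t)
    have h3 : fderiv ℂ (dw b f u) (x + t • v) v = ∑ i, b.repr v i * φ (i :: u) t := by
      rw [hL]
      refine Finset.sum_congr rfl fun i _ => ?_
      rw [hφ]
      rfl
    rw [h3] at h2
    rw [hφf]
    exact h2
  have hdiff : ∀ u, DifferentiableOn ℂ (φ u) (ball (0 : ℂ) R) := fun u t ht =>
    (hder u t ht).differentiableAt.differentiableWithinAt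
  have hnhds : ball (0 : ℂ) R ∈ 𝓝 (0 : ℂ) := Metric.ball_mem_nhds 0 hR0
  have hcd : ∀ u (n : ℕ), ContDiffAt ℂ n (φ u) 0 := fun u n =>
    ((hdiff u).contDiffOn isOpen_ball).contDiffAt hnhds
  have hstep : ∀ u (n : ℕ), iteratedDeriv (n + 1) (φ u) 0 =
      ∑ i, b.repr v i * iteratedDeriv n (φ (i :: u)) 0 := by
    intro u n
    rw [iteratedDeriv_succ']
    have h1 : deriv (φ u) =ᶠ[𝓝 0] fun t => ∑ i, b.repr v i * φ (i :: u) t := by
      filter_upwards [hnhds] with t ht
      exact (hder u t ht).deriv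
    rw [h1.iteratedDeriv_eq n, iteratedDeriv_fun_sum]
    · refine Finset.sum_congr rfl fun i _ => ?_
      rw [iteratedDeriv_const_mul _ (hcd _ n)]
    · intro i _
      exact contDiffAt_const.mul (hcd _ n)
  have hzero : ∀ (n : ℕ) (u : List ι), u ≠ [] → iteratedDeriv n (φ u) 0 = 0 := by
    intro n
    induction n with
    | zero =>
      intro u hu
      rw [iteratedDeriv_zero, hφ, zero_smul, add_zero]
      exact h u hu
    | succ n ih =>
      intro u hu
      rw [hstep]
      refine Finset.sum_eq_zero fun i _ => ?_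
      rw [ih _ (List.cons_ne_nil _ _), mul_zero]
  have hzero' : ∀ n : ℕ, n ≠ 0 → iteratedDeriv n (φ []) 0 = 0 := by
    intro n hn
    obtain ⟨m, rfl⟩ := Nat.exists_eq_succ_of_ne_zero hn
    rw [Nat.succ_eq_add_one, hstep]
    refine Finset.sum_eq_zero fun i _ => ?_
    rw [hzero m _ (List.cons_ne_nil _ _), mul_zero]
  have h1mem : (1 : ℂ) ∈ ball (0 : ℂ) R := by
    rw [mem_ball, dist_zero_right, norm_one]
    exact hR1
  have htay := Complex.taylorSeries_eq_on_ball' h1mem (hdiff [])
  rw [tsum_eq_single 0] at htay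
  · rw [iteratedDeriv_zero, hφ, hφ] at htay
    have hy1 : x + (1 : ℂ) • v = y := by
      rw [hv, one_smul, add_sub_cancel]
    rw [hy1, zero_smul, add_zero] at htay
    simpa [dw] using htay.symm
  · intro n hn
    rw [hzero' n hn, mul_zero, zero_mul]

end Pool.Agent.W_4d259d_h53
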