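import Pool.Agent.W_4d259d_h53.FDef

/-!
# Block TD (V-TD 12): the right parametrix of `T_g`
-/

noncomputable section

namespace Pool.Agent.W_4d259d_h53

open Set Filter Topology Metric TopologicalSpace Module
open Pool.Agent.W_4d259d_h46.Defs Pool.Agent.W_4d259d_h46 Pool.Agent.W_4d259d_h44

variable {E : Type*} [NormedAddCommGroup E] [NormedSpace ℂ E] [FiniteDimensional ℂ E]
variable {q1 r1 r2 q2 : ℝ} {g : ℂ → E →L[ℂ] E}

/-- Right parametrix, with second component vanishing to order two at `η = 0`.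
Proof: `x = g⁻¹ y`, `x₋ = Pm x`, `u = g x₋(1/·)` (`exists_mulInv`), `Pm u = c1(u) η + η² Q u`
(`taylor_split` with `n = 2`; the coefficient `c0` is `(Pm u)(0) = 0`).
`Qpar y = (- Pp x, η² Q u)`.  On the annulus
`T (Qpar y) = (u - Pp u - c1(u)/z) + g (Pp x) = (u - Pp u - c1(u)/z) + y - u = y - Pp u - c1(u)/z`.
Let `r` be a Laurent polynomial with `‖g - r‖ ≤ τ` on `r1 ≤ |z| ≤ r2` (`laurent_approx` in
`E →L[ℂ] E`).  `K1 y = Pp ((g - r) x₋)`, of norm `≤ ‖Pp‖ τ ‖Pm‖ C ≤ 1/2`,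
`K2 y = Pp (r x₋) + c1(u)/z`: values `∑_{i ≤ n} z^i c_i + z⁻¹ c'` (`plus_part`), finite rank by
`finite_rank_poly`, and it extends holomorphically to `q1 < |z| < q2`. -/
theorem parametrix (hg : GData q1 r1 r2 q2 g)
    {T : HB (disc r2) E × HB (disc r1⁻¹) E →L[ℂ] HB (annu r1 r2) E} (hT : IsTg g T) :
    ∃ (Q : HB (annu r1 r2) E →L[ℂ] HB (disc r2) E × HB (disc r1⁻¹) E)
      (K1 K2 : HB (annu r1 r2) E →L[ℂ] HB (annu r1 r2) E),
      ‖K1‖ ≤ 1 / 2 ∧
      FiniteDimensional ℂ (LinearMap.range (K2 : HB (annu r1 r2) E →ₗ[ℂ] HB (annu r1 r2) E)) ∧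
      (∀ y, T (Q y) = y - K1 y - K2 y) ∧
      (∀ y, ∃ x : HB (disc r1⁻¹) E, ∀ η ∈ disc r1⁻¹, (Q y).2.fn η = η ^ 2 • x.fn η) ∧
      ∀ y, ∃ Y : ℂ → E, DifferentiableOn ℂ Y (annu q1 q2 : Set ℂ) ∧
        ∀ z ∈ annu r1 r2, (K2 y).fn z = Y z := by
  have : CompleteSpace E := FiniteDimensional.complete ℂ E
  have hr1 : 0 < r1 := hg.h1.trans hg.h2
  obtain ⟨C, hC, hgb, hgi⟩ := hg.bounds
  have hsub : ∀ z ∈ annu r1 r2, z ∈ annu q1 q2 := fun z hz =>
    ⟨hg.h2.trans hz.1, hz.2.trans hg.h4⟩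
  have hz0 : ∀ z ∈ annu q1 q2, z ≠ 0 := by
    rintro z hz rfl
    have := hz.1
    rw [norm_zero] at this
    exact absurd this (not_lt.2 hg.h1.le)
  have hinv : ∀ z ∈ annu r1 r2, z⁻¹ ∈ disc r1⁻¹ := by
    intro z hz
    show z⁻¹ ∈ ball (0 : ℂ) r1⁻¹
    rw [mem_ball_zero_iff, norm_inv]
    exact inv_strictAnti₀ hr1 hz.1
  have hd2 : ∀ z ∈ annu r1 r2, z ∈ disc r2 := by
    intro z hz
    show z ∈ ball (0 : ℂ) r2
    rw [mem_ball_zero_iff]
    exact hz.2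
  -- the operators
  obtain ⟨M1, hM1, hM1v⟩ := exists_mulOp (U := annu r1 r2) (fun z => Ring.inverse (g z))
    (holOn_iff.2 (hgi.mono fun z hz => hsub z hz)) C hC
    (fun z hz => (hgb z hz.1.le hz.2.le).2)
  obtain ⟨Pp, Pm, hP⟩ := laurent_HB (F := E) hr1 hg.h3
  obtain ⟨MI, hMI, hMIv⟩ := exists_mulInv hg.h1 hg.h2 hg.h3 hg.h4 hg.hol hC
    (fun z h1 h2 => (hgb z h1 h2).1)
  obtain ⟨c, Qt, hQt⟩ := taylor_split (F := E) (inv_pos.2 hr1) 2
  obtain ⟨Z2, hZ2, hZ2v⟩ := exists_mulOp (U := disc r1⁻¹)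
    (fun η : ℂ => (η ^ 2) • ContinuousLinearMap.id ℂ E)
    (holOn_iff.2 (by fun_prop)) ((r1⁻¹) ^ 2 * 1) (by positivity) (by
      intro η hη
      have hη' : ‖η‖ < r1⁻¹ := by
        have : η ∈ ball (0 : ℂ) r1⁻¹ := hη
        rwa [mem_ball_zero_iff] at this
      rw [norm_smul, norm_pow]
      refine mul_le_mul (pow_le_pow_left₀ (norm_nonneg _) hη'.le 2)
        ContinuousLinearMap.norm_id_le (norm_nonneg _) (by positivity))
  obtain ⟨Zi, hZi, hZiv⟩ := exists_mulOp (U := annu r1 r2)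
    (fun z : ℂ => z⁻¹ • ContinuousLinearMap.id ℂ E)
    (holOn_iff.2 (by
      intro z hz
      have hz' : z ≠ 0 := hz0 z (hsub z hz)
      exact ((differentiableAt_inv hz').smul_const _).differentiableWithinAt))
    (r1⁻¹ * 1) (by positivity) (by
      intro z hz
      rw [norm_smul, norm_inv]
      refine mul_le_mul (inv_strictAnti₀ hr1 hz.1).le
        ContinuousLinearMap.norm_id_le (norm_nonneg _) (by positivity))
  obtain ⟨Kc, hKc, hKcv⟩ := exists_const (R := ℂ) (F := E) (U := annu r1 r2)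
  obtain ⟨Rs, hRs, hRsv⟩ := exists_res (R := ℂ) (F := E) (U := annu r1 r2) (V := disc r2) hd2
  -- the Laurent polynomial
  set τ : ℝ := 1 / (2 * (‖Pp‖ * ‖Pm‖ * C + 1)) with hτ
  have hden : 0 < 2 * (‖Pp‖ * ‖Pm‖ * C + 1) := by positivity
  have hτ0 : 0 < τ := by positivity
  obtain ⟨n, A, A', hA⟩ := laurent_approx hg.h1 hg.h2 hg.h3 hg.h4 hg.hol hτ0
  set r : ℂ → E →L[ℂ] E := fun z =>
    ∑ i ∈ Finset.range n, z ^ i • A i + ∑ i ∈ Finset.range n, z⁻¹ ^ i • A' i with hr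
  have hrd : DifferentiableOn ℂ r (annu q1 q2 : Set ℂ) := by
    refine DifferentiableOn.add ?_ ?_
    · refine DifferentiableOn.fun_sum fun i _ => ?_
      exact ((differentiable_id.pow i).smul_const (A i)).differentiableOn
    · refine DifferentiableOn.fun_sum fun i _ => ?_
      intro z hz
      exact (((differentiableAt_inv (hz0 z hz)).pow i).smul_const (A' i)).differentiableWithinAt
  have hgr : DifferentiableOn ℂ (fun z => g z - r z) (annu q1 q2 : Set ℂ) := hg.hol.sub hrd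
  obtain ⟨MD, hMD, hMDv⟩ := exists_mulInv hg.h1 hg.h2 hg.h3 hg.h4 hgr hτ0.le
    (fun z h1 h2 => hA z h1 h2)
  obtain ⟨MR, hMR, hMRv⟩ := exists_mulInv hg.h1 hg.h2 hg.h3 hg.h4 hrd (C := C + τ) (by positivity)
    (fun z h1 h2 => by
      have e1 := (hgb z h1 h2).1
      have e2 : ‖g z - r z‖ ≤ τ := hA z h1 h2
      calc ‖r z‖ = ‖g z - (g z - r z)‖ := by rw [sub_sub_cancel]
        _ ≤ ‖g z‖ + ‖g z - r z‖ := norm_sub_le _ _
        _ ≤ C + τ := add_le_add e1 e2)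
  obtain ⟨cc, hcc⟩ := plus_part hr1 hg.h3 hP n A A' hMRv
  have hsum : ∀ x, MD x + MR x = MI x := by
    intro x
    refine HB.ext' fun z hz => ?_
    rw [HB.fn_add, hMDv x z hz, hMRv x z hz, hMIv x z hz]
    show (g z - r z) (x.fn z⁻¹) + r z (x.fn z⁻¹) = g z (x.fn z⁻¹)
    rw [sub_apply, sub_add_cancel]
  -- the parametrix
  let U : HB (annu r1 r2) E →L[ℂ] HB (annu r1 r2) E := MI.comp (Pm.comp M1)
  let Q2 : HB (annu r1 r2) E →L[ℂ] HB (disc r1⁻¹) E := Z2.comp (Qt.comp (Pm.comp U))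
  let K1 : HB (annu r1 r2) E →L[ℂ] HB (annu r1 r2) E :=
    Rs.comp (Pp.comp (MD.comp (Pm.comp M1)))
  let K2 : HB (annu r1 r2) E →L[ℂ] HB (annu r1 r2) E :=
    Rs.comp (Pp.comp (MR.comp (Pm.comp M1))) + Zi.comp (Kc.comp ((c 1).comp (Pm.comp U)))
  let e : ℕ → ℂ → ℂ := fun i z => if i < n + 1 then z ^ i else z⁻¹
  let c2 : ℕ → HB (annu r1 r2) E →L[ℂ] E := fun i =>
    if i < n + 1 then (cc i).comp (Pm.comp M1) else (c 1).comp (Pm.comp U)
  have hK2v : ∀ y, ∀ z ∈ annu r1 r2, (K2 y).fn z = ∑ i ∈ Finset.range (n + 2), e i z • c2 i y := by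
    intro y z hz
    have e1 : (K2 y).fn z = (Rs (Pp (MR (Pm (M1 y))))).fn z + (Zi (Kc (c 1 (Pm (U y))))).fn z := by
      show (Rs (Pp (MR (Pm (M1 y)))) + Zi (Kc (c 1 (Pm (U y))))).fn z = _
      rw [HB.fn_add]
    rw [e1, hRsv _ z hz, hcc _ z (hd2 z hz), hZiv _ z hz, hKcv _ z hz]
    have e2 : ∑ i ∈ Finset.range (n + 1), e i z • c2 i y =
        ∑ i ∈ Finset.range (n + 1), z ^ i • cc i (Pm (M1 y)) := by
      refine Finset.sum_congr rfl fun i hi => ?_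
      have hi' : i < n + 1 := Finset.mem_range.1 hi
      simp only [e, c2, if_pos hi']
      rfl
    rw [Finset.sum_range_succ (fun i => e i z • c2 i y) (n + 1), e2]
    congr 1
    simp only [e, c2, lt_irrefl, if_false]
    rfl
  refine ⟨(-(Pp.comp M1)).prod Q2, K1, K2, ?_, ?_, ?_, ?_, ?_⟩
  · -- the norm
    have e1 : ‖K1‖ ≤ 1 * (‖Pp‖ * (τ * (‖Pm‖ * C))) := by
      refine (ContinuousLinearMap.opNorm_comp_le _ _).trans ?_
      refine mul_le_mul hRs ?_ (norm_nonneg _) zero_le_one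
      refine (ContinuousLinearMap.opNorm_comp_le _ _).trans ?_
      refine mul_le_mul_of_nonneg_left ?_ (norm_nonneg _)
      refine (ContinuousLinearMap.opNorm_comp_le _ _).trans ?_
      refine mul_le_mul hMD ?_ (norm_nonneg _) hτ0.le
      refine (ContinuousLinearMap.opNorm_comp_le _ _).trans ?_
      exact mul_le_mul_of_nonneg_left hM1 (norm_nonneg _)
    refine e1.trans ?_
    have e2 : 1 * (‖Pp‖ * (τ * (‖Pm‖ * C))) = (‖Pp‖ * ‖Pm‖ * C) * τ := by ring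
    rw [e2, hτ, mul_one_div, div_le_iff₀ hden]
    have : 0 ≤ ‖Pp‖ * ‖Pm‖ * C := by positivity
    linarith
  · exact finite_rank_poly (n + 2) e c2 hK2v
  · intro y
    refine HB.ext' fun z hz => ?_
    have hzu : IsUnit (g z) := hg.unit z (hsub z hz)
    rw [hT _ z hz, HB.fn_sub, HB.fn_sub]
    show (Z2 (Qt (Pm (U y)))).fn z⁻¹ - g z ((-(Pp (M1 y))).fn z) =
      y.fn z - (K1 y).fn z - (K2 y).fn z
    have hzi := hinv z hz
    have hzi2 : z⁻¹ ∈ disc r1⁻¹ := hzi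
    rw [hZ2v _ _ hzi2, HB.fn_neg, map_neg, sub_neg_eq_add]
    -- pieces
    have e1 := (hP (M1 y)).1 z hz
    rw [hM1v y z hz] at e1
    have e2 : g z ((Pp (M1 y)).fn z) = y.fn z - (U y).fn z := by
      have e3 : (U y).fn z = g z ((Pm (M1 y)).fn z⁻¹) := hMIv _ z hz
      have e4 : (Pp (M1 y)).fn z = Ring.inverse (g z) (y.fn z) - (Pm (M1 y)).fn z⁻¹ := by
        rw [e1]; abel
      have e5 : g z (Ring.inverse (g z) (y.fn z)) = y.fn z := by
        have := congrArg (fun B : E →L[ℂ] E => B (y.fn z)) (Ring.mul_inverse_cancel (g z) hzu)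
        exact this
      rw [e4, map_sub, e5, e3]
    have e6 := (hP (U y)).1 z hz
    have e7 := hQt (Pm (U y)) _ hzi2
    have e8 : c 0 (Pm (U y)) = 0 := by
      have e9 := hQt (Pm (U y)) 0 (by
        show (0 : ℂ) ∈ ball (0 : ℂ) r1⁻¹
        exact mem_ball_self (inv_pos.2 hr1))
      rw [(hP (U y)).2] at e9
      simpa [Finset.sum_range_succ] using e9.symm
    have e10 : (K1 y).fn z + (K2 y).fn z = (Pp (U y)).fn z + z⁻¹ • c 1 (Pm (U y)) := by
      have f1 : (K1 y).fn z = (Pp (MD (Pm (M1 y)))).fn z := hRsv _ z hz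
      have f2 : (K2 y).fn z = (Pp (MR (Pm (M1 y)))).fn z + z⁻¹ • c 1 (Pm (U y)) := by
        have e1 : (K2 y).fn z =
            (Rs (Pp (MR (Pm (M1 y))))).fn z + (Zi (Kc (c 1 (Pm (U y))))).fn z := by
          show (Rs (Pp (MR (Pm (M1 y)))) + Zi (Kc (c 1 (Pm (U y))))).fn z = _
          rw [HB.fn_add]
        rw [e1, hRsv _ z hz, hZiv _ z hz, hKcv _ z hz]
        rfl
      have f3 : (Pp (U y)).fn z = (Pp (MD (Pm (M1 y)))).fn z + (Pp (MR (Pm (M1 y)))).fn z := by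
        rw [← HB.fn_add, ← map_add, hsum]
        rfl
      rw [f1, f2, f3]
      abel
    rw [e2]
    rw [Finset.sum_range_succ, Finset.sum_range_one, e8, smul_zero, zero_add, pow_one] at e7
    have e11 : (z⁻¹ ^ 2 • ContinuousLinearMap.id ℂ E) ((Qt (Pm (U y))).fn z⁻¹) =
        (Pm (U y)).fn z⁻¹ - z⁻¹ • c 1 (Pm (U y)) := by
      rw [e7]
      show z⁻¹ ^ 2 • (Qt (Pm (U y))).fn z⁻¹ = _
      abel
    rw [e11]
    have e12 : (Pm (U y)).fn z⁻¹ = (U y).fn z - (Pp (U y)).fn z := by rw [e6]; abel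
    rw [e12]
    have e13 : y.fn z - (K1 y).fn z - (K2 y).fn z =
        y.fn z - ((K1 y).fn z + (K2 y).fn z) := by abel
    rw [e13, e10]
    abel
  · intro y
    refine ⟨Qt (Pm (U y)), fun η hη => ?_⟩
    show (Z2 (Qt (Pm (U y)))).fn η = _
    rw [hZ2v _ _ hη]
    rfl
  · intro y
    refine ⟨fun z => ∑ i ∈ Finset.range (n + 2), e i z • c2 i y, ?_, fun z hz => hK2v y z hz⟩
    refine DifferentiableOn.fun_sum fun i _ => ?_
    intro z hz
    by_cases hi : i < n + 1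
    · simp only [e, if_pos hi]
      exact ((differentiableAt_id.pow i).smul_const _).differentiableWithinAt
    · simp only [e, if_neg hi]
      exact ((differentiableAt_inv (hz0 z hz)).smul_const _).differentiableWithinAt

end Pool.Agent.W_4d259d_h53
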