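import Pool.Agent.W_4d259d_h53.Crit
import Pool.Agent.W_4d259d_h53.Fub

/-!
# Block TD (V-TD 5): Sard's theorem for holomorphic maps between finite dimensional spaces
-/

noncomputable section

namespace Pool.Agent.W_4d259d_h53

open Set Filter Topology Metric Module MeasureTheory
open scoped ContDiff
open Pool.Agent.W_4d259d_h44

universe u v

/-- The critical set: the derivative is not onto. -/
def critSet {V : Type*} [NormedAddCommGroup V] [NormedSpace ℂ V]
    {G : Type*} [NormedAddCommGroup G] [NormedSpace ℂ G] (g : V → G) (U : Set V) : Set V :=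
  {x ∈ U | LinearMap.range (fderiv ℂ g x : V →ₗ[ℂ] G) ≠ ⊤}

/-- Surjectivity is an open condition. -/
theorem isOpen_surj {V : Type*} [NormedAddCommGroup V] [NormedSpace ℂ V]
    {G : Type*} [NormedAddCommGroup G] [NormedSpace ℂ G] [FiniteDimensional ℂ G] :
    IsOpen {A : V →L[ℂ] G | LinearMap.range (A : V →ₗ[ℂ] G) = ⊤} := by
  have : CompleteSpace G := FiniteDimensional.complete ℂ G
  rw [isOpen_iff_mem_nhds]
  intro A hA
  obtain ⟨R, hR⟩ := LinearMap.exists_rightInverse_of_surjective (A : V →ₗ[ℂ] G) hA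
  let R' : G →L[ℂ] V := LinearMap.toContinuousLinearMap R
  have hAR : A.comp R' = ContinuousLinearMap.id ℂ G := by
    ext y
    exact LinearMap.congr_fun hR y
  have hopen : IsOpen {B : G →L[ℂ] G | IsUnit B} := Units.isOpen
  have hcont : Continuous fun B : V →L[ℂ] G => B.comp R' := by fun_prop
  have hmem : {B : V →L[ℂ] G | IsUnit (B.comp R')} ∈ 𝓝 A := by
    refine (hopen.preimage hcont).mem_nhds ?_
    show IsUnit (A.comp R')
    rw [hAR]
    exact isUnit_one
  refine Filter.mem_of_superset hmem ?_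
  intro B hB
  show LinearMap.range (B : V →ₗ[ℂ] G) = ⊤
  rw [LinearMap.range_eq_top]
  intro y
  obtain ⟨u, hu⟩ := hB
  refine ⟨R' ((u⁻¹ : (G →L[ℂ] G)ˣ).1 y), ?_⟩
  have h1 : (u.1 * u⁻¹.1) y = y := by rw [Units.mul_inv]; rfl
  rw [hu] at h1
  exact h1

/-- The critical set is closed in `U`: surjectivity is an open condition on linear maps and
`fderiv ℂ g` is continuous on `U` (`ApiC.differentiableOn_fderiv`). -/
theorem critSet_compact {V : Type*} [NormedAddCommGroup V] [NormedSpace ℂ V]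
    [FiniteDimensional ℂ V] {G : Type*} [NormedAddCommGroup G] [NormedSpace ℂ G]
    [FiniteDimensional ℂ G] {g : V → G} {U : Set V} (hU : IsOpen U)
    (hg : DifferentiableOn ℂ g U) {K : Set V} (hK : IsCompact K) (hKU : K ⊆ U) :
    IsCompact (critSet g U ∩ K) := by
  have : CompleteSpace G := FiniteDimensional.complete ℂ G
  have hcont : ContinuousOn (fderiv ℂ g) K :=
    ((ApiC.differentiableOn_fderiv hU hg).continuousOn).mono hKU
  have hclosed : IsClosed (K ∩ fderiv ℂ g ⁻¹' {A | LinearMap.range (A : V →ₗ[ℂ] G) ≠ ⊤}) := by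
    refine hcont.preimage_isClosed_of_isClosed hK.isClosed ?_
    rw [← isOpen_compl_iff]
    have heq : {A : V →L[ℂ] G | LinearMap.range (A : V →ₗ[ℂ] G) ≠ ⊤}ᶜ =
        {A : V →L[ℂ] G | LinearMap.range (A : V →ₗ[ℂ] G) = ⊤} := by
      ext A
      simp
    rw [heq]
    exact isOpen_surj
  have hset : critSet g U ∩ K = K ∩ fderiv ℂ g ⁻¹' {A | LinearMap.range (A : V →ₗ[ℂ] G) ≠ ⊤} := by
    ext x
    constructor
    · rintro ⟨⟨_, h1⟩, h2⟩
      exact ⟨h2, h1⟩
    · rintro ⟨h1, h2⟩
      exact ⟨⟨hKU h1, h2⟩, h1⟩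
  rw [hset]
  exact hK.of_isClosed_subset hclosed Set.inter_subset_left

/-- Holomorphic Sard theorem: the image of the critical set is null.
Proof by induction on `n` (all `G` at once).  If `G` is trivial the critical set is empty.
`critSet = {fderiv g = 0} ∪ {x ∈ critSet | fderiv g x ≠ 0}`; the image of the first part is
countable (`countable_crit_vec`), hence null (a nontrivial `G` has no atoms).  Second part: by
`null_of_locally` it is enough to find for each `x0` in it an open `N` with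
`μ (g '' (critSet ∩ N)) = 0`.  Choose `ℓ : G →L[ℂ] ℂ` with `ℓ ∘ fderiv g x0 ≠ 0` and apply
`straighten` to `ρ = ℓ ∘ g`: `h, ψ, N, W`.  Let `K ⊆ N` be a compact neighbourhood of `x0`, and
`S = g '' (critSet g U ∩ K)`, compact by `critSet_compact`.  Choose `L : G ≃L[ℂ] ℂ × G'` with
first component `ℓ` (`G' = ker ℓ`).  Slice at `t`: if `L⁻¹ (t, q) = g x`, `x ∈ critSet ∩ K`, then
`ρ x = t`, so `x = ψ (t, y)`, `y = (h x).2`, and `q = k y` with `k y = (L (g (ψ (t, y)))).2`,
complex differentiable on the open set `{y | (t, y) ∈ W}` of `Ker1 ρ x0` (dimension `n - 1`).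
`y` is a critical point of `k`: `g ∘ ψ` has the form `L (g (ψ (s, y))) = (s, k_s y)`, so if
`fderiv k y` were onto then `fderiv (g ∘ ψ)` at `(t, y)` would be onto and so would
`fderiv g x`.  By induction the slice is null.  Conclude with `null_of_slices`. -/
theorem sard_aux (n : ℕ) : ∀ (V : Type u) [NormedAddCommGroup V] [NormedSpace ℂ V]
    [FiniteDimensional ℂ V], finrank ℂ V = n →
    ∀ (G : Type v) [NormedAddCommGroup G] [NormedSpace ℂ G] [FiniteDimensional ℂ G]
    [MeasurableSpace G] [BorelSpace G] (μ : Measure G) [μ.IsAddHaarMeasure]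
    (U : Set V), IsOpen U → ∀ g : V → G, DifferentiableOn ℂ g U → μ (g '' critSet g U) = 0 := by
  induction n using Nat.strong_induction_on with
  | _ n ih =>
  intro V _ _ _ hn G _ _ _ _ _ μ _ U hU g hg
  have : ProperSpace V := FiniteDimensional.proper ℂ V
  have : ProperSpace G := FiniteDimensional.proper ℂ G
  have hsplit : critSet g U ⊆ {x ∈ U | fderiv ℂ g x = 0} ∪
      {x | x ∈ critSet g U ∧ fderiv ℂ g x ≠ 0} := by
    intro x hx
    by_cases h0 : fderiv ℂ g x = 0
    · exact Or.inl ⟨hx.1, h0⟩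
    · exact Or.inr ⟨hx, h0⟩
  rcases subsingleton_or_nontrivial G with hG | hG
  · have hempty : critSet g U = ∅ := by
      ext x
      simp only [critSet, Set.mem_ofPred_eq, Set.mem_empty_iff_false, iff_false, not_and, not_not]
      intro _
      rw [LinearMap.range_eq_top]
      intro y
      exact ⟨0, Subsingleton.elim _ _⟩
    rw [hempty, Set.image_empty, measure_empty]
  refine measure_mono_null (Set.image_mono hsplit) ?_
  rw [Set.image_union]
  refine measure_union_null ?_ ?_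
  · exact (countable_crit_vec V G U hU g hg).measure_zero μ
  · refine null_of_locally μ g _ fun x0 hx0 => ?_
    have hx0U : x0 ∈ U := hx0.1.1
    -- the linear functional
    obtain ⟨v, hv⟩ : ∃ v, fderiv ℂ g x0 v ≠ 0 := by
      by_contra hcon
      push Not at hcon
      exact hx0.2 (ContinuousLinearMap.ext hcon)
    obtain ⟨ℓ, hℓ⟩ := SeparatingDual.exists_ne_zero (R := ℂ) hv
    have hρ : DifferentiableOn ℂ (fun x => ℓ (g x)) U := ℓ.differentiable.comp_differentiableOn hg
    have hρ' : fderiv ℂ (fun x => ℓ (g x)) x0 ≠ 0 := by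
      intro h0
      have h1 : fderiv ℂ (fun x => ℓ (g x)) x0 = ℓ.comp (fderiv ℂ g x0) :=
        (ℓ.hasFDerivAt.comp x0 (hg.differentiableAt (hU.mem_nhds hx0U)).hasFDerivAt).fderiv
      rw [h1] at h0
      exact hℓ (by have := congrArg (fun A : V →L[ℂ] ℂ => A v) h0; simpa using this)
    obtain ⟨h, ψ, N, W, hN, hx0N, hNU, hW, hhN, hψW, hψh, hhψ, hhd, hψd, hh1⟩ :=
      straighten hU hρ hx0U hρ'
    have hrank := finrank_Ker1 hρ'
    obtain ⟨K, hK, hx0K, hKN⟩ := exists_compact_subset hN hx0N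
    refine ⟨interior K, isOpen_interior, hx0K, ?_⟩
    have hS : IsCompact (g '' (critSet g U ∩ K)) := by
      refine (critSet_compact hU hg hK (hKN.trans hNU)).image_of_continuousOn ?_
      exact (hg.continuousOn).mono fun x hx => hx.1.1
    refine measure_mono_null (t := g '' (critSet g U ∩ K)) ?_ ?_
    · exact Set.image_mono fun x hx => ⟨hx.1.1, interior_subset hx.2⟩
    -- coordinates in `G`
    obtain ⟨w, hw⟩ : ∃ w : G, ℓ w = 1 := by
      refine ⟨(ℓ (fderiv ℂ g x0 v))⁻¹ • fderiv ℂ g x0 v, ?_⟩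
      rw [map_smul, smul_eq_mul, inv_mul_cancel₀ hℓ]
    let f₂ : ℂ →L[ℂ] G := ContinuousLinearMap.toSpanSingleton ℂ w
    have hright : Function.RightInverse f₂ ℓ := by
      intro c
      show ℓ (c • w) = c
      rw [map_smul, hw, smul_eq_mul, mul_one]
    let L : G ≃L[ℂ] ℂ × LinearMap.ker (ℓ : G →ₗ[ℂ] ℂ) :=
      ContinuousLinearEquiv.equivOfRightInverse ℓ f₂ hright
    have hL1 : ∀ x, (L x).1 = ℓ x := fun x => rfl
    refine null_of_slices μ (Measure.addHaar : Measure (LinearMap.ker (ℓ : G →ₗ[ℂ] ℂ))) L hS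
      fun t => ?_
    -- the slice
    set D : Set (Ker1 (fun x => ℓ (g x)) x0) := {y | (t, y) ∈ W} with hD
    set k : Ker1 (fun x => ℓ (g x)) x0 → LinearMap.ker (ℓ : G →ₗ[ℂ] ℂ) :=
      fun y => (L (g (ψ (t, y)))).2 with hk
    have hDopen : IsOpen D := hW.preimage (by fun_prop)
    have hΘ : DifferentiableOn ℂ (fun p => L (g (ψ p))) W := by
      refine L.differentiable.comp_differentiableOn ?_
      exact hg.comp hψd fun p hp => hNU (hψW hp)
    have hkd : DifferentiableOn ℂ k D := by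
      have h1 : DifferentiableOn ℂ (fun y : Ker1 (fun x => ℓ (g x)) x0 => (t, y)) D :=
        ((differentiable_const t).prodMk differentiable_id).differentiableOn
      exact ((hΘ.comp h1 fun y hy => hy).snd)
    have hlt : finrank ℂ (Ker1 (fun x => ℓ (g x)) x0) < n := by omega
    have hIH := ih _ hlt (Ker1 (fun x => ℓ (g x)) x0) rfl (LinearMap.ker (ℓ : G →ₗ[ℂ] ℂ))
      (Measure.addHaar) D hDopen k hkd
    refine measure_mono_null ?_ hIH
    rintro q ⟨x, ⟨⟨hxU, hxc⟩, hxK⟩, hxq⟩
    have hxN : x ∈ N := hKN hxK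
    have hLx : L (g x) = (t, q) := by rw [hxq, ContinuousLinearEquiv.apply_symm_apply]
    have hxt : (h x).1 = t := by
      rw [hh1 x hxN, ← hL1, hLx]
    have hhx : (t, (h x).2) = h x := by rw [← hxt]
    have hyD : (h x).2 ∈ D := by
      show (t, (h x).2) ∈ W
      rw [hhx]
      exact hhN hxN
    have hψx : ψ (t, (h x).2) = x := by rw [hhx]; exact hψh x hxN
    refine ⟨(h x).2, ⟨hyD, ?_⟩, ?_⟩
    · intro htop
      apply hxc
      -- derivatives
      have hgx : HasFDerivAt g (fderiv ℂ g x) x :=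
        (hg.differentiableAt (hU.mem_nhds hxU)).hasFDerivAt
      have hpW : (t, (h x).2) ∈ W := hyD
      have hψx' : HasFDerivAt ψ (fderiv ℂ ψ (t, (h x).2)) (t, (h x).2) :=
        (hψd.differentiableAt (hW.mem_nhds hpW)).hasFDerivAt
      have hA : HasFDerivAt (fun p => L (g (ψ p)))
          ((L : G →L[ℂ] ℂ × LinearMap.ker (ℓ : G →ₗ[ℂ] ℂ)).comp
            ((fderiv ℂ g x).comp (fderiv ℂ ψ (t, (h x).2)))) (t, (h x).2) := by
        have h2 : HasFDerivAt (fun p => g (ψ p))
            ((fderiv ℂ g x).comp (fderiv ℂ ψ (t, (h x).2))) (t, (h x).2) :=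
          HasFDerivAt.comp (t, (h x).2) (by rw [hψx]; exact hgx) hψx'
        exact L.hasFDerivAt.comp (t, (h x).2) h2
      set A : ℂ × Ker1 (fun x => ℓ (g x)) x0 →L[ℂ] ℂ × LinearMap.ker (ℓ : G →ₗ[ℂ] ℂ) :=
        (L : G →L[ℂ] ℂ × LinearMap.ker (ℓ : G →ₗ[ℂ] ℂ)).comp
            ((fderiv ℂ g x).comp (fderiv ℂ ψ (t, (h x).2))) with hAdef
      have hAfst : ∀ p, (A p).1 = p.1 := by
        have h1 : HasFDerivAt (fun p => (L (g (ψ p))).1)
            ((ContinuousLinearMap.fst ℂ ℂ _).comp A) (t, (h x).2) := hA.fst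
        have h2 : HasFDerivAt (fun p : ℂ × Ker1 (fun x => ℓ (g x)) x0 => p.1)
            (ContinuousLinearMap.fst ℂ ℂ _) (t, (h x).2) := hasFDerivAt_fst
        have h3 : (fun p => (L (g (ψ p))).1) =ᶠ[𝓝 (t, (h x).2)]
            fun p : ℂ × Ker1 (fun x => ℓ (g x)) x0 => p.1 := by
          filter_upwards [hW.mem_nhds hpW] with p hp
          rw [hL1, ← hh1 (ψ p) (hψW hp), hhψ p hp]
        have h4 := (h1.congr_of_eventuallyEq h3.symm).unique h2
        intro p
        exact congrArg (fun B : ℂ × Ker1 (fun x => ℓ (g x)) x0 →L[ℂ] ℂ => B p) h4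
      have hAk : ∀ u, (A (0, u)).2 = fderiv ℂ k (h x).2 u := by
        have h1 : HasFDerivAt (fun y : Ker1 (fun x => ℓ (g x)) x0 => (t, y))
            (ContinuousLinearMap.inr ℂ ℂ _) (h x).2 := hasFDerivAt_prodMk_right t (h x).2
        have h2 : HasFDerivAt k ((ContinuousLinearMap.snd ℂ ℂ _).comp
            (A.comp (ContinuousLinearMap.inr ℂ ℂ _))) (h x).2 :=
          (HasFDerivAt.comp (h x).2 hA h1).snd
        intro u
        rw [h2.fderiv]
        rfl
      have hAsurj : Function.Surjective A := by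
        rintro ⟨a, b⟩
        obtain ⟨u, hu⟩ : ∃ u, fderiv ℂ k (h x).2 u = b - (A (a, 0)).2 := by
          have : b - (A (a, 0)).2 ∈ LinearMap.range (fderiv ℂ k (h x).2 :
              Ker1 (fun x => ℓ (g x)) x0 →ₗ[ℂ] LinearMap.ker (ℓ : G →ₗ[ℂ] ℂ)) := by
            rw [htop]; trivial
          exact this
        refine ⟨(a, u), Prod.ext (hAfst _) ?_⟩
        have h1 : ((a, u) : ℂ × Ker1 (fun x => ℓ (g x)) x0) = (a, 0) + (0, u) := by simp
        rw [h1, map_add, Prod.snd_add, hAk, hu]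
        simp
      rw [LinearMap.range_eq_top]
      intro y
      obtain ⟨p, hp⟩ := hAsurj (L y)
      exact ⟨fderiv ℂ ψ (t, (h x).2) p, L.injective hp⟩
    · show (L (g (ψ (t, (h x).2)))).2 = q
      rw [hψx, hLx]

theorem sard {V : Type u} [NormedAddCommGroup V] [NormedSpace ℂ V] [FiniteDimensional ℂ V]
    {G : Type v} [NormedAddCommGroup G] [NormedSpace ℂ G] [FiniteDimensional ℂ G]
    [MeasurableSpace G] [BorelSpace G] (μ : Measure G) [μ.IsAddHaarMeasure]
    {U : Set V} (hU : IsOpen U) {g : V → G} (hg : DifferentiableOn ℂ g U) :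
    μ (g '' critSet g U) = 0 :=
  sard_aux _ V rfl G μ U hU g hg

end Pool.Agent.W_4d259d_h53
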