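import Pool.Agent.W_4d259d_h53.Lau

/-!
# Block TD (V-TD 10): Taylor polynomials: bounded operators, uniform approximation
-/

noncomputable section

namespace Pool.Agent.W_4d259d_h53

open Set Filter Topology Metric TopologicalSpace
open Pool.Agent.W_4d259d_h46.Defs Pool.Agent.W_4d259d_h46 Pool.Agent.W_4d259d_h44

variable {F : Type*} [NormedAddCommGroup F] [NormedSpace ℂ F]

/-- Division by `z`: `m z = m 0 + z Q m z` with `Q` bounded.
Proof: `Q m = dslope m.fn 0` on the disc (holomorphic: `DifferentiableOn.dslope` or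
`differentiableOn_dslope`), `‖Q m z‖ ≤ 4 ‖m‖ / r` for `|z| ≥ r/2`, and inside by the maximum
principle (or the Cauchy estimate); use `exists_clm`. -/
theorem exists_divZ [CompleteSpace F] {r : ℝ} (hr : 0 < r) :
    ∃ Q : HB (disc r) F →L[ℂ] HB (disc r) F, ∀ m, ∀ z ∈ disc r,
      m.fn z = m.fn 0 + z • (Q m).fn z := by
  have hd : ∀ m : HB (disc r) F, DifferentiableOn ℂ m.fn (ball 0 r) := fun m =>
    holOn_iff.mp m.fn_hol
  have h0 : ball (0 : ℂ) r ∈ 𝓝 (0 : ℂ) := ball_mem_nhds 0 hr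
  have hd0 : ∀ m : HB (disc r) F, DifferentiableAt ℂ m.fn 0 := fun m => (hd m).differentiableAt h0
  have hds : ∀ m : HB (disc r) F, DifferentiableOn ℂ (dslope m.fn 0) (ball 0 r) := fun m =>
    (Complex.differentiableOn_dslope h0).mpr (hd m)
  have hbig : ∀ m : HB (disc r) F, ∀ z : ℂ, r / 2 ≤ ‖z‖ → ‖dslope m.fn 0 z‖ ≤ 4 / r * ‖m‖ := by
    intro m z hz
    have hz0 : z ≠ 0 := by
      rintro rfl
      rw [norm_zero] at hz
      linarith
    rw [dslope_of_ne _ hz0, slope_def_module, norm_smul, norm_inv, sub_zero]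
    have h1 : ‖m.fn z - m.fn 0‖ ≤ 2 * ‖m‖ := by
      refine (norm_sub_le _ _).trans ?_
      have := m.fn_le z
      have := m.fn_le 0
      linarith
    have h2 : ‖z‖⁻¹ ≤ 2 / r := by
      rw [inv_le_comm₀ (norm_pos_iff.mpr hz0) (by positivity), inv_div]
      exact hz
    calc ‖z‖⁻¹ * ‖m.fn z - m.fn 0‖ ≤ 2 / r * (2 * ‖m‖) := by gcongr
      _ = 4 / r * ‖m‖ := by ring
  have hb : ∀ m : HB (disc r) F, ∀ z ∈ disc r, ‖dslope m.fn 0 z‖ ≤ 4 / r * ‖m‖ := by
    intro m z _
    by_cases hz : r / 2 ≤ ‖z‖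
    · exact hbig m z hz
    · push Not at hz
      have hr2 : r / 2 ≠ 0 := by positivity
      refine Complex.norm_le_of_forall_mem_frontier_norm_le (U := ball (0 : ℂ) (r / 2))
        isBounded_ball ?_ ?_ ?_
      · refine DifferentiableOn.diffContOnCl ?_
        rw [closure_ball _ hr2]
        refine (hds m).mono ?_
        exact closedBall_subset_ball (by linarith)
      · intro w hw
        rw [frontier_ball _ hr2, mem_sphere_zero_iff_norm] at hw
        exact hbig m w hw.ge
      · exact subset_closure (mem_ball_zero_iff.mpr hz)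
  obtain ⟨Q, -, hQ⟩ := exists_clm (V := disc r) (fun (m : HB (disc r) F) z => dslope m.fn 0 z)
    (fun m => holOn_iff.mpr (hds m)) (by
      intro m m' z _
      have hfun : (m + m').fn = fun z => m.fn z + m'.fn z := funext fun z => HB.fn_add m m' z
      by_cases hz : z = 0
      · subst hz
        rw [dslope_same, dslope_same, dslope_same, hfun]
        exact deriv_add (hd0 m) (hd0 m')
      · rw [dslope_of_ne _ hz, dslope_of_ne _ hz, dslope_of_ne _ hz]
        simp only [slope_def_module, HB.fn_add]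
        rw [← smul_add]
        congr 1
        abel) (by
      intro c m z _
      have hfun : (c • m).fn = fun z => c • m.fn z := funext fun z => HB.fn_smul c m z
      by_cases hz : z = 0
      · subst hz
        rw [dslope_same, dslope_same, hfun]
        exact deriv_const_smul_field c m.fn
      · rw [dslope_of_ne _ hz, dslope_of_ne _ hz]
        simp only [slope_def_module, HB.fn_smul]
        rw [← smul_sub, smul_comm]) (4 / r) (by positivity) hb
  refine ⟨Q, fun m z hz => ?_⟩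
  rw [hQ m z hz]
  have := sub_smul_dslope m.fn 0 z
  rw [sub_zero] at this
  rw [this]
  abel

/-- Taylor coefficients and remainder as bounded operators (induction with `exists_divZ`). -/
theorem taylor_split [CompleteSpace F] {r : ℝ} (hr : 0 < r) (n : ℕ) :
    ∃ (c : ℕ → HB (disc r) F →L[ℂ] F) (Q : HB (disc r) F →L[ℂ] HB (disc r) F),
      ∀ m, ∀ z ∈ disc r,
        m.fn z = ∑ i ∈ Finset.range n, z ^ i • c i m + z ^ n • (Q m).fn z := by
  obtain ⟨Q1, hQ1⟩ := exists_divZ (F := F) hr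
  induction n with
  | zero =>
    refine ⟨fun _ => 0, ContinuousLinearMap.id ℂ _, fun m z _ => ?_⟩
    simp
  | succ n ih =>
    obtain ⟨c, Q, h⟩ := ih
    refine ⟨fun i => if i = n then (evL 0).comp Q else c i, Q1.comp Q, fun m z hz => ?_⟩
    have h1 : ∑ i ∈ Finset.range n, z ^ i • (if i = n then (evL 0).comp Q else c i) m =
        ∑ i ∈ Finset.range n, z ^ i • c i m := by
      refine Finset.sum_congr rfl fun i hi => ?_
      rw [if_neg (Finset.mem_range.mp hi).ne]
    rw [Finset.sum_range_succ, h1, h m z hz, add_assoc]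
    congr 1
    simp only [if_true]
    have h2 := hQ1 (Q m) z hz
    change z ^ n • (Q m).fn z = z ^ n • (Q m).fn 0 + z ^ (n + 1) • (Q1 (Q m)).fn z
    rw [pow_succ, mul_smul, ← smul_add, ← h2]

/-- Uniform approximation by polynomials on a smaller closed disc
(`DifferentiableOn.hasFPowerSeriesOnBall`, `HasFPowerSeriesOnBall.tendstoUniformlyOn`). -/
theorem poly_approx [CompleteSpace F] {r s : ℝ} (hr : 0 < r) (hrs : r < s) {m : ℂ → F}
    (hm : DifferentiableOn ℂ m (ball 0 s)) {τ : ℝ} (hτ : 0 < τ) :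
    ∃ (n : ℕ) (c : ℕ → F), ∀ z ∈ closedBall (0 : ℂ) r,
      ‖m z - ∑ i ∈ Finset.range n, z ^ i • c i‖ ≤ τ := by
  obtain ⟨R, hrR, hRs⟩ := exists_between hrs
  obtain ⟨r', hrr', hr'R⟩ := exists_between hrR
  have hr' : 0 < r' := hr.trans hrr'
  have hR : 0 < R := hr.trans hrR
  lift R to NNReal using hR.le
  lift r' to NNReal using hr'.le
  have hps := (hm.mono (closedBall_subset_ball hRs)).hasFPowerSeriesOnBall
    (NNReal.coe_pos.mp hR)
  set p := cauchyPowerSeries m 0 R with hp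
  have hu := hps.tendstoUniformlyOn (r' := r') (by exact_mod_cast hr'R)
  rw [Metric.tendstoUniformlyOn_iff] at hu
  obtain ⟨n, hn⟩ := (hu τ hτ).exists
  refine ⟨n, p.coeff, fun z hz => ?_⟩
  have hz' : z ∈ ball (0 : ℂ) r' := by
    rw [mem_closedBall_zero_iff] at hz
    rw [mem_ball_zero_iff]
    linarith
  have h1 := hn z hz'
  rw [dist_eq_norm, zero_add] at h1
  have h2 : p.partialSum n z = ∑ i ∈ Finset.range n, z ^ i • p.coeff i := by
    unfold FormalMultilinearSeries.partialSum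
    exact Finset.sum_congr rfl fun i _ => FormalMultilinearSeries.apply_eq_pow_smul_coeff
  rw [h2] at h1
  exact h1.le

/-- Uniform approximation by Laurent polynomials on a smaller closed annulus
(`laurent_hol`, `poly_approx` twice; take the maximum of the two `n`, padding with zeros). -/
theorem laurent_approx [CompleteSpace F] {q1 r1 r2 q2 : ℝ} (h1 : 0 < q1) (h2 : q1 < r1)
    (h3 : r1 < r2) (h4 : r2 < q2) {g : ℂ → F} (hg : DifferentiableOn ℂ g (annu q1 q2 : Set ℂ))
    {τ : ℝ} (hτ : 0 < τ) :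
    ∃ (n : ℕ) (c c' : ℕ → F), ∀ z : ℂ, r1 ≤ ‖z‖ → ‖z‖ ≤ r2 →
      ‖g z - (∑ i ∈ Finset.range n, z ^ i • c i + ∑ i ∈ Finset.range n, z⁻¹ ^ i • c' i)‖ ≤ τ := by
  have hr1 : 0 < r1 := h1.trans h2
  obtain ⟨f, m, hf, hm, -, hfm⟩ := laurent_hol h1 (h2.trans (h3.trans h4)) hg
  obtain ⟨n1, c1, hc1⟩ := poly_approx (hr1.trans h3) h4 hf (half_pos hτ)
  obtain ⟨n2, c2, hc2⟩ := poly_approx (inv_pos.mpr hr1) (inv_strictAnti₀ h1 h2) hm (half_pos hτ)
  have hpad : ∀ (k n : ℕ) (c : ℕ → F) (z : ℂ), k ≤ n →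
      ∑ i ∈ Finset.range n, z ^ i • (if i < k then c i else 0) =
        ∑ i ∈ Finset.range k, z ^ i • c i := by
    intro k n c z hkn
    rw [← Finset.sum_subset (Finset.range_mono hkn)]
    · refine Finset.sum_congr rfl fun i hi => ?_
      rw [if_pos (Finset.mem_range.mp hi)]
    · intro i _ hi
      rw [if_neg (fun h => hi (Finset.mem_range.mpr h)), smul_zero]
  refine ⟨max n1 n2, fun i => if i < n1 then c1 i else 0, fun i => if i < n2 then c2 i else 0,
    fun z hz1 hz2 => ?_⟩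
  rw [hpad n1 _ c1 z (le_max_left _ _), hpad n2 _ c2 z⁻¹ (le_max_right _ _)]
  have hz : z ∈ annu q1 q2 := ⟨h2.trans_le hz1, hz2.trans_lt h4⟩
  have e1 := hc1 z (mem_closedBall_zero_iff.mpr hz2)
  have e2 := hc2 z⁻¹ (by
    rw [mem_closedBall_zero_iff, norm_inv]
    exact inv_anti₀ hr1 hz1)
  rw [hfm z hz]
  have e3 : f z + m z⁻¹ - (∑ i ∈ Finset.range n1, z ^ i • c1 i
      + ∑ i ∈ Finset.range n2, z⁻¹ ^ i • c2 i) = (f z - ∑ i ∈ Finset.range n1, z ^ i • c1 i)
      + (m z⁻¹ - ∑ i ∈ Finset.range n2, z⁻¹ ^ i • c2 i) := by abel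
  rw [e3]
  refine (norm_add_le _ _).trans ?_
  linarith

end Pool.Agent.W_4d259d_h53
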