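import Pool.Agent.W_4d259d_h44.TwoDisc
import Pool.Agent.W_4d259d_h44.ApiD
import Pool.Agent.W_4d259d_h53.FDef

/-!
# Block TD (V-TD 17): the nonlinear operator `Θ (w0, wi) = wi(1/z) - θ(z, w0(z))` of section 11
-/

noncomputable section

set_option linter.unusedSectionVars false

namespace Pool.Agent.W_4d259d_h53

open Set Filter Topology Manifold Metric MeasureTheory TopologicalSpace
open scoped ContDiff
open Pool.Agent.W_4d259d_h46.Defs Pool.Agent.W_4d259d_h46 Pool.Agent.W_4d259d_h44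

variable {E : Type} [NormedAddCommGroup E] [NormedSpace ℂ E] [FiniteDimensional ℂ E]
variable {X : Type} [MetricSpace X] [ChartedSpace E X]
  [IsManifold (modelWithCornersSelf ℂ E) ω X]
variable {u0 ui : ℂ → X} {r1 r2 : ℝ}

/-- The transition `θ` is complex differentiable on an open subset of `ℂ × E`. -/
theorem tda_diff (D : TwoDisc E u0 ui r1 r2) :
    DifferentiableOn ℂ (fun q : ℂ × E => D.θ q.1 q.2)
      ((annu D.q1 D.q2 : Set ℂ) ×ˢ ball (0 : E) D.d) := by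
  rw [← mdifferentiableOn_iff_differentiableOn]
  have h2 : MDifferentiableOn (modelWithCornersSelf ℂ (ℂ × E))
      ((modelWithCornersSelf ℂ ℂ).prod (modelWithCornersSelf ℂ E))
      (fun q : ℂ × E => (q.1, q.2)) ((annu D.q1 D.q2 : Set ℂ) ×ˢ ball (0 : E) D.d) :=
    (differentiable_fst.mdifferentiable.mdifferentiableOn).prodMk
      differentiable_snd.mdifferentiable.mdifferentiableOn
  exact MDifferentiableOn.comp (g := fun q : ℂ × E => D.θ q.1 q.2)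
    (f := fun q : ℂ × E => (q.1, q.2)) (u := ((annu D.q1 D.q2 : Set ℂ) ×ˢ ball (0 : E) D.d))
    D.θhol h2 (fun q hq => hq)

theorem tda_open (D : TwoDisc E u0 ui r1 r2) :
    IsOpen ((annu D.q1 D.q2 : Set ℂ) ×ˢ ball (0 : E) D.d) := (annu D.q1 D.q2).2.prod isOpen_ball

/-- The partial derivative in `w`. -/
theorem tda_partial (D : TwoDisc E u0 ui r1 r2) {z : ℂ} (hz : z ∈ annu D.q1 D.q2) {w : E}
    (hw : w ∈ ball (0 : E) D.d) : fderiv ℂ (D.θ z) w =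
      (fderiv ℂ (fun q : ℂ × E => D.θ q.1 q.2) (z, w)).comp (ContinuousLinearMap.inr ℂ ℂ E) := by
  have h0 : HasFDerivAt (fun q : ℂ × E => D.θ q.1 q.2)
      (fderiv ℂ (fun q : ℂ × E => D.θ q.1 q.2) (z, w)) (z, w) :=
    ((tda_diff D).differentiableAt ((tda_open D).mem_nhds ⟨hz, hw⟩)).hasFDerivAt
  have h1 : HasFDerivAt (fun w : E => ((z, w) : ℂ × E))
      (ContinuousLinearMap.inr ℂ ℂ E) w := hasFDerivAt_prodMk_right z w
  have h2 := HasFDerivAt.comp (g := fun q : ℂ × E => D.θ q.1 q.2)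
    (f := fun w : E => ((z, w) : ℂ × E)) w h0 h1
  exact h2.fderiv

/-- `(z, w) ↦ ∂_w θ(z, w)` is complex differentiable. -/
theorem tda_diff' (D : TwoDisc E u0 ui r1 r2) :
    DifferentiableOn ℂ (fun q : ℂ × E => fderiv ℂ (D.θ q.1) q.2)
      ((annu D.q1 D.q2 : Set ℂ) ×ˢ ball (0 : E) D.d) := by
  have h1 := ApiC.differentiableOn_fderiv (tda_open D) (tda_diff D)
  have h2 : DifferentiableOn ℂ (fun q : ℂ × E =>
      (fderiv ℂ (fun q : ℂ × E => D.θ q.1 q.2) q).comp (ContinuousLinearMap.inr ℂ ℂ E))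
      ((annu D.q1 D.q2 : Set ℂ) ×ˢ ball (0 : E) D.d) :=
    h1.clm_comp (differentiableOn_const _)
  exact h2.congr fun q hq => tda_partial D hq.1 hq.2

/-- The operator `Θ` of the two disc model: complex differentiable near `0`, with derivative
`T_g`, `g z = ∂_w θ(z, w0 z)`.
Proof: `nem` for `θ` on `annu r1 r2` (bounded by `D.δ`, radius `D.d`), `exists_res` from
`disc r2` to `annu r1 r2` and `exists_invOp`:
`Θ w = invOp w.2 - Nop (res w.1)` on the ball of radius `D.d / 2`; chain rule. -/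
theorem exists_Theta (D : TwoDisc E u0 ui r1 r2) :
    ∃ (Θ : HB (disc r2) E × HB (disc r1⁻¹) E → HB (annu r1 r2) E),
      DifferentiableOn ℂ Θ (ball 0 (D.d / 2)) ∧
      (∀ w ∈ ball (0 : HB (disc r2) E × HB (disc r1⁻¹) E) (D.d / 2), ∀ z ∈ annu r1 r2,
        (Θ w).fn z = w.2.fn z⁻¹ - D.θ z (w.1.fn z)) ∧
      ∀ w ∈ ball (0 : HB (disc r2) E × HB (disc r1⁻¹) E) (D.d / 2),
        ∀ g : ℂ → E →L[ℂ] E, (∀ z ∈ annu r1 r2, g z = fderiv ℂ (D.θ z) (w.1.fn z)) →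
          IsTg g (fderiv ℂ Θ w) := by
  have hEc : CompleteSpace E := FiniteDimensional.complete ℂ E
  have hd := D.hd
  have hsub : (annu r1 r2 : Set ℂ) ⊆ (annu D.q1 D.q2 : Set ℂ) := by
    rintro z ⟨hz1, hz2⟩
    exact ⟨D.hqr1.trans hz1, hz2.trans D.hqr2⟩
  have hξ : HolOn2 E D.θ (annu r1 r2 : Set ℂ) (ball (0 : E) D.d) :=
    MDifferentiableOn.mono D.θhol (prod_mono hsub subset_rfl)
  obtain ⟨Nop, hN1, hN2, hN3⟩ := nem (U := annu r1 r2) (ξ := D.θ) (δ := D.d) (δ' := D.d / 2)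
    (M := D.δ) (by linarith) hξ (fun z hz w hw => (D.θlt z (hsub hz) w hw).le)
  obtain ⟨S, hSn, hS⟩ := exists_res (F := E) (U := annu r1 r2) (V := disc r2) (fun z hz => by
    change z ∈ ball (0 : ℂ) r2
    rw [mem_ball_zero_iff]
    exact hz.2)
  obtain ⟨I, -, hI⟩ := exists_invOp (F := E) (D.hq1.trans D.hqr1) D.hr
  have hSb : ∀ w ∈ ball (0 : HB (disc r2) E × HB (disc r1⁻¹) E) (D.d / 2),
      ‖S w.1‖ < D.d / 2 := by
    intro w hw
    rw [mem_ball_zero_iff] at hw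
    have h1 : ‖S w.1‖ ≤ 1 * ‖w.1‖ :=
      (S.le_opNorm _).trans (mul_le_mul_of_nonneg_right hSn (norm_nonneg _))
    have h2 : ‖w.1‖ ≤ ‖w‖ := norm_fst_le w
    linarith
  have hder : ∀ w ∈ ball (0 : HB (disc r2) E × HB (disc r1⁻¹) E) (D.d / 2),
      HasFDerivAt (fun w : HB (disc r2) E × HB (disc r1⁻¹) E => I w.2 - Nop (S w.1))
        (I.comp (ContinuousLinearMap.snd ℂ _ _) -
          (fderiv ℂ Nop (S w.1)).comp (S.comp (ContinuousLinearMap.fst ℂ _ _))) w := by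
    intro w hw
    have h1 : HasFDerivAt Nop (fderiv ℂ Nop (S w.1)) (S w.1) :=
      (hN2.differentiableAt (isOpen_ball.mem_nhds (mem_ball_zero_iff.2 (hSb w hw)))).hasFDerivAt
    have h2 : HasFDerivAt (fun w : HB (disc r2) E × HB (disc r1⁻¹) E => S w.1)
        (S.comp (ContinuousLinearMap.fst ℂ (HB (disc r2) E) (HB (disc r1⁻¹) E))) w :=
      (S.comp (ContinuousLinearMap.fst ℂ (HB (disc r2) E) (HB (disc r1⁻¹) E))).hasFDerivAt
    have h3 : HasFDerivAt (fun w : HB (disc r2) E × HB (disc r1⁻¹) E => I w.2)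
        (I.comp (ContinuousLinearMap.snd ℂ (HB (disc r2) E) (HB (disc r1⁻¹) E))) w :=
      (I.comp (ContinuousLinearMap.snd ℂ (HB (disc r2) E) (HB (disc r1⁻¹) E))).hasFDerivAt
    have h4 := HasFDerivAt.comp (g := Nop)
      (f := fun w : HB (disc r2) E × HB (disc r1⁻¹) E => S w.1) w h1 h2
    exact h3.sub h4
  refine ⟨fun w => I w.2 - Nop (S w.1), fun w hw =>
    (hder w hw).differentiableAt.differentiableWithinAt, ?_, ?_⟩
  · intro w hw z hz
    rw [HB.fn_sub, hI _ z hz, hN1 _ (hSb w hw) z hz, hS _ z hz]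
  · intro w hw g hg v z hz
    rw [(hder w hw).fderiv]
    have e : (I.comp (ContinuousLinearMap.snd ℂ (HB (disc r2) E) (HB (disc r1⁻¹) E)) -
        (fderiv ℂ Nop (S w.1)).comp
          (S.comp (ContinuousLinearMap.fst ℂ (HB (disc r2) E) (HB (disc r1⁻¹) E)))) v =
        I v.2 - fderiv ℂ Nop (S w.1) (S v.1) := rfl
    rw [e, HB.fn_sub, hI _ z hz, hN3 _ (hSb w hw) _ z hz, hS _ z hz, hS _ z hz, hg z hz]

/-- `∂_w θ(z,w)` is invertible for `z` in a closed annulus `t1 ≤ |z| ≤ t2` inside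
`q1 < |z| < q2` and small `w`: `(z,w) ↦ fderiv ℂ (D.θ z) w` is continuous on
`annu q1 q2 × ball 0 d` (`ApiC.differentiableOn_fderiv` on `ℂ × E`; the partial derivative is the
composition with the inclusion `E → ℂ × E`), units are open, and the annulus is compact. -/
theorem unit_near (D : TwoDisc E u0 ui r1 r2) {t1 t2 : ℝ} (h1 : D.q1 < t1) (h2 : t2 < D.q2) :
    ∃ ε > 0, ε ≤ D.d ∧ ∀ z : ℂ, t1 ≤ ‖z‖ → ‖z‖ ≤ t2 → ∀ w : E, ‖w‖ < ε →
      IsUnit (fderiv ℂ (D.θ z) w) := by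
  have hEc : CompleteSpace E := FiniteDimensional.complete ℂ E
  have hd := D.hd
  have hKs : {z : ℂ | t1 ≤ ‖z‖ ∧ ‖z‖ ≤ t2} ⊆ (annu D.q1 D.q2 : Set ℂ) := by
    rintro z ⟨hz1, hz2⟩
    exact ⟨lt_of_lt_of_le h1 hz1, lt_of_le_of_lt hz2 h2⟩
  have hK : IsCompact {z : ℂ | t1 ≤ ‖z‖ ∧ ‖z‖ ≤ t2} := by
    apply (isCompact_closedBall (0 : ℂ) t2).of_isClosed_subset
    · exact (isClosed_le continuous_const continuous_norm).inter
        (isClosed_le continuous_norm continuous_const)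
    · rintro z ⟨_, hz2⟩
      rw [mem_closedBall_zero_iff]
      exact hz2
  have hn : IsOpen (((annu D.q1 D.q2 : Set ℂ) ×ˢ ball (0 : E) D.d) ∩
      (fun q : ℂ × E => fderiv ℂ (D.θ q.1) q.2) ⁻¹' {L : E →L[ℂ] E | IsUnit L}) :=
    (tda_diff' D).continuousOn.isOpen_inter_preimage (tda_open D) Units.isOpen
  obtain ⟨u, v, hu, hv, hCu, h0v, huv⟩ := generalized_tube_lemma
    (s := {z : ℂ | t1 ≤ ‖z‖ ∧ ‖z‖ ≤ t2}) (t := {(0 : E)}) hK
    isCompact_singleton hn (by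
      rintro ⟨z, w⟩ ⟨hz, hw⟩
      rw [mem_singleton_iff] at hw
      simp only at hz hw
      subst hw
      exact ⟨⟨hKs hz, mem_ball_self hd⟩, D.θunit z (hKs hz)⟩)
  obtain ⟨δ1, hδ1, hδv⟩ := Metric.isOpen_iff.1 hv 0 (h0v rfl)
  refine ⟨min D.d δ1, lt_min hd hδ1, min_le_left _ _, fun z hz1 hz2 w hw => ?_⟩
  have h3 := huv (show (z, w) ∈ u ×ˢ v from
    ⟨hCu ⟨hz1, hz2⟩, hδv (mem_ball_zero_iff.2 (hw.trans_le (min_le_right _ _)))⟩)
  exact h3.2

/-- `z ↦ ∂_w θ(z, W z)` is holomorphic for `W` holomorphic and small. -/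
theorem gw_hol (D : TwoDisc E u0 ui r1 r2) {t1 t2 : ℝ} (h1 : D.q1 < t1) (h2 : t2 < D.q2)
    {W : ℂ → E} (hW : DifferentiableOn ℂ W (ball 0 t2)) (hb : ∀ z ∈ ball (0 : ℂ) t2, ‖W z‖ < D.d) :
    DifferentiableOn ℂ (fun z => fderiv ℂ (D.θ z) (W z)) (annu t1 t2 : Set ℂ) := by
  have hmem : ∀ z ∈ (annu t1 t2 : Set ℂ), z ∈ ball (0 : ℂ) t2 := by
    rintro z ⟨_, hz2⟩
    rw [mem_ball_zero_iff]
    exact hz2
  refine (tda_diff' D).comp (f := fun z : ℂ => ((z, W z) : ℂ × E))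
    (differentiableOn_id.prodMk (hW.mono hmem)) ?_
  intro z hz
  exact ⟨⟨h1.trans hz.1, hz.2.trans h2⟩, mem_ball_zero_iff.2 (hb z (hmem z hz))⟩

end Pool.Agent.W_4d259d_h53
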