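import Pool.Agent.W_4d259d_h44.LocInv
import Pool.Agent.W_4d259d_h44.ApiD
import Pool.Agent.W_4d259d_h44.ApiB
import Pool.Agent.W_4d259d_h44.TwoDiscB

/-!
# Block TD (V-TD 19): the two disc model from given sprays; change of the base curve
-/

noncomputable section

set_option linter.unusedSectionVars false

namespace Pool.Agent.W_4d259d_h53

open Set Filter Topology Manifold Metric MeasureTheory TopologicalSpace
open scoped ContDiff
open Pool.Agent.W_4d259d_h46.Defs Pool.Agent.W_4d259d_h46 Pool.Agent.W_4d259d_h44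

variable {E : Type} [NormedAddCommGroup E] [NormedSpace ℂ E] [FiniteDimensional ℂ E]
variable {X : Type} [MetricSpace X] [ChartedSpace E X]
  [IsManifold (modelWithCornersSelf ℂ E) ω X]

private theorem TdD_big {r : ℝ} (hr : 0 ≤ r) (W : Opens ℂ) (hW : closedBall (0 : ℂ) r ⊆ W) :
    ∃ q : ℝ, r < q ∧ closedBall (0 : ℂ) q ⊆ W := by
  obtain ⟨e, he, hsub⟩ := (isCompact_closedBall (0 : ℂ) r).exists_cthickening_subset_open W.2 hW
  refine ⟨e + r, by linarith, ?_⟩
  rw [cthickening_closedBall he.le hr] at hsub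
  exact hsub

/-- The two disc model with prescribed sprays `s0`, `si` of the same radius, over neighbourhoods of
the closed discs of radii `r2` and `1/r1`.
Proof: `exists_locInv` for `s0` over `closedBall 0 r2` and for `si` over `closedBall 0 r1⁻¹` gives
`l0`, `li` over `W0' ⊇ closedBall 0 r2`, `Wi' ⊇ closedBall 0 r1⁻¹`; choose `q2 > r2`, `q1 < r1` with
`closedBall 0 q2 ⊆ W0'`, `closedBall 0 q1⁻¹ ⊆ Wi'` (compactness); take common constants `δ'`, `κ`
(the fields of `IsLocInv` are monotone in `δ'`; for `κ` take the minimum and shrink `δ'` by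
`small'`).  `θ z w = li z⁻¹ (s0 z w)`: for `‖w‖ < d` (`small'`: `dist (s0 z w) (u0 z) < κ` and
`ui z⁻¹ = u0 z`) it is defined, holomorphic (composition), `si z⁻¹ (θ z w) = s0 z w` by `right`,
`θ z 0 = 0` and `θuniq` by `left` for `d ≤ δ'`; `θunit`: `θ z` is injective with local inverse
`w' ↦ l0 z (si z⁻¹ w')`, so its derivative at `0` is invertible (chain rule on
`l0 z (si z⁻¹ (θ z w)) = w`). -/
theorem exists_twoDisc_of_sprays {u0 ui : ℂ → X} (hu : IsPair E u0 ui) {r1 r2 : ℝ} (h1 : 0 < r1)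
    (h2 : r1 < r2) {W0 Wi : Opens ℂ} (hW0 : closedBall (0 : ℂ) r2 ⊆ W0)
    (hWi : closedBall (0 : ℂ) r1⁻¹ ⊆ Wi) {δ : ℝ} {s0 si : ℂ → E → X}
    (hs0 : IsSpray W0 u0 δ s0) (hsi : IsSpray Wi ui δ si) :
    ∃ D : TwoDisc E u0 ui r1 r2, D.s0 = s0 ∧ D.si = si := by
  have h2p : 0 < r2 := h1.trans h2
  obtain ⟨q2, hq2, hA0⟩ := TdD_big h2p.le W0 hW0
  obtain ⟨q1i, hq1i, hAi⟩ := TdD_big (inv_pos.2 h1).le Wi hWi
  obtain ⟨q1, hq1p, hqr1, hq1inv⟩ : ∃ q1 : ℝ, 0 < q1 ∧ q1 < r1 ∧ q1⁻¹ = q1i := by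
    have h3 : 0 < q1i := (inv_pos.2 h1).trans hq1i
    exact ⟨q1i⁻¹, inv_pos.2 h3, inv_lt_of_inv_lt₀ h1 hq1i, inv_inv q1i⟩
  rw [← hq1inv] at hAi
  obtain ⟨V0, d0, k0, l0, hC0, hVW0, hd0, hl0⟩ := exists_locInv (W := W0) (f := u0)
    (hu.hol0.mono (subset_univ _)) hs0 (isCompact_closedBall 0 q2) hA0
  obtain ⟨Vi, di, ki, li, hCi, hVWi, hdi, hli⟩ := exists_locInv (W := Wi) (f := ui)
    (hu.holi.mono (subset_univ _)) hsi (isCompact_closedBall 0 q1⁻¹) hAi
  have hδp := hs0.pos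
  set κ : ℝ := min k0 ki with hκ
  have hκp : 0 < κ := lt_min hl0.kpos hli.kpos
  obtain ⟨e0, he0, he0'⟩ := hl0.small' κ hκp
  obtain ⟨ei, hei, hei'⟩ := hli.small' κ hκp
  set δ' : ℝ := min (min d0 di) (min e0 ei) with hδ'
  have hδ'p : 0 < δ' := lt_min (lt_min hl0.dpos hli.dpos) (lt_min he0 hei)
  have hV0 : disc q2 ≤ V0 := disc_le29 le_rfl hC0
  have hVi : disc q1⁻¹ ≤ Vi := disc_le29 le_rfl hCi
  have m0 := hl0.mono29 hV0 (min_le_left k0 ki) hκp
    ((min_le_left _ _).trans (min_le_left _ _) : δ' ≤ d0) hδ'p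
    (fun z hz w hw => he0' z (hV0 hz) w (hw.trans_le ((min_le_right _ _).trans (min_le_left _ _))))
  have mi := hli.mono29 hVi (min_le_right k0 ki) hκp
    ((min_le_left _ _).trans (min_le_right _ _) : δ' ≤ di) hδ'p
    (fun z hz w hw => hei' z (hVi hz) w (hw.trans_le ((min_le_right _ _).trans (min_le_right _ _))))
  have n0 := hs0.mono29 (hV0.trans hVW0) le_rfl hδp
  have ni := hsi.mono29 (hVi.trans hVWi) le_rfl hδp
  set d : ℝ := min δ' δ with hd
  have hdp : 0 < d := lt_min hδ'p hδp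
  have hann : ∀ z ∈ annu q1 q2, z ≠ 0 ∧ z ∈ disc q2 ∧ z⁻¹ ∈ disc q1⁻¹ := by
    intro z hz
    have hz' : q1 < ‖z‖ ∧ ‖z‖ < q2 := hz
    have h0 : 0 < ‖z‖ := hq1p.trans hz'.1
    refine ⟨norm_pos_iff.1 h0, ?_, ?_⟩
    · show z ∈ ball (0 : ℂ) q2
      rw [mem_ball_zero_iff]; exact hz'.2
    · show z⁻¹ ∈ ball (0 : ℂ) q1⁻¹
      rw [mem_ball_zero_iff, norm_inv]
      exact (inv_lt_inv₀ h0 hq1p).2 hz'.1
  have hux : ∀ z ∈ annu q1 q2, ui z⁻¹ = u0 z := fun z hz => hu.eq z (hann z hz).1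
  have hclose : ∀ z ∈ annu q1 q2, ∀ w : E, ‖w‖ < d → dist (s0 z w) (ui z⁻¹) < κ := by
    intro z hz w hw
    rw [hux z hz]
    exact (m0.left z (hann z hz).2.1 w (hw.trans_le (min_le_left _ _))).1
  have hclosei : ∀ z ∈ annu q1 q2, ∀ w : E, ‖w‖ < δ' → dist (si z⁻¹ w) (u0 z) < κ := by
    intro z hz w hw
    rw [← hux z hz]
    exact (mi.left z⁻¹ (hann z hz).2.2 w hw).1
  have hθhol : HolOn2 E (fun z w => li z⁻¹ (s0 z w)) (annu q1 q2 : Set ℂ) (ball (0 : E) d) := by
    have g1 : MDifferentiableOn ((modelWithCornersSelf ℂ ℂ).prod (modelWithCornersSelf ℂ E))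
        (modelWithCornersSelf ℂ ℂ) (fun q : ℂ × E => q.1⁻¹)
        ((annu q1 q2 : Set ℂ) ×ˢ ball (0 : E) d) := by
      have g2 : MDifferentiableOn (modelWithCornersSelf ℂ ℂ) (modelWithCornersSelf ℂ ℂ)
          (fun z : ℂ => z⁻¹) (annu q1 q2 : Set ℂ) := by
        rw [mdifferentiableOn_iff_differentiableOn]
        intro z hz
        exact (differentiableAt_inv (hann z hz).1).differentiableWithinAt
      exact g2.comp mdifferentiable_fst.mdifferentiableOn (fun q hq => hq.1)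
    have g3 : MDifferentiableOn ((modelWithCornersSelf ℂ ℂ).prod (modelWithCornersSelf ℂ E))
        (modelWithCornersSelf ℂ E) (fun q : ℂ × E => s0 q.1 q.2)
        ((annu q1 q2 : Set ℂ) ×ˢ ball (0 : E) d) := by
      refine n0.hol.mono (prod_mono (fun z hz => (hann z hz).2.1) (ball_subset_ball ?_))
      exact min_le_right _ _
    exact mi.hol.comp (g1.prodMk g3) (fun q hq =>
      ⟨(hann q.1 hq.1).2.2, hclose q.1 hq.1 q.2 (mem_ball_zero_iff.1 hq.2)⟩)
  have hθzero : ∀ z ∈ annu q1 q2, li z⁻¹ (s0 z 0) = 0 := by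
    intro z hz
    rw [n0.zero z (hann z hz).2.1, ← hux z hz, ← ni.zero z⁻¹ (hann z hz).2.2]
    exact (mi.left z⁻¹ (hann z hz).2.2 0 (by rw [norm_zero]; exact hδ'p)).2
  refine ⟨{ q1 := q1, q2 := q2, hq1 := hq1p, hqr1 := hqr1, hr := h2,
            hqr2 := hq2, δ := δ, s0 := s0, si := si, spray0 := n0,
            sprayi := ni, δ' := δ', κ := κ, l0 := l0, li := li, inv0 := m0, invi := mi,
            d := d, hd := hdp, hdδ := min_le_right _ _, θ := fun z w => li z⁻¹ (s0 z w),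
            θhol := hθhol, θzero := hθzero, θunit := ?_, θlt := ?_, θeq := ?_, θuniq := ?_ },
            rfl, rfl⟩
  · intro z hz
    refine isUnit_of_comp29 (A := fun w => l0 z (si z⁻¹ w)) hdp ?_ (hθzero z hz) ?_ ?_
    · exact (hol2_slice hθhol hz).differentiableAt (ball_mem_nhds _ hdp)
    · have g1 : MDifferentiableOn (modelWithCornersSelf ℂ E)
          ((modelWithCornersSelf ℂ ℂ).prod (modelWithCornersSelf ℂ E))
          (fun w : E => (z⁻¹, w)) (ball (0 : E) d) :=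
        (mdifferentiableOn_const).prodMk mdifferentiableOn_id
      have g2 : MDifferentiableOn (modelWithCornersSelf ℂ E) (modelWithCornersSelf ℂ E)
          (fun w : E => si z⁻¹ w) (ball (0 : E) d) :=
        ni.hol.comp g1 (fun w hw => ⟨(hann z hz).2.2, ball_subset_ball (min_le_right _ _) hw⟩)
      have g3 : MDifferentiableOn (modelWithCornersSelf ℂ E)
          ((modelWithCornersSelf ℂ ℂ).prod (modelWithCornersSelf ℂ E))
          (fun w : E => (z, si z⁻¹ w)) (ball (0 : E) d) :=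
        (mdifferentiableOn_const).prodMk g2
      have g4 : MDifferentiableOn (modelWithCornersSelf ℂ E) (modelWithCornersSelf ℂ E)
          (fun w : E => l0 z (si z⁻¹ w)) (ball (0 : E) d) :=
        m0.hol.comp g3 (fun w hw => ⟨(hann z hz).2.1, hclosei z hz w
          ((mem_ball_zero_iff.1 hw).trans_le (min_le_left _ _))⟩)
      exact (mdifferentiableOn_iff_differentiableOn.1 g4).differentiableAt
        (ball_mem_nhds _ hdp)
    · intro w hw
      have hw' := mem_ball_zero_iff.1 hw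
      show l0 z (si z⁻¹ (li z⁻¹ (s0 z w))) = w
      rw [(mi.right z⁻¹ (hann z hz).2.2 _ (hclose z hz w hw')).2]
      exact (m0.left z (hann z hz).2.1 w (hw'.trans_le (min_le_left _ _))).2
  · intro z hz w hw
    exact (mi.right z⁻¹ (hann z hz).2.2 _ (hclose z hz w (mem_ball_zero_iff.1 hw))).1
  · intro z hz w hw
    exact (mi.right z⁻¹ (hann z hz).2.2 _ (hclose z hz w (mem_ball_zero_iff.1 hw))).2
  · intro z hz w hw w' hw' h
    show w' = li z⁻¹ (s0 z w)
    rw [← h]
    exact (mi.left z⁻¹ (hann z hz).2.2 w'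
      ((mem_ball_zero_iff.1 hw').trans_le (min_le_left _ _))).2.symm

/-- The spray `(z, w) ↦ s z (W z + w)`. -/
private theorem TdD_spray {f g : ℂ → X} {q t δ δ' κ ε : ℝ} {s : ℂ → E → X} {l : ℂ → X → E}
    (hs : IsSpray (disc q) f δ s) (hl : IsLocInv (disc q) f δ s δ' κ l) (ht : t ≤ q)
    (hg : HolOn E g (disc t)) {W : ℂ → E} (hW : DifferentiableOn ℂ W (ball 0 t))
    (hb : ∀ z ∈ ball (0 : ℂ) t, ‖W z‖ < ε ∧ s z (W z) = g z) (hε : 0 < ε) (hε1 : 2 * ε ≤ δ)
    (hε2 : 2 * ε ≤ δ') :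
    IsSpray (disc t) g (δ - ε) (fun z w => s z (W z + w)) := by
  have hsub : ∀ z ∈ disc t, z ∈ disc q := fun z hz => ball_subset_ball ht hz
  have hhol : HolOn2 E (fun z w => s z (W z + w)) (disc t : Set ℂ) (ball (0 : E) (δ - ε)) := by
    have h1 : MDifferentiableOn ((modelWithCornersSelf ℂ ℂ).prod (modelWithCornersSelf ℂ E))
        (modelWithCornersSelf ℂ E) (fun q : ℂ × E => W q.1 + q.2)
        ((disc t : Set ℂ) ×ˢ ball (0 : E) (δ - ε)) := by
      have h2 : MDifferentiableOn ((modelWithCornersSelf ℂ ℂ).prod (modelWithCornersSelf ℂ E))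
          (modelWithCornersSelf ℂ E) (fun q : ℂ × E => W q.1)
          ((disc t : Set ℂ) ×ˢ ball (0 : E) (δ - ε)) := by
        have h3 : MDifferentiableOn (modelWithCornersSelf ℂ ℂ) (modelWithCornersSelf ℂ E) W
            (disc t : Set ℂ) := mdifferentiableOn_iff_differentiableOn.2 hW
        exact h3.comp mdifferentiable_fst.mdifferentiableOn (fun q hq => hq.1)
      exact h2.add mdifferentiable_snd.mdifferentiableOn
    refine hs.hol.comp (mdifferentiable_fst.mdifferentiableOn.prodMk h1) ?_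
    rintro ⟨z, w⟩ ⟨hz, hw⟩
    refine ⟨hsub z hz, ?_⟩
    rw [mem_ball_zero_iff] at hw ⊢
    have h3 := (hb z hz).1
    have h4 := norm_add_le (W z) w
    show ‖W z + w‖ < δ
    linarith
  refine ⟨by linarith, hhol, fun z hz => ?_, fun z hz => ?_⟩
  · show s z (W z + 0) = g z
    rw [add_zero]
    exact (hb z hz).2
  · have hφ : chartAt E (g z) ∈ XChart E X := IsManifold.chart_mem_maximalAtlas (g z)
    have hsrc : g z ∈ (chartAt E (g z)).source := mem_chart_source E (g z)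
    refine ⟨chartAt E (g z), hφ, hsrc, ?_⟩
    generalize chartAt E (g z) = φ at hφ hsrc
    have hz' := hsub z hz
    have hWz := (hb z hz).1
    -- the slice
    have hslice : MDifferentiableAt (modelWithCornersSelf ℂ E) (modelWithCornersSelf ℂ E)
        (fun w : E => s z (W z + w)) 0 := by
      have h2 : MDifferentiableOn (modelWithCornersSelf ℂ E)
          ((modelWithCornersSelf ℂ ℂ).prod (modelWithCornersSelf ℂ E))
          (fun w : E => (z, w)) (ball (0 : E) (δ - ε)) :=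
        (mdifferentiableOn_const).prodMk mdifferentiableOn_id
      have h3 : MDifferentiableOn (modelWithCornersSelf ℂ E) (modelWithCornersSelf ℂ E)
          (fun w : E => s z (W z + w)) (ball (0 : E) (δ - ε)) :=
        hhol.comp h2 (fun w hw => ⟨hz, hw⟩)
      exact (h3 0 (mem_ball_self (by linarith))).mdifferentiableAt
        (isOpen_ball.mem_nhds (mem_ball_self (by linarith)))
    have hval : s z (W z + 0) = g z := by rw [add_zero]; exact (hb z hz).2
    have hBd : DifferentiableAt ℂ (fun w => φ (s z (W z + w)) - φ (g z)) 0 := by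
      have h4 : MDifferentiableAt (modelWithCornersSelf ℂ E) (modelWithCornersSelf ℂ E) φ
          (s z (W z + 0)) := by
        rw [hval]
        exact ((contMDiffOn_of_mem_maximalAtlas hφ).mdifferentiableOn (by simp) (g z)
          hsrc).mdifferentiableAt (φ.open_source.mem_nhds hsrc)
      have h5 : DifferentiableAt ℂ (fun w => φ (s z (W z + w))) 0 :=
        (MDifferentiableAt.comp (0 : E) h4 hslice).differentiableAt
      exact h5.sub_const _
    have hdist : dist (g z) (f z) < κ := by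
      rw [← (hb z hz).2]
      exact (hl.left z hz' (W z) (by linarith)).1
    have hAd : DifferentiableAt ℂ (fun y : E => l z (φ.symm (y + φ (g z))) - W z) 0 := by
      have h6 : MDifferentiableAt (modelWithCornersSelf ℂ E) (modelWithCornersSelf ℂ E)
          (l z) (φ.symm (0 + φ (g z))) := by
        rw [zero_add, φ.left_inv hsrc]
        have h8 : MDifferentiableOn (modelWithCornersSelf ℂ E)
            ((modelWithCornersSelf ℂ ℂ).prod (modelWithCornersSelf ℂ E))
            (fun x : X => (z, x)) (ball (f z) κ) :=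
          mdifferentiableOn_const.prodMk mdifferentiableOn_id
        have h7 : MDifferentiableOn (modelWithCornersSelf ℂ E) (modelWithCornersSelf ℂ E)
            (fun x : X => l z x) (ball (f z) κ) :=
          hl.hol.comp h8 (fun x hx => ⟨hz', hx⟩)
        exact (h7 (g z) hdist).mdifferentiableAt (isOpen_ball.mem_nhds hdist)
      have h9 : MDifferentiableAt (modelWithCornersSelf ℂ E) (modelWithCornersSelf ℂ E)
          (fun y : E => φ.symm (y + φ (g z))) 0 := by
        have h10 : MDifferentiableAt (modelWithCornersSelf ℂ E) (modelWithCornersSelf ℂ E)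
            φ.symm (0 + φ (g z)) := by
          rw [zero_add]
          exact ((contMDiffOn_symm_of_mem_maximalAtlas hφ).mdifferentiableOn (by simp) (φ (g z))
            (φ.map_source hsrc)).mdifferentiableAt
            (φ.open_target.mem_nhds (φ.map_source hsrc))
        have h11 : MDifferentiableAt (modelWithCornersSelf ℂ E) (modelWithCornersSelf ℂ E)
            (fun y : E => y + φ (g z)) 0 :=
          (differentiableAt_id.add_const _).mdifferentiableAt
        exact MDifferentiableAt.comp (0 : E) h10 h11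
      exact (MDifferentiableAt.comp (0 : E) h6 h9).differentiableAt.sub_const _
    have hnb : ∀ᶠ w in 𝓝 (0 : E), s z (W z + w) ∈ φ.source := by
      refine hslice.continuousAt.eventually (φ.open_source.mem_nhds ?_)
      show s z (W z + 0) ∈ φ.source
      rw [hval]
      exact hsrc
    obtain ⟨d0, hd0, hd0'⟩ := Metric.eventually_nhds_iff_ball.1 hnb
    have hunit := isUnit_of_comp29 (A := fun y : E => l z (φ.symm (y + φ (g z))) - W z)
      (B := fun w => φ (s z (W z + w)) - φ (g z)) (d := min d0 ε) (lt_min hd0 hε) hBd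
      (by show φ (s z (W z + 0)) - φ (g z) = 0; rw [hval, sub_self]) hAd (by
        intro w hw
        rw [mem_ball_zero_iff] at hw
        have hw1 : s z (W z + w) ∈ φ.source :=
          hd0' w (mem_ball_zero_iff.2 (hw.trans_le (min_le_left _ _)))
        have hw2 : ‖W z + w‖ < δ' := by
          have h3 := norm_add_le (W z) w
          have h4 := hw.trans_le (min_le_right d0 ε)
          linarith
        show l z (φ.symm (φ (s z (W z + w)) - φ (g z) + φ (g z))) - W z = w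
        rw [sub_add_cancel, φ.left_inv hw1, (hl.left z hz' _ hw2).2, add_sub_cancel_left])
    rwa [fderiv_sub_const] at hunit


/-- Change of the base curve: a rational curve `(v0, vi)` with coordinates `(W0, Wi)` over larger
discs in the model `D` has its own two disc model `D'`, with transition
`θ' z w = θ z (W0 z + w) - Wi z⁻¹`; in particular `∂_w θ'(z,0) = ∂_w θ(z, W0 z)`.
Proof: `s0' z w = s0 z (W0 z + w)` is a spray over `disc t2` along `v0`, of radius
`D.δ - ε`: holomorphic, `s0' z 0 = v0 z`, and `∂_w s0(z, W0 z)` is invertible since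
`l0 z (s0 z w) = w` near `W0 z` (`‖W0 z‖ < ε ≤ D.δ'`); same for `si'`.  Apply
`exists_twoDisc_of_sprays` (equal radii).  For small `w`,
`si z⁻¹ (Wi z⁻¹ + θ' z w) = s0 z (W0 z + w) = si z⁻¹ (θ z (W0 z + w))`, so by `left` of `D.invi`
(both arguments have norm `< D.δ'` for small `w`: `Wi z⁻¹ = θ z (W0 z)` has norm `< ε`, and
`θ'`, `θ` are continuous) `θ' z w = θ z (W0 z + w) - Wi z⁻¹` near `w = 0`. -/
theorem exists_shift {u0 ui : ℂ → X} {r1 r2 : ℝ} (h1 : 0 < r1) (D : TwoDisc E u0 ui r1 r2)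
    {t1 t2 : ℝ} (ht1 : D.q1 < t1) (ht1' : t1 < r1) (ht2 : r2 < t2) (ht2' : t2 < D.q2)
    {ε : ℝ} (hε : 0 < ε) (hεd : 2 * ε ≤ D.d) (hεδ : 2 * ε ≤ D.δ') (hεδ' : 2 * ε ≤ D.δ)
    {v0 vi : ℂ → X} (hv : IsPair E v0 vi) {W0 Wi : ℂ → E}
    (hW0 : DifferentiableOn ℂ W0 (ball 0 t2)) (hWi : DifferentiableOn ℂ Wi (ball 0 t1⁻¹))
    (hb0 : ∀ z ∈ ball (0 : ℂ) t2, ‖W0 z‖ < ε ∧ D.s0 z (W0 z) = v0 z)
    (hbi : ∀ η ∈ ball (0 : ℂ) t1⁻¹, ‖Wi η‖ < ε ∧ D.si η (Wi η) = vi η)
    (he : ∀ z ∈ annu t1 t2, Wi z⁻¹ = D.θ z (W0 z)) :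
    ∃ D' : TwoDisc E v0 vi r1 r2, ∀ z ∈ annu r1 r2,
      fderiv ℂ (D'.θ z) 0 = fderiv ℂ (D.θ z) (W0 z) := by
  have ht1p : 0 < t1 := D.hq1.trans ht1
  have hr2p : 0 < r2 := h1.trans D.hr
  have hti : t1⁻¹ < D.q1⁻¹ := (inv_lt_inv₀ ht1p D.hq1).2 ht1
  have hri : r1⁻¹ < t1⁻¹ := (inv_lt_inv₀ h1 ht1p).2 ht1'
  have hs0' := TdD_spray D.spray0 D.inv0 ht2'.le (hv.hol0.mono (subset_univ _)) hW0 hb0 hε hεδ' hεδ
  have hsi' := TdD_spray D.sprayi D.invi hti.le (hv.holi.mono (subset_univ _)) hWi hbi hε hεδ' hεδ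
  obtain ⟨D', hD0, hDi⟩ := exists_twoDisc_of_sprays hv h1 D.hr
    (W0 := disc t2) (Wi := disc t1⁻¹) (closedBall_subset_ball ht2) (closedBall_subset_ball hri)
    hs0' hsi'
  refine ⟨D', fun z hz => ?_⟩
  have hz1 : r1 < ‖z‖ := hz.1
  have hz2 : ‖z‖ < r2 := hz.2
  have hzp : 0 < ‖z‖ := h1.trans hz1
  have hzt : z ∈ annu t1 t2 := ⟨ht1'.trans hz1, hz2.trans ht2⟩
  have hzq : z ∈ annu D.q1 D.q2 := ⟨ht1.trans hzt.1, (hz2.trans ht2).trans ht2'⟩
  have hzb : z ∈ ball (0 : ℂ) t2 := mem_ball_zero_iff.2 hzt.2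
  have hzi : z⁻¹ ∈ ball (0 : ℂ) t1⁻¹ := by
    rw [mem_ball_zero_iff, norm_inv]
    exact (inv_lt_inv₀ hzp ht1p).2 hzt.1
  have hziq : z⁻¹ ∈ disc D.q1⁻¹ := ball_subset_ball hti.le hzi
  have hzq' : z ∈ annu D'.q1 D'.q2 := ⟨D'.hqr1.trans hz1, hz2.trans D'.hqr2⟩
  have hWz := (hb0 z hzb).1
  have hWiz := (hbi _ hzi).1
  -- differentiability and continuity of the transitions
  have hθd : DifferentiableAt ℂ (D.θ z) (W0 z) :=
    (hol2_slice D.θhol hzq).differentiableAt (isOpen_ball.mem_nhds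
      (mem_ball_zero_iff.2 (by linarith)))
  have hθc : ∀ᶠ w in 𝓝 (0 : E), ‖D.θ z (W0 z + w)‖ < ε := by
    have h3 : ContinuousAt (fun w : E => D.θ z (W0 z + w)) 0 := by
      have h4 : ContinuousAt (D.θ z) (W0 z + 0) := by
        rw [add_zero]
        exact hθd.continuousAt
      exact ContinuousAt.comp h4 (continuousAt_const.add continuousAt_id)
    have h5 : ‖D.θ z (W0 z + 0)‖ < ε := by
      rw [add_zero, ← he z hzt]
      exact hWiz
    exact h3.norm.eventually (gt_mem_nhds h5)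
  have hθ'c : ∀ᶠ w in 𝓝 (0 : E), ‖D'.θ z w‖ < ε := by
    have h3 : ContinuousAt (D'.θ z) 0 :=
      ((hol2_slice D'.θhol hzq').differentiableAt (ball_mem_nhds _ D'.hd)).continuousAt
    have h5 : ‖D'.θ z 0‖ < ε := by
      rw [D'.θzero z hzq', norm_zero]
      exact hε
    exact h3.norm.eventually (gt_mem_nhds h5)
  have hev : D'.θ z =ᶠ[𝓝 0] fun w => D.θ z (W0 z + w) - Wi z⁻¹ := by
    filter_upwards [hθc, hθ'c, ball_mem_nhds (0 : E) hε, ball_mem_nhds (0 : E) D'.hd]
      with w hw1 hw2 hw3 hw4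
    rw [mem_ball_zero_iff] at hw3
    have h3 := D'.θeq z hzq' w hw4
    rw [hD0, hDi] at h3
    have h3' : D.si z⁻¹ (Wi z⁻¹ + D'.θ z w) = D.s0 z (W0 z + w) := h3
    have h4 : W0 z + w ∈ ball (0 : E) D.d := by
      rw [mem_ball_zero_iff]
      have := norm_add_le (W0 z) w
      linarith
    have h5 := D.θeq z hzq (W0 z + w) h4
    have h6 : ‖Wi z⁻¹ + D'.θ z w‖ < D.δ' := by
      have := norm_add_le (Wi z⁻¹) (D'.θ z w)
      linarith
    have h7 : ‖D.θ z (W0 z + w)‖ < D.δ' := by linarith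
    have h8 := (D.invi.left z⁻¹ hziq _ h6).2
    have h9 := (D.invi.left z⁻¹ hziq _ h7).2
    rw [h3', ← h5, h9] at h8
    rw [h8, add_sub_cancel_left]
  rw [hev.fderiv_eq, fderiv_sub_const, fderiv_comp_add_left, add_zero]

end Pool.Agent.W_4d259d_h53
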